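import Pool.Agent.Lib.MP_640417_ag.Far.Spec

/-!
# Pairwise non isomorphic irreducible spaces of functions are independent
-/

namespace Pool.Agent.Lib.MP_640417_ag.Far

open Module Finset

section

variable {S G : Type} [Group G] [MulAction G S] {n : ℕ}

/-- The relations between the spaces `U i`, `i ∈ I`. -/
def relSub (U : Fin n → Submodule ℚ (S → ℚ)) (I : Finset (Fin n)) :
    Submodule ℚ (Fin n → (S → ℚ)) where
  carrier := {g | (∀ i ∈ I, g i ∈ U i) ∧ (∀ i ∉ I, g i = 0) ∧ ∑ i ∈ I, g i = 0}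
  add_mem' := by
    rintro g g' ⟨h1, h2, h3⟩ ⟨h1', h2', h3'⟩
    refine ⟨fun i hi => (U i).add_mem (h1 i hi) (h1' i hi), fun i hi => ?_, ?_⟩
    · rw [Pi.add_apply, h2 i hi, h2' i hi, add_zero]
    · simp only [Pi.add_apply, Finset.sum_add_distrib, h3, h3', add_zero]
  zero_mem' := ⟨fun i _ => (U i).zero_mem, fun _ _ => rfl, by simp⟩
  smul_mem' := by
    rintro c g ⟨h1, h2, h3⟩
    refine ⟨fun i hi => (U i).smul_mem c (h1 i hi), fun i hi => ?_, ?_⟩
    · rw [Pi.smul_apply, h2 i hi, smul_zero]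
    · simp only [Pi.smul_apply, ← Finset.smul_sum, h3, smul_zero]

lemma mem_relSub (U : Fin n → Submodule ℚ (S → ℚ)) (I : Finset (Fin n))
    (g : Fin n → (S → ℚ)) :
    g ∈ relSub U I ↔ (∀ i ∈ I, g i ∈ U i) ∧ (∀ i ∉ I, g i = 0) ∧ ∑ i ∈ I, g i = 0 := Iff.rfl

lemma relSub_translate (U : Fin n → Submodule ℚ (S → ℚ)) (hU : ∀ i, IsStab G (U i))
    (I : Finset (Fin n)) (g : Fin n → (S → ℚ)) (hg : g ∈ relSub U I) (γ : G) :
    (fun i s => g i (γ • s)) ∈ relSub U I := by
  obtain ⟨h1, h2, h3⟩ := hg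
  refine ⟨fun i hi => hU i _ (h1 i hi) γ, fun i hi => ?_, ?_⟩
  · funext s
    show g i (γ • s) = 0
    rw [h2 i hi]
    rfl
  · funext s
    have h4 := congrFun h3 (γ • s)
    simp only [Finset.sum_apply] at h4 ⊢
    exact h4

/-- The coordinate map from the relations to `U i`. -/
def relProj (U : Fin n → Submodule ℚ (S → ℚ)) (I : Finset (Fin n)) (i : Fin n) (hi : i ∈ I) :
    relSub U I →ₗ[ℚ] U i where
  toFun g := ⟨g.1 i, g.2.1 i hi⟩
  map_add' _ _ := rfl
  map_smul' _ _ := rfl

lemma relProj_bij (U : Fin n → Submodule ℚ (S → ℚ)) (hU : ∀ i, IsIrr G (U i))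
    (I : Finset (Fin n))
    (ih : ∀ J ⊂ I, ∀ g : Fin n → (S → ℚ), (∀ i ∈ J, g i ∈ U i) → ∑ i ∈ J, g i = 0 →
      ∀ i ∈ J, g i = 0)
    (g : Fin n → (S → ℚ)) (hg : g ∈ relSub U I) (i : Fin n) (hi : i ∈ I) (hgi : g i ≠ 0) :
    Function.Bijective (relProj U I i hi) := by
  constructor
  · rw [← LinearMap.ker_eq_bot, LinearMap.ker_eq_bot']
    rintro ⟨r, hr⟩ h
    have h0 : r i = 0 := congrArg Subtype.val h
    obtain ⟨h1, h2, h3⟩ := hr
    have hsum : ∑ j ∈ I.erase i, r j = 0 := by
      rw [← Finset.add_sum_erase I r hi, h0, zero_add] at h3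
      exact h3
    have h5 := ih (I.erase i) (Finset.erase_ssubset hi) r
      (fun j hj => h1 j (Finset.mem_of_mem_erase hj)) hsum
    apply Subtype.ext
    funext j
    show r j = 0
    by_cases hj : j ∈ I
    · by_cases hji : j = i
      · rw [hji, h0]
      · exact h5 j (Finset.mem_erase.2 ⟨hji, hj⟩)
    · exact h2 j hj
  · obtain ⟨-, hst, hirr⟩ := hU i
    have hP : ((relProj U I i hi).range.map (U i).subtype) = ⊥ ∨
        ((relProj U I i hi).range.map (U i).subtype) = U i := by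
      apply hirr
      · exact Submodule.map_subtype_le _ _
      · rintro f hf γ
        rw [Submodule.mem_map] at hf ⊢
        obtain ⟨y, ⟨r, hr⟩, hy⟩ := hf
        refine ⟨relProj U I i hi ⟨_, relSub_translate U (fun i => (hU i).2.1) I r.1 r.2 γ⟩,
          ⟨_, rfl⟩, ?_⟩
        funext s
        rw [← hy, ← hr]
        rfl
    rcases hP with hP | hP
    · exfalso
      apply hgi
      have : g i ∈ ((relProj U I i hi).range.map (U i).subtype) := by
        rw [Submodule.mem_map]
        exact ⟨relProj U I i hi ⟨g, hg⟩, ⟨_, rfl⟩, rfl⟩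
      rw [hP] at this
      exact (Submodule.mem_bot ℚ).1 this
    · intro y
      have : (y : S → ℚ) ∈ ((relProj U I i hi).range.map (U i).subtype) := by
        rw [hP]
        exact y.2
      rw [Submodule.mem_map] at this
      obtain ⟨y', ⟨r, hr⟩, hy'⟩ := this
      refine ⟨r, ?_⟩
      rw [hr]
      exact Subtype.ext hy'

lemma indep_finset (U : Fin n → Submodule ℚ (S → ℚ)) (hU : ∀ i, IsIrr G (U i))
    (hne : ∀ i j, i ≠ j → ¬ IsoF G (U i) (U j)) (I : Finset (Fin n)) :
    ∀ g : Fin n → (S → ℚ), (∀ i ∈ I, g i ∈ U i) → ∑ i ∈ I, g i = 0 → ∀ i ∈ I, g i = 0 := by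
  classical
  induction I using Finset.strongInduction with
  | H I ih =>
    intro g hg hsum i hi
    by_contra hgi
    -- another index
    obtain ⟨j, hj, hji, hgj⟩ : ∃ j ∈ I, j ≠ i ∧ g j ≠ 0 := by
      by_contra hcon
      push Not at hcon
      apply hgi
      rw [← hsum]
      symm
      exact Finset.sum_eq_single i (fun j hj hji => hcon j hj hji) (fun h => absurd hi h)
    set g' : Fin n → (S → ℚ) := fun i => if i ∈ I then g i else 0 with hg'
    have hg'I : ∀ i ∈ I, g' i = g i := fun i hi => if_pos hi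
    have hg'R : g' ∈ relSub U I := by
      refine ⟨fun i hi => ?_, fun i hi => if_neg hi, ?_⟩
      · rw [hg'I i hi]; exact hg i hi
      · rw [← hsum]
        exact Finset.sum_congr rfl hg'I
    have hbi := relProj_bij U hU I ih g' hg'R i hi (by rw [hg'I i hi]; exact hgi)
    have hbj := relProj_bij U hU I ih g' hg'R j hj (by rw [hg'I j hj]; exact hgj)
    set ei := LinearEquiv.ofBijective _ hbi with hei
    set ej := LinearEquiv.ofBijective _ hbj with hej
    apply hne i j (Ne.symm hji)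
    refine ⟨ei.symm.trans ej, fun f f' γ hff s => ?_⟩
    have key : ei.symm f' = ⟨_, relSub_translate U (fun i => (hU i).2.1) I (ei.symm f).1
        (ei.symm f).2 γ⟩ := by
      rw [LinearEquiv.symm_apply_eq]
      apply Subtype.ext
      funext t
      rw [hff]
      have h1 : ei (ei.symm f) = f := ei.apply_symm_apply f
      have h2 : ((ei (ei.symm f)).1 : S → ℚ) (γ • t) = f.1 (γ • t) := by rw [h1]
      rw [← h2]
      rfl
    show (ej (ei.symm f')).1 s = (ej (ei.symm f)).1 (γ • s)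
    rw [key]
    rfl

end

theorem indep : StIndep := by
  intro S G _ _ _ n U hU hne f hf hsum i
  exact indep_finset U hU hne Finset.univ f (fun i _ => hf i) hsum i (Finset.mem_univ i)

end Pool.Agent.Lib.MP_640417_ag.Far
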