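import Pool.Agent.Lib.MP_640417_ag.Far.Spec

/-!
# Reductions of isomorphic rational spaces of functions
-/

namespace Pool.Agent.Lib.MP_640417_ag.Far

open Module Finset

section bn

variable {S : Type} {G : Type} [Group G] [MulAction G S]

/-- The translation action on a stable space. -/
def actHom (U : Submodule ℚ (S → ℚ)) (hU : IsStab G U) : G →* (U ≃ₗ[ℚ] U) where
  toFun γ :=
    { toFun := fun f => ⟨fun s => f.1 (γ⁻¹ • s), hU _ f.2 γ⁻¹⟩
      invFun := fun f => ⟨fun s => f.1 (γ • s), hU _ f.2 γ⟩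
      left_inv := fun f => Subtype.ext (funext fun s => by simp)
      right_inv := fun f => Subtype.ext (funext fun s => by simp)
      map_add' := fun f g => Subtype.ext (funext fun s => by simp)
      map_smul' := fun c f => Subtype.ext (funext fun s => by simp) }
  map_one' := by
    apply LinearEquiv.ext
    intro f
    apply Subtype.ext
    funext s
    simp
  map_mul' a b := by
    apply LinearEquiv.ext
    intro f
    apply Subtype.ext
    funext s
    simp [mul_smul]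

lemma actHom_apply (U : Submodule ℚ (S → ℚ)) (hU : IsStab G U) (γ : G) (f : U) (s : S) :
    (actHom U hU γ f).1 s = f.1 (γ⁻¹ • s) := rfl

lemma actHom_ker (U : Submodule ℚ (S → ℚ)) (hU : IsStab G U) :
    (actHom U hU).ker = kerSub G U := by
  ext γ
  rw [MonoidHom.mem_ker, mem_kerSub]
  constructor
  · intro h f hf s
    have h1 := LinearEquiv.congr_fun h ⟨f, hf⟩
    have h2 := congrFun (congrArg Subtype.val h1) (γ • s)
    rw [actHom_apply, inv_smul_smul] at h2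
    exact h2.symm
  · intro h
    apply LinearEquiv.ext
    intro f
    apply Subtype.ext
    funext s
    have h1 := h f.1 f.2 (γ⁻¹ • s)
    rw [smul_inv_smul] at h1
    rw [actHom_apply, ← h1]
    rfl

/-- The integer valued members of a space, through a linear map. -/
def intMem {W : Type} [AddCommGroup W] [Module ℚ W] (θ : W →ₗ[ℚ] (S → ℚ)) : AddSubgroup W where
  carrier := {f | ∃ v : S → ℤ, ∀ s, θ f s = v s}
  add_mem' := by
    rintro f g ⟨v, hv⟩ ⟨w, hw⟩
    refine ⟨fun s => v s + w s, fun s => ?_⟩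
    rw [map_add, Pi.add_apply, hv, hw]
    push_cast
    rfl
  zero_mem' := ⟨fun _ => 0, fun s => by simp⟩
  neg_mem' := by
    rintro f ⟨v, hv⟩
    refine ⟨fun s => - v s, fun s => ?_⟩
    rw [map_neg, Pi.neg_apply, hv]
    push_cast
    rfl

lemma mem_intMem {W : Type} [AddCommGroup W] [Module ℚ W] (θ : W →ₗ[ℚ] (S → ℚ)) (f : W) :
    f ∈ intMem θ ↔ ∃ v : S → ℤ, ∀ s, θ f s = v s := Iff.rfl

/-- Common denominators of a linear map. -/
lemma exists_den [Finite S] (U : Submodule ℚ (S → ℚ)) (θ : U →ₗ[ℚ] (S → ℚ)) :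
    ∃ n : ℕ, n ≠ 0 ∧ ∀ f : U, (∃ v : S → ℤ, ∀ s, f.1 s = v s) →
      ∃ v' : S → ℤ, ∀ s, (n : ℚ) * θ f s = v' s := by
  classical
  have : Fintype S := Fintype.ofFinite S
  obtain ⟨g, hg⟩ := LinearMap.exists_extend θ
  let A : S × S → ℚ := fun x => g (Pi.single x.1 1) x.2
  refine ⟨∏ x : S × S, (A x).den, Finset.prod_ne_zero_iff.2 fun x _ => (A x).den_nz, ?_⟩
  rintro f ⟨v, hv⟩
  have h1 : ∀ x : S × S, ∃ m : ℤ, ((∏ x : S × S, (A x).den : ℕ) : ℚ) * A x = m := by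
    intro x
    obtain ⟨c, hc⟩ := Finset.dvd_prod_of_mem (fun x => (A x).den) (Finset.mem_univ x)
    refine ⟨c * (A x).num, ?_⟩
    have h2 := (A x).mul_den_eq_num
    rw [hc]
    push_cast
    rw [← h2]
    ring
  choose m hm using h1
  refine ⟨fun t => ∑ s, m (s, t) * v s, fun t => ?_⟩
  have h3 : θ f = g f.1 := by
    rw [← hg]
    rfl
  have h4 : g f.1 = ∑ s, f.1 s • g (Pi.single s 1) := by
    have h5 : f.1 = ∑ s, f.1 s • (Pi.single s 1 : S → ℚ) := by
      funext t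
      rw [Finset.sum_apply]
      simp [Pi.single_apply]
    conv_lhs => rw [h5]
    rw [map_sum]
    simp only [map_smul]
  rw [h3, h4, Finset.sum_apply, Finset.mul_sum]
  rw [Int.cast_sum]
  apply Finset.sum_congr rfl
  intro s _
  rw [Pi.smul_apply, smul_eq_mul, hv, Int.cast_mul, ← hm]
  ring

end bn

theorem bn_of_core (h1 : StBNcore) (h2 : StRed) : StBN := by
  intro S G _ _ _ _ p _ U U' hU hU' hiso hidx
  obtain ⟨θ, hθ⟩ := hiso
  have hpz : (p : ℚ) ≠ 0 := by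
    exact_mod_cast (Fact.out : p.Prime).ne_zero
  set L : AddSubgroup U := intMem U.subtype with hL
  set L' : AddSubgroup U := intMem (U'.subtype ∘ₗ θ.toLinearMap) with hL'
  have hcard : Nat.card (actHom U hU).range = (kerSub G U).index := by
    rw [← actHom_ker U hU, Subgroup.index_ker]
  -- the translations
  have hact : ∀ (γ : G) (x : U) (s : S), (θ (actHom U hU γ x)).1 s = (θ x).1 (γ⁻¹ • s) := by
    intro γ x
    exact hθ x (actHom U hU γ x) γ⁻¹ (fun s => rfl)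
  obtain ⟨n₁, hn₁, hn₁'⟩ := exists_den U (U'.subtype ∘ₗ θ.toLinearMap)
  obtain ⟨n₂, hn₂, hn₂'⟩ := exists_den U' (U.subtype ∘ₗ θ.symm.toLinearMap)
  have hfin : Finite (actHom U hU).range := by
    apply Nat.finite_of_card_ne_zero
    rw [hcard]
    exact Subgroup.index_ne_zero_of_finite
  have hLst : ∀ (q : (actHom U hU).range), ∀ x ∈ L, q • x ∈ L := by
    rintro ⟨_, γ, rfl⟩ x ⟨v, hv⟩
    exact ⟨fun s => v (γ⁻¹ • s), fun s => hv _⟩
  have hLst' : ∀ (q : (actHom U hU).range), ∀ x ∈ L', q • x ∈ L' := by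
    rintro ⟨_, γ, rfl⟩ x ⟨v, hv⟩
    refine ⟨fun s => v (γ⁻¹ • s), fun s => ?_⟩
    exact (hact γ x s).trans (hv _)
  have hmulL : ∀ (n : ℕ), ∀ x ∈ L, n • x ∈ L := fun n x hx => L.nsmul_mem hx n
  have hLL' : ∀ x ∈ L, (n₁ * n₂) • x ∈ L' := by
    intro x hx
    obtain ⟨v, hv⟩ := hn₁' x hx
    have h3 : n₁ • x ∈ L' := by
      refine ⟨v, fun s => ?_⟩
      rw [← hv s, map_nsmul, nsmul_eq_mul]
      simp
    rw [mul_comm, mul_smul]
    exact L'.nsmul_mem h3 n₂
  have hL'L : ∀ x ∈ L', (n₁ * n₂) • x ∈ L := by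
    intro x hx
    obtain ⟨v, hv⟩ := hn₂' (θ x) hx
    have h3 : n₂ • x ∈ L := by
      refine ⟨v, fun s => ?_⟩
      rw [← hv s, map_nsmul, nsmul_eq_mul]
      simp
    rw [mul_smul]
    exact L.nsmul_mem h3 n₁
  obtain ⟨φ, ha, hb, hc, hd⟩ := h1 (actHom U hU).range U
    (fun n x h => by
      have h3 : (n : ℚ) • x = 0 := by
        rw [← h]
        exact Int.cast_smul_eq_zsmul ℚ n x
      rcases smul_eq_zero.1 h3 with h4 | h4
      · left
        exact_mod_cast h4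
      · right
        exact h4)
    L L' hLst hLst' (n₁ * n₂) (mul_ne_zero hn₁ hn₂) hLL' hL'L p (by rw [hcard]; exact hidx)
  -- the integer functions attached to the members of `L` and `L'`
  have e1 : ∀ x : L, ∃ v : S → ℤ, ∀ s, x.1.1 s = v s := fun x => x.2
  choose vL hvL using e1
  have e2 : ∀ x : L, ∃ v : S → ℤ, ∀ s, (θ (φ x.1)).1 s = v s := fun x => ha x.1 x.2
  choose wL hwL using e2
  have hcast : ∀ (a b c : ℤ), (a : ℚ) = b + p * c → (a : ZMod p) = (b : ZMod p) := by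
    intro a b c h
    have h3 : a = b + p * c := by exact_mod_cast h
    rw [h3]
    push_cast
    rw [CharP.cast_eq_zero, zero_mul, add_zero]
  -- reduction of `L`
  let ρ : L →+ (S → ZMod p) := AddMonoidHom.mk' (fun x s => (vL x s : ZMod p)) (by
    intro x y
    funext s
    rw [Pi.add_apply, ← Int.cast_add]
    congr 1
    have : ((vL (x + y) s : ℤ) : ℚ) = ((vL x s + vL y s : ℤ) : ℚ) := by
      push_cast
      rw [← hvL, ← hvL, ← hvL]
      rfl
    exact_mod_cast this)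
  -- reduction of the images
  let ψ : L →+ (S → ZMod p) := AddMonoidHom.mk' (fun x s => (wL x s : ZMod p)) (by
    intro x y
    funext s
    obtain ⟨w, ⟨u, hu⟩, hw⟩ := hb x.1 x.2 y.1 y.2
    rw [Pi.add_apply, ← Int.cast_add]
    apply hcast _ _ (u s)
    push_cast
    rw [← hwL, ← hwL, ← hwL, ← hu]
    have h3 : φ (x + y : L).1 = φ x.1 + φ y.1 + p • w := by
      rw [← hw, AddSubgroup.coe_add]
      abel
    rw [h3, map_add, map_add, map_nsmul]
    simp)
  have hρ : ∀ x s, ρ x s = (vL x s : ZMod p) := fun x s => rfl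
  have hψ : ∀ x s, ψ x s = (wL x s : ZMod p) := fun x s => rfl
  -- divisibility
  have hdiv : ∀ (v : S → ℤ), (∀ s, (v s : ZMod p) = 0) → ∃ u : S → ℤ, ∀ s, (v s : ℚ) = p * u s := by
    intro v h
    have h3 : ∀ s, ∃ u : ℤ, v s = p * u := fun s => (ZMod.intCast_zmod_eq_zero_iff_dvd _ _).1 (h s)
    choose u hu using h3
    refine ⟨u, fun s => ?_⟩
    rw [hu s]
    push_cast
    rfl
  have hρ0 : ∀ x : L, ρ x = 0 → ∃ y : L, x = p • y := by
    intro x hx
    obtain ⟨u, hu⟩ := hdiv (vL x) (fun s => congrFun hx s)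
    have h3 : ((p : ℚ)⁻¹ • x.1 : U) ∈ L := by
      refine ⟨u, fun s => ?_⟩
      have h4 : ((p : ℚ)⁻¹ • x.1 : U).1 s = (p : ℚ)⁻¹ * x.1.1 s := rfl
      rw [Submodule.subtype_apply, h4, hvL, hu, inv_mul_cancel_left₀ hpz]
    refine ⟨⟨_, h3⟩, Subtype.ext ?_⟩
    rw [AddSubgroup.coe_nsmul]
    rw [← Nat.cast_smul_eq_nsmul ℚ p, smul_smul, mul_inv_cancel₀ hpz, one_smul]
  have hψ0 : ∀ x : L, ψ x = 0 → ∃ y : L, x = p • y := by
    intro x hx
    obtain ⟨u, hu⟩ := hdiv (wL x) (fun s => congrFun hx s)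
    have h3 : ((p : ℚ)⁻¹ • φ x.1 : U) ∈ L' := by
      refine ⟨u, fun s => ?_⟩
      have h4 : (U'.subtype ∘ₗ θ.toLinearMap) ((p : ℚ)⁻¹ • φ x.1 : U) s
          = (p : ℚ)⁻¹ * (θ (φ x.1)).1 s := by
        rw [map_smul]
        rfl
      rw [h4, hwL, hu, inv_mul_cancel_left₀ hpz]
    obtain ⟨y, hy, hxy⟩ := hd x.1 x.2 ⟨_, h3, by
      rw [← Nat.cast_smul_eq_nsmul ℚ p, smul_smul, mul_inv_cancel₀ hpz, one_smul]⟩
    exact ⟨⟨y, hy⟩, Subtype.ext hxy⟩
  have hpsmul : ∀ (w : S → ZMod p), p • w = 0 := by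
    intro w
    funext s
    rw [Pi.smul_apply, nsmul_eq_mul, CharP.cast_eq_zero, zero_mul]
    rfl
  have hker : ∀ x : L, ρ x = 0 ↔ ψ x = 0 := by
    intro x
    constructor
    · intro h
      obtain ⟨y, rfl⟩ := hρ0 x h
      rw [map_nsmul, hpsmul]
    · intro h
      obtain ⟨y, rfl⟩ := hψ0 x h
      rw [map_nsmul, hpsmul]
  have heq : ∀ x y : L, ρ x = ρ y ↔ ψ x = ψ y := by
    intro x y
    rw [← sub_eq_zero, ← map_sub, hker, map_sub, sub_eq_zero]
  have hsurj : ∀ w : red p U, ∃ x : L, ρ x = w.1 := by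
    rintro ⟨w, v, hv, hw⟩
    let x : L := ⟨⟨_, hv⟩, v, fun s => rfl⟩
    refine ⟨x, ?_⟩
    funext s
    have h3 : ((v s : ℤ) : ℚ) = (vL x s : ℚ) := hvL x s
    have h4 : v s = vL x s := by exact_mod_cast h3
    show ((vL x s : ℤ) : ZMod p) = w s
    rw [hw, h4]
  choose X hX using hsurj
  have hψmem : ∀ x : L, ψ x ∈ red p U' := by
    intro x
    refine ⟨wL x, ?_, fun s => rfl⟩
    have h3 : (fun s => ((wL x s : ℤ) : ℚ)) = (θ (φ x.1)).1 := by
      funext s
      rw [hwL]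
    rw [h3]
    exact (θ (φ x.1)).2
  let Ψ₀ : red p U →+ red p U' := AddMonoidHom.mk' (fun w => ⟨ψ (X w), hψmem _⟩) (by
    intro w w'
    apply Subtype.ext
    show ψ (X (w + w')) = ψ (X w) + ψ (X w')
    rw [← map_add, ← heq, map_add, hX, hX, hX]
    rfl)
  have hΨ : ∀ (w : red p U) (x : L), ρ x = w.1 → (Ψ₀ w).1 = ψ x := by
    intro w x hx
    show ψ (X w) = ψ x
    rw [← heq, hX, hx]
  let Ψ : red p U →ₗ[ZMod p] red p U' := AddMonoidHom.toZModLinearMap p Ψ₀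
  have hΨ' : ∀ w, Ψ w = Ψ₀ w := fun w => rfl
  have hinj : Function.Injective Ψ := by
    intro w w' h
    have h3 : ψ (X w) = ψ (X w') := congrArg Subtype.val h
    rw [← heq, hX, hX] at h3
    exact Subtype.ext h3
  have hdim : finrank (ZMod p) (red p U) = finrank (ZMod p) (red p U') := by
    rw [h2 S p U, h2 S p U', θ.finrank_eq]
  refine ⟨LinearMap.linearEquivOfInjective Ψ hinj hdim, ?_⟩
  intro f f' γ hff s
  rw [LinearMap.linearEquivOfInjective_apply, LinearMap.linearEquivOfInjective_apply, hΨ', hΨ']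
  obtain ⟨w, ⟨u, hu⟩, hw⟩ := hc ⟨actHom U hU γ⁻¹, γ⁻¹, rfl⟩ (X f).1 (X f).2
  let y : L := ⟨(⟨actHom U hU γ⁻¹, γ⁻¹, rfl⟩ : (actHom U hU).range) • (X f).1, hLst _ _ (X f).2⟩
  have hy : ∀ s, y.1.1 s = (X f).1.1 (γ • s) := by
    intro s
    show (X f).1.1 ((γ⁻¹)⁻¹ • s) = _
    rw [inv_inv]
  have hyρ : ρ y = f'.1 := by
    funext s
    rw [hff, ← hX f, hρ, hρ]
    congr 1
    have h3 := hy s
    rw [hvL, hvL] at h3
    exact_mod_cast h3
  rw [hΨ f' y hyρ, hΨ f (X f) (hX f), hψ, hψ]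
  apply hcast _ _ (u s)
  rw [← hwL, ← hwL, ← hu]
  have h3 : φ y.1 = actHom U hU γ⁻¹ (φ (X f).1) + p • w := by
    rw [← hw]
    show φ y.1 = actHom U hU γ⁻¹ (φ (X f).1) + (φ y.1 - actHom U hU γ⁻¹ (φ (X f).1))
    abel
  rw [h3, map_add, map_nsmul]
  have h4 := hact γ⁻¹ (φ (X f).1) s
  rw [inv_inv] at h4
  rw [← h4]
  simp

end Pool.Agent.Lib.MP_640417_ag.Far
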