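import Pool.Agent.Lib.MP_640417_ag.Far.Spec

/-!
# Lattices in a representation: isomorphic reductions
-/

namespace Pool.Agent.Lib.MP_640417_ag.Far

open Module Finset

section core

variable {W : Type} [AddCommGroup W]

/-- The multiples by `p` of the elements of an additive subgroup. -/
def mulSub (p : ℕ) (L : AddSubgroup W) : AddSubgroup W where
  carrier := {x | ∃ w ∈ L, x = p • w}
  add_mem' := by
    rintro x y ⟨w, hw, rfl⟩ ⟨w', hw', rfl⟩
    exact ⟨w + w', L.add_mem hw hw', by rw [smul_add]⟩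
  zero_mem' := ⟨0, L.zero_mem, by simp⟩
  neg_mem' := by
    rintro x ⟨w, hw, rfl⟩
    exact ⟨-w, L.neg_mem hw, by rw [smul_neg]⟩

lemma mem_mulSub {p : ℕ} {L : AddSubgroup W} {x : W} : x ∈ mulSub p L ↔ ∃ w ∈ L, x = p • w :=
  Iff.rfl

lemma mulSub_le (p : ℕ) (L : AddSubgroup W) : mulSub p L ≤ L := by
  rintro x ⟨w, hw, rfl⟩
  exact L.nsmul_mem hw p

lemma mulSub_mono (p : ℕ) {L L' : AddSubgroup W} (h : L ≤ L') : mulSub p L ≤ mulSub p L' := by
  rintro x ⟨w, hw, rfl⟩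
  exact ⟨w, h hw, rfl⟩

variable {Q : Type} [Group Q] [DistribMulAction Q W]

lemma smul_mem_mulSub {p : ℕ} {L : AddSubgroup W} (hL : ∀ (q : Q), ∀ x ∈ L, q • x ∈ L) (q : Q)
    {x : W} (hx : x ∈ mulSub p L) : q • x ∈ mulSub p L := by
  obtain ⟨w, hw, rfl⟩ := hx
  exact ⟨q • w, hL q w hw, by rw [smul_comm]⟩

/-- The relation: the reduction of `L` modulo `p` embeds into that of `L'`. -/
def RedTo (Q : Type) [Group Q] [DistribMulAction Q W] (p : ℕ) (L L' : AddSubgroup W) : Prop :=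
  ∃ φ : W → W, (∀ x ∈ L, φ x ∈ L') ∧
    (∀ x ∈ L, ∀ y ∈ L, φ (x + y) - φ x - φ y ∈ mulSub p L') ∧
    (∀ q : Q, ∀ x ∈ L, φ (q • x) - q • φ x ∈ mulSub p L') ∧
    (∀ x ∈ L, φ x ∈ mulSub p L' → x ∈ mulSub p L)

/-- A map additive modulo a subgroup kills the multiples of `p` modulo it. -/
lemma map_mulSub {p : ℕ} {L L' : AddSubgroup W} {φ : W → W} (h1 : ∀ x ∈ L, φ x ∈ L')
    (h2 : ∀ x ∈ L, ∀ y ∈ L, φ (x + y) - φ x - φ y ∈ mulSub p L') {x : W} (hx : x ∈ mulSub p L) :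
    φ x ∈ mulSub p L' := by
  obtain ⟨w, hw, rfl⟩ := hx
  have h0 : φ 0 ∈ mulSub p L' := by
    have := h2 0 L.zero_mem 0 L.zero_mem
    have h3 : φ 0 = -(φ (0 + 0) - φ 0 - φ 0) := by
      rw [add_zero]; abel
    rw [h3]
    exact AddSubgroup.neg_mem _ this
  have h3 : ∀ n : ℕ, φ (n • w) - n • φ w ∈ mulSub p L' := by
    intro n
    induction n with
    | zero => simpa using h0
    | succ n ih =>
      have h4 := h2 (n • w) (L.nsmul_mem hw n) w hw
      have h5 : φ ((n + 1) • w) - (n + 1) • φ w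
          = (φ (n • w + w) - φ (n • w) - φ w) + (φ (n • w) - n • φ w) := by
        rw [add_smul, one_smul, add_smul, one_smul]; abel
      rw [h5]
      exact AddSubgroup.add_mem _ h4 ih
  have h4 : φ (p • w) = (φ (p • w) - p • φ w) + p • φ w := by abel
  rw [h4]
  exact AddSubgroup.add_mem _ (h3 p) ⟨φ w, h1 w hw, rfl⟩

/-- Congruent arguments have congruent values. -/
lemma map_congr_mod {p : ℕ} {L L' : AddSubgroup W} {φ : W → W} (h1 : ∀ x ∈ L, φ x ∈ L')
    (h2 : ∀ x ∈ L, ∀ y ∈ L, φ (x + y) - φ x - φ y ∈ mulSub p L') {x y : W} (hx : x ∈ L)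
    (hxy : y - x ∈ mulSub p L) : φ y - φ x ∈ mulSub p L' := by
  have h3 := h2 x hx (y - x) (mulSub_le p L hxy)
  have h4 := map_mulSub h1 h2 hxy
  have h5 : φ y - φ x = (φ (x + (y - x)) - φ x - φ (y - x)) + φ (y - x) := by
    rw [add_sub_cancel]; abel
  rw [h5]
  exact AddSubgroup.add_mem _ h3 h4

lemma RedTo.trans {p : ℕ} {L L' L'' : AddSubgroup W} (hL' : ∀ (q : Q), ∀ x ∈ L', q • x ∈ L')
    (h : RedTo Q p L L') (h' : RedTo Q p L' L'') : RedTo Q p L L'' := by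
  obtain ⟨φ, h1, h2, h3, h4⟩ := h
  obtain ⟨φ', h1', h2', h3', h4'⟩ := h'
  refine ⟨fun x => φ' (φ x), fun x hx => h1' _ (h1 x hx), ?_, ?_, ?_⟩
  · intro x hx y hy
    have h5 : φ' (φ (x + y)) - φ' (φ x + φ y) ∈ mulSub p L'' := by
      apply map_congr_mod h1' h2' (L'.add_mem (h1 x hx) (h1 y hy))
      have h6 := h2 x hx y hy
      have h7 : φ (x + y) - (φ x + φ y) = φ (x + y) - φ x - φ y := by abel
      rw [h7]
      exact h6
    have h6 := h2' (φ x) (h1 x hx) (φ y) (h1 y hy)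
    have h7 : φ' (φ (x + y)) - φ' (φ x) - φ' (φ y)
        = (φ' (φ (x + y)) - φ' (φ x + φ y)) + (φ' (φ x + φ y) - φ' (φ x) - φ' (φ y)) := by abel
    rw [h7]
    exact AddSubgroup.add_mem _ h5 h6
  · intro q x hx
    have h5 : φ' (φ (q • x)) - φ' (q • φ x) ∈ mulSub p L'' := by
      apply map_congr_mod h1' h2' (hL' q _ (h1 x hx))
      exact h3 q x hx
    have h6 := h3' q (φ x) (h1 x hx)
    have h7 : φ' (φ (q • x)) - q • φ' (φ x)
        = (φ' (φ (q • x)) - φ' (q • φ x)) + (φ' (q • φ x) - q • φ' (φ x)) := by abel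
    rw [h7]
    exact AddSubgroup.add_mem _ h5 h6
  · intro x hx h5
    exact h4 x hx (h4' _ (h1 x hx) h5)

lemma exists_addProj_field {K V : Type} [Field K] [AddCommGroup V] [Module K V]
    (V' : Submodule K V) : ∃ P : V →+ V, (∀ v, P v ∈ V') ∧ ∀ v ∈ V', P v = v := by
  obtain ⟨P, hP0⟩ := LinearMap.exists_leftInverse_of_injective V'.subtype V'.ker_subtype
  refine ⟨(V'.subtype.comp P).toAddMonoidHom, fun v => (P v).2, fun v hv => ?_⟩
  have h1 : P (V'.subtype ⟨v, hv⟩) = ⟨v, hv⟩ := by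
    rw [← LinearMap.comp_apply, hP0, LinearMap.id_apply]
  exact congrArg Subtype.val h1

lemma exists_addProj {V : Type} [AddCommGroup V] (p : ℕ) [hp : Fact p.Prime]
    (hpV : ∀ v : V, p • v = 0) (V' : AddSubgroup V) :
    ∃ P : V →+ V, (∀ v, P v ∈ V') ∧ ∀ v ∈ V', P v = v := by
  let _ : Module (ZMod p) V := AddCommGroup.zmodModule hpV
  let V₁ : Submodule (ZMod p) V :=
    { V' with
      smul_mem' := by
        intro c x hx
        have h1 : c • x = c.val • x := by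
          conv_lhs => rw [← ZMod.natCast_zmod_val c]
          rw [Nat.cast_smul_eq_nsmul]
        rw [h1]
        exact V'.nsmul_mem hx _ }
  obtain ⟨P, hP1, hP2⟩ := exists_addProj_field V₁
  exact ⟨P, hP1, hP2⟩

/-- A retraction modulo `p`, not yet equivariant. -/
lemma exists_retraction (p : ℕ) [hp : Fact p.Prime] (M M' : AddSubgroup W) (hM' : M' ≤ M)
    (hpM : mulSub p M ≤ M') :
    ∃ π : W → W, (∀ x ∈ M, π x ∈ M') ∧
      (∀ x ∈ M, ∀ y ∈ M, π (x + y) - π x - π y ∈ mulSub p M) ∧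
      (∀ x ∈ M', π x - x ∈ mulSub p M) := by
  classical
  let N : AddSubgroup M := (mulSub p M).addSubgroupOf M
  have hNmem : ∀ x : M, x ∈ N ↔ (x : W) ∈ mulSub p M := fun x => AddSubgroup.mem_addSubgroupOf
  let mk : M →+ M ⧸ N := QuotientAddGroup.mk' N
  have hmk0 : ∀ x : M, mk x = 0 ↔ (x : W) ∈ mulSub p M := by
    intro x
    rw [← hNmem]
    exact QuotientAddGroup.eq_zero_iff x
  have hpV : ∀ v : M ⧸ N, p • v = 0 := by
    intro v
    obtain ⟨x, rfl⟩ := QuotientAddGroup.mk'_surjective N v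
    change p • mk x = 0
    rw [← map_nsmul, hmk0]
    exact ⟨x, x.2, by simp⟩
  let V' : AddSubgroup (M ⧸ N) := (M'.addSubgroupOf M).map mk
  obtain ⟨P, hP1, hP2⟩ := exists_addProj p hpV V'
  have hlift : ∀ v : M ⧸ N, ∃ x : M, (x : W) ∈ M' ∧ mk x = P v := by
    intro v
    obtain ⟨x, hx, hxv⟩ := AddSubgroup.mem_map.mp (hP1 v)
    exact ⟨x, AddSubgroup.mem_addSubgroupOf.mp hx, hxv⟩
  choose lift hlift1 hlift2 using hlift
  let π : W → W := fun x => if hx : x ∈ M then ((lift (mk ⟨x, hx⟩) : M) : W) else 0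
  have hπ : ∀ (x : W) (hx : x ∈ M), π x = ((lift (mk ⟨x, hx⟩) : M) : W) :=
    fun x hx => dif_pos hx
  refine ⟨π, ?_, ?_, ?_⟩
  · intro x hx
    rw [hπ x hx]
    exact hlift1 _
  · intro x hx y hy
    rw [hπ _ (M.add_mem hx hy), hπ x hx, hπ y hy]
    have h1 : mk ⟨x + y, M.add_mem hx hy⟩ = mk ⟨x, hx⟩ + mk ⟨y, hy⟩ := rfl
    rw [h1]
    have h2 : mk (lift (mk ⟨x, hx⟩ + mk ⟨y, hy⟩) - lift (mk ⟨x, hx⟩) - lift (mk ⟨y, hy⟩)) = 0 := by
      rw [map_sub, map_sub, hlift2, hlift2, hlift2, map_add]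
      abel
    exact (hmk0 _).mp h2
  · intro x hx
    have hxM := hM' hx
    rw [hπ x hxM]
    have h1 : mk ⟨x, hxM⟩ ∈ V' :=
      AddSubgroup.mem_map.mpr ⟨⟨x, hxM⟩, AddSubgroup.mem_addSubgroupOf.mpr hx, rfl⟩
    have h2 : mk (lift (mk ⟨x, hxM⟩) - ⟨x, hxM⟩) = 0 := by
      rw [map_sub, hlift2, hP2 _ h1, sub_self]
    exact (hmk0 _).mp h2

/-- **Maschke.** An equivariant retraction modulo `p`. -/
lemma exists_equivariant_retraction [Finite Q] (p : ℕ) [hp : Fact p.Prime]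
    (hQ : ¬ p ∣ Nat.card Q) (M M' : AddSubgroup W) (hM' : M' ≤ M)
    (hMQ : ∀ (q : Q), ∀ x ∈ M, q • x ∈ M) (hMQ' : ∀ (q : Q), ∀ x ∈ M', q • x ∈ M')
    (hpM : mulSub p M ≤ M') :
    ∃ π : W → W, (∀ x ∈ M, π x ∈ M') ∧
      (∀ x ∈ M, ∀ y ∈ M, π (x + y) - π x - π y ∈ mulSub p M) ∧
      (∀ q : Q, ∀ x ∈ M, π (q • x) - q • π x ∈ mulSub p M) ∧
      (∀ x ∈ M', π x - x ∈ mulSub p M) := by
  classical
  have : Fintype Q := Fintype.ofFinite Q
  obtain ⟨π₀, h1, h2, h3⟩ := exists_retraction p M M' hM' hpM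
  have hcop : Nat.Coprime (Nat.card Q) p := by
    rw [Nat.coprime_comm]
    exact (Nat.Prime.coprime_iff_not_dvd hp.out).mpr hQ
  obtain ⟨m, hm⟩ : ∃ m : ℕ, m * Nat.card Q ≡ 1 [MOD p] := by
    obtain ⟨m, hm⟩ := Nat.exists_mul_mod_eq_one_of_coprime hcop hp.out.one_lt
    refine ⟨m, ?_⟩
    rw [mul_comm]
    unfold Nat.ModEq
    rw [hm.2, Nat.mod_eq_of_lt hp.out.one_lt]
  have hmul : ∀ x ∈ M, (m * Nat.card Q) • x - x ∈ mulSub p M := by
    intro x hx
    have h4 : (p : ℤ) ∣ (m * Nat.card Q : ℕ) - (1 : ℕ) := by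
      have := (Nat.modEq_iff_dvd.mp hm.symm)
      exact this
    obtain ⟨k, hk⟩ := h4
    refine ⟨k • x, M.zsmul_mem hx k, ?_⟩
    have h5 : ((m * Nat.card Q : ℕ) : ℤ) • x - (1 : ℤ) • x = (p : ℤ) • (k • x) := by
      rw [← sub_smul, smul_smul]
      congr 1
    rw [natCast_zsmul, one_smul, natCast_zsmul] at h5
    exact h5
  refine ⟨fun x => m • ∑ q : Q, q • π₀ (q⁻¹ • x), ?_, ?_, ?_, ?_⟩
  · intro x hx
    apply M'.nsmul_mem
    apply AddSubgroup.sum_mem
    intro q _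
    exact hMQ' q _ (h1 _ (hMQ _ x hx))
  · intro x hx y hy
    have h4 : m • ∑ q : Q, q • π₀ (q⁻¹ • (x + y)) - m • ∑ q : Q, q • π₀ (q⁻¹ • x)
        - m • ∑ q : Q, q • π₀ (q⁻¹ • y)
        = m • ∑ q : Q, q • (π₀ (q⁻¹ • x + q⁻¹ • y) - π₀ (q⁻¹ • x) - π₀ (q⁻¹ • y)) := by
      rw [← smul_sub, ← smul_sub, ← Finset.sum_sub_distrib, ← Finset.sum_sub_distrib]
      congr 1
      apply Finset.sum_congr rfl
      intro q _
      rw [smul_sub, smul_sub, smul_add]
    rw [h4]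
    apply AddSubgroup.nsmul_mem
    apply AddSubgroup.sum_mem
    intro q _
    exact smul_mem_mulSub hMQ q (h2 _ (hMQ _ x hx) _ (hMQ _ y hy))
  · intro r x _
    have h4 : ∑ q : Q, q • π₀ (q⁻¹ • r • x) = r • ∑ q : Q, q • π₀ (q⁻¹ • x) := by
      rw [Finset.smul_sum]
      apply Fintype.sum_equiv (Equiv.mulLeft r⁻¹)
      intro q
      simp only [Equiv.coe_mulLeft]
      rw [← mul_smul r (r⁻¹ * q), mul_inv_cancel_left, mul_inv_rev, inv_inv, mul_smul]
    change m • ∑ q : Q, q • π₀ (q⁻¹ • r • x) - r • (m • ∑ q : Q, q • π₀ (q⁻¹ • x)) ∈ _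
    rw [h4, smul_comm, sub_self]
    exact AddSubgroup.zero_mem _
  · intro x hx
    have hxM := hM' hx
    have h4 : m • ∑ q : Q, q • π₀ (q⁻¹ • x) - x
        = m • ∑ q : Q, q • (π₀ (q⁻¹ • x) - q⁻¹ • x) + ((m * Nat.card Q) • x - x) := by
      have h5 : ∑ q : Q, q • (π₀ (q⁻¹ • x) - q⁻¹ • x)
          = ∑ q : Q, q • π₀ (q⁻¹ • x) - Nat.card Q • x := by
        rw [Nat.card_eq_fintype_card, ← Finset.card_univ, ← Finset.sum_const,
          ← Finset.sum_sub_distrib]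
        apply Finset.sum_congr rfl
        intro q _
        rw [smul_sub, smul_inv_smul]
      rw [h5, smul_sub, mul_smul]
      abel
    rw [h4]
    apply AddSubgroup.add_mem _ _ (hmul x hxM)
    apply AddSubgroup.nsmul_mem
    apply AddSubgroup.sum_mem
    intro q _
    exact smul_mem_mulSub hMQ q (h3 _ (hMQ' _ x hx))

/-- One step. -/
lemma redTo_step [Finite Q] (htf : ∀ (n : ℤ) (x : W), n • x = 0 → n = 0 ∨ x = 0)
    (p : ℕ) [hp : Fact p.Prime] (hQ : ¬ p ∣ Nat.card Q) (L L' : AddSubgroup W) (hL'L : L' ≤ L)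
    (hL : ∀ (q : Q), ∀ x ∈ L, q • x ∈ L) (hL' : ∀ (q : Q), ∀ x ∈ L', q • x ∈ L')
    (hpL : mulSub p L ≤ L') : RedTo Q p L L' := by
  obtain ⟨π, a1, a2, a3, a4⟩ := exists_equivariant_retraction p hQ L L' hL'L hL hL' hpL
  obtain ⟨ρ, b1, b2, b3, b4⟩ := exists_equivariant_retraction p hQ L' (mulSub p L) hpL hL'
    (fun q x hx => smul_mem_mulSub hL q hx) (mulSub_mono p hL'L)
  let σ : W → W := fun y => y - ρ y
  have s1 : ∀ y ∈ L', σ y ∈ L' := fun y hy => L'.sub_mem hy (hpL (b1 y hy))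
  have s2 : ∀ x ∈ L', ∀ y ∈ L', σ (x + y) - σ x - σ y ∈ mulSub p L' := by
    intro x hx y hy
    have h1 : σ (x + y) - σ x - σ y = -(ρ (x + y) - ρ x - ρ y) := by
      simp only [σ]; abel
    rw [h1]
    exact AddSubgroup.neg_mem _ (b2 x hx y hy)
  have s3 : ∀ q : Q, ∀ x ∈ L', σ (q • x) - q • σ x ∈ mulSub p L' := by
    intro q x hx
    have h1 : σ (q • x) - q • σ x = -(ρ (q • x) - q • ρ x) := by
      simp only [σ, smul_sub]; abel
    rw [h1]
    exact AddSubgroup.neg_mem _ (b3 q x hx)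
  have s4 : ∀ y ∈ mulSub p L, σ y ∈ mulSub p L' := by
    intro y hy
    have h1 : σ y = -(ρ y - y) := by
      simp only [σ]; abel
    rw [h1]
    exact AddSubgroup.neg_mem _ (b4 y hy)
  have s5 : ∀ x ∈ L', ∀ y, y - x ∈ mulSub p L → σ y - σ x ∈ mulSub p L' := by
    intro x hx y hxy
    have h1 := s2 x hx (y - x) (hpL hxy)
    have h2 := s4 _ hxy
    have h3 : σ y - σ x = (σ (x + (y - x)) - σ x - σ (y - x)) + σ (y - x) := by
      rw [add_sub_cancel]; abel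
    rw [h3]
    exact AddSubgroup.add_mem _ h1 h2
  refine ⟨fun x => σ (π x) + p • x, ?_, ?_, ?_, ?_⟩
  · intro x hx
    exact L'.add_mem (s1 _ (a1 x hx)) (hpL ⟨x, hx, rfl⟩)
  · intro x hx y hy
    have h1 : σ (π (x + y)) - σ (π x + π y) ∈ mulSub p L' := by
      apply s5 _ (L'.add_mem (a1 x hx) (a1 y hy))
      have h2 : π (x + y) - (π x + π y) = π (x + y) - π x - π y := by abel
      rw [h2]
      exact a2 x hx y hy
    have h2 := s2 (π x) (a1 x hx) (π y) (a1 y hy)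
    have h3 : σ (π (x + y)) + p • (x + y) - (σ (π x) + p • x) - (σ (π y) + p • y)
        = (σ (π (x + y)) - σ (π x + π y)) + (σ (π x + π y) - σ (π x) - σ (π y)) := by
      rw [smul_add]; abel
    rw [h3]
    exact AddSubgroup.add_mem _ h1 h2
  · intro q x hx
    have h1 : σ (π (q • x)) - σ (q • π x) ∈ mulSub p L' := by
      apply s5 _ (hL' q _ (a1 x hx))
      exact a3 q x hx
    have h2 := s3 q (π x) (a1 x hx)
    have h3 : σ (π (q • x)) + p • (q • x) - q • (σ (π x) + p • x)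
        = (σ (π (q • x)) - σ (q • π x)) + (σ (q • π x) - q • σ (π x)) := by
      rw [smul_add, smul_comm q p x]; abel
    rw [h3]
    exact AddSubgroup.add_mem _ h1 h2
  · intro x hx h1
    have h2 : π x ∈ mulSub p L := by
      have h3 : π x = (σ (π x) + p • x) + ρ (π x) - p • x := by
        simp only [σ]; abel
      rw [h3]
      apply AddSubgroup.sub_mem _ _ (mem_mulSub.mpr ⟨x, hx, rfl⟩)
      exact AddSubgroup.add_mem _ (mulSub_mono p hL'L h1) (b1 _ (a1 x hx))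
    have h3 := s4 _ h2
    have h4 : p • x ∈ mulSub p L' := by
      have h5 : p • x = (σ (π x) + p • x) - σ (π x) := by abel
      rw [h5]
      exact AddSubgroup.sub_mem _ h1 h3
    obtain ⟨w, hw, hxw⟩ := h4
    have h5 : x = w := by
      have h6 : (p : ℤ) • (x - w) = 0 := by
        rw [smul_sub, natCast_zsmul, natCast_zsmul, hxw, sub_self]
      rcases htf _ _ h6 with h7 | h7
      · exact absurd (by exact_mod_cast h7) hp.out.ne_zero
      · exact sub_eq_zero.mp h7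
    have hxL' : x ∈ L' := h5 ▸ hw
    have h6 := a4 x hxL'
    have h7 : x = π x - (π x - x) := by abel
    rw [h7]
    exact AddSubgroup.sub_mem _ h2 h6

/-- Lattices with index prime to `p`. -/
lemma redTo_coprime (p : ℕ) [hp : Fact p.Prime] (L L' : AddSubgroup W) (hL'L : L' ≤ L)
    (m : ℕ) (hm : ¬ p ∣ m) (h : ∀ x ∈ L, m • x ∈ L') : RedTo Q p L L' := by
  have hcop : Nat.Coprime m p := by
    rw [Nat.coprime_comm]
    exact (Nat.Prime.coprime_iff_not_dvd hp.out).mpr hm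
  obtain ⟨u, hu⟩ : ∃ u : ℕ, u * m ≡ 1 [MOD p] := by
    obtain ⟨u, hu⟩ := Nat.exists_mul_mod_eq_one_of_coprime hcop hp.out.one_lt
    refine ⟨u, ?_⟩
    rw [mul_comm]
    unfold Nat.ModEq
    rw [hu.2, Nat.mod_eq_of_lt hp.out.one_lt]
  refine ⟨fun x => (u * m) • x, ?_, ?_, ?_, ?_⟩
  · intro x hx
    change (u * m) • x ∈ L'
    rw [mul_smul]
    exact L'.nsmul_mem (h x hx) u
  · intro x _ y _
    change (u * m) • (x + y) - (u * m) • x - (u * m) • y ∈ _
    rw [smul_add, add_sub_cancel_left, sub_self]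
    exact AddSubgroup.zero_mem _
  · intro q x _
    change (u * m) • q • x - q • (u * m) • x ∈ _
    rw [smul_comm, sub_self]
    exact AddSubgroup.zero_mem _
  · intro x hx hx'
    have h4 : (p : ℤ) ∣ (u * m : ℕ) - (1 : ℕ) := Nat.modEq_iff_dvd.mp hu.symm
    obtain ⟨k, hk⟩ := h4
    have h5 : (u * m) • x - x ∈ mulSub p L := by
      refine ⟨k • x, L.zsmul_mem hx k, ?_⟩
      have h5 : ((u * m : ℕ) : ℤ) • x - (1 : ℤ) • x = (p : ℤ) • (k • x) := by
        rw [← sub_smul, smul_smul]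
        congr 1
      rw [natCast_zsmul, one_smul, natCast_zsmul] at h5
      exact h5
    have h6 : x = (u * m) • x - ((u * m) • x - x) := by abel
    rw [h6]
    exact AddSubgroup.sub_mem _ (mulSub_mono p hL'L hx') h5

/-- The chain of lattices. -/
lemma redTo_of_le [Finite Q] (htf : ∀ (n : ℤ) (x : W), n • x = 0 → n = 0 ∨ x = 0)
    (p : ℕ) [hp : Fact p.Prime] (hQ : ¬ p ∣ Nat.card Q) (L' : AddSubgroup W)
    (hL' : ∀ (q : Q), ∀ x ∈ L', q • x ∈ L') (m : ℕ) (hm : ¬ p ∣ m) (a : ℕ) :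
    ∀ L : AddSubgroup W, L' ≤ L → (∀ (q : Q), ∀ x ∈ L, q • x ∈ L) →
      (∀ x ∈ L, (p ^ a * m) • x ∈ L') → RedTo Q p L L' := by
  induction a with
  | zero =>
    intro L hL'L _ h
    exact redTo_coprime p L L' hL'L m hm (by simpa using h)
  | succ a ih =>
    intro L hL'L hL h
    let L₂ : AddSubgroup W := L' ⊔ mulSub p L
    have h1 : L₂ ≤ L := sup_le hL'L (mulSub_le p L)
    have h2 : ∀ (q : Q), ∀ x ∈ L₂, q • x ∈ L₂ := by
      intro q x hx
      obtain ⟨y, hy, w, hw, rfl⟩ := AddSubgroup.mem_sup.mp hx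
      rw [smul_add]
      exact AddSubgroup.add_mem_sup (hL' q y hy) (smul_mem_mulSub hL q hw)
    have h3 : RedTo Q p L L₂ := redTo_step htf p hQ L L₂ h1 hL h2 le_sup_right
    have h4 : RedTo Q p L₂ L' := by
      apply ih L₂ le_sup_left h2
      intro x hx
      obtain ⟨y, hy, w, hw, rfl⟩ := AddSubgroup.mem_sup.mp hx
      obtain ⟨u, hu, rfl⟩ := hw
      rw [smul_add]
      apply L'.add_mem (L'.nsmul_mem hy _)
      rw [smul_smul]
      have h5 : p ^ a * m * p = p ^ (a + 1) * m := by ring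
      rw [h5]
      exact h u hu
    exact RedTo.trans h2 h3 h4

theorem bnCore : StBNcore := by
  intro Q _ _ W _ _ htf L L' hL hL' n hn h1 h2 p hp hQ
  have hp' : p.Prime := hp.out
  -- the lattice `n L'`
  let L₁ : AddSubgroup W := mulSub n L'
  have hL₁ : ∀ (q : Q), ∀ x ∈ L₁, q • x ∈ L₁ := fun q x hx => smul_mem_mulSub hL' q hx
  have hL₁L : L₁ ≤ L := by
    rintro x ⟨w, hw, rfl⟩
    exact h2 w hw
  obtain ⟨a, m, hm, hnm⟩ := Nat.exists_eq_pow_mul_and_not_dvd (n := n * n)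
    (mul_ne_zero hn hn) p hp'.ne_one
  have h3 : RedTo Q p L L₁ := by
    apply redTo_of_le htf p hQ L₁ hL₁ m hm a L hL₁L hL
    intro x hx
    rw [← hnm, mul_smul]
    exact ⟨n • x, h1 x hx, rfl⟩
  have h4 : RedTo Q p L₁ L' := by
    classical
    have hinj : ∀ x y : W, n • x = n • y → x = y := by
      intro x y hxy
      have h6 : (n : ℤ) • (x - y) = 0 := by
        rw [smul_sub, natCast_zsmul, natCast_zsmul, hxy, sub_self]
      rcases htf _ _ h6 with h7 | h7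
      · exact absurd (by exact_mod_cast h7) hn
      · exact sub_eq_zero.mp h7
    choose! div hdiv1 hdiv2 using fun (x : W) (hx : x ∈ L₁) => (mem_mulSub.mp hx)
    refine ⟨div, fun x hx => hdiv1 x hx, ?_, ?_, ?_⟩
    · intro x hx y hy
      have h5 : div (x + y) - div x - div y = 0 := by
        have h6 : div (x + y) = div x + div y := by
          apply hinj
          rw [smul_add, ← hdiv2 x hx, ← hdiv2 y hy, ← hdiv2 _ (L₁.add_mem hx hy)]
        rw [h6]; abel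
      rw [h5]
      exact AddSubgroup.zero_mem _
    · intro q x hx
      have h5 : div (q • x) = q • div x := by
        apply hinj
        rw [smul_comm n q, ← hdiv2 x hx, ← hdiv2 _ (hL₁ q x hx)]
      rw [h5, sub_self]
      exact AddSubgroup.zero_mem _
    · intro x hx ⟨w, hw, hxw⟩
      refine ⟨n • w, ⟨w, hw, rfl⟩, ?_⟩
      rw [hdiv2 x hx, hxw, smul_comm]
  obtain ⟨φ, c1, c2, c3, c4⟩ := RedTo.trans hL₁ h3 h4
  exact ⟨φ, c1, fun x hx y hy => c2 x hx y hy, fun q x hx => c3 q x hx, fun x hx h => c4 x hx h⟩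

end core

end Pool.Agent.Lib.MP_640417_ag.Far
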