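import Pool.Agent.Lib.MP_640417_ag.Far.Spec
import Pool.Agent.Lib.MP_640417_ag.FpCount
import Pool.Agent.Lib.MP_640417_ag.FpMain

/-!
# The number of sign functions orthogonal to a space isomorphic to a given one
-/

namespace Pool.Agent.Lib.MP_640417_ag.Far

open Module Finset MulAction

/-- A union bound with real values. -/
lemma ncard_le_of_subset_biUnion {α β : Type*} (T : Set α) (hT : T.Finite) (B : α → Set β)
    (hB : ∀ a ∈ T, (B a).Finite) (K : ℝ) (hK : ∀ a ∈ T, ((B a).ncard : ℝ) ≤ K) (A : Set β)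
    (hA : A ⊆ ⋃ a ∈ T, B a) : (A.ncard : ℝ) ≤ T.ncard * K := by
  classical
  have h1 : A.ncard ≤ (⋃ a ∈ hT.toFinset, B a).ncard := by
    apply Set.ncard_le_ncard
    · intro x hx
      obtain ⟨a, ha, hxa⟩ := Set.mem_iUnion₂.mp (hA hx)
      exact Set.mem_iUnion₂.mpr ⟨a, hT.mem_toFinset.mpr ha, hxa⟩
    · apply Set.Finite.biUnion (Finset.finite_toSet _)
      intro a ha
      exact hB a (hT.mem_toFinset.mp ha)
  have h2 : (⋃ a ∈ hT.toFinset, B a).ncard ≤ ∑ a ∈ hT.toFinset, (B a).ncard :=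
    Finset.set_ncard_biUnion_le _ _
  calc (A.ncard : ℝ) ≤ ((∑ a ∈ hT.toFinset, (B a).ncard : ℕ) : ℝ) := by exact_mod_cast h1.trans h2
    _ = ∑ a ∈ hT.toFinset, ((B a).ncard : ℝ) := by push_cast; rfl
    _ ≤ ∑ _a ∈ hT.toFinset, K := Finset.sum_le_sum (fun a ha => hK a (hT.mem_toFinset.mp ha))
    _ = T.ncard * K := by
        rw [Finset.sum_const, nsmul_eq_mul, Set.ncard_eq_toFinset_card T hT]

/-- Sign functions orthogonal to a space of odd functions. -/
lemma ncard_perp_le {S G : Type} [Fintype S] [Group G] [MulAction G S] (z : G)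
    (hzz : ∀ s : S, z • z • s = s) (X : Finset S) (hX : ∀ s, s ∈ X ↔ z • s ∉ X) (p : ℕ)
    [Fact p.Prime] (hp : p ≠ 2) (M : Submodule (ZMod p) (S → ZMod p)) (hM : IsOddSp z M) :
    ({e : S → ℤ | IsSgn z e ∧ Perp e M}.ncard : ℝ)
      ≤ 2 ^ X.card * (1 / 2) ^ finrank (ZMod p) M := by
  classical
  let W : Submodule (ZMod p) (S → ZMod p) :=
    { carrier := {w | (∀ s, w (z • s) = - w s) ∧ ∀ v ∈ M, ∑ s, v s * w s = 0}
      add_mem' := by
        rintro a b ⟨ha, ha'⟩ ⟨hb, hb'⟩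
        refine ⟨fun s => ?_, fun γ hγ => ?_⟩
        · simp only [Pi.add_apply, ha, hb]; ring
        · simp only [Pi.add_apply, mul_add, Finset.sum_add_distrib, ha' γ hγ, hb' γ hγ, add_zero]
      zero_mem' := by simp
      smul_mem' := by
        rintro r a ⟨ha, ha'⟩
        refine ⟨fun s => ?_, fun γ hγ => ?_⟩
        · simp only [Pi.smul_apply, smul_eq_mul, ha]; ring
        · have : ∑ s, γ s * (r • a) s = r * ∑ s, γ s * a s := by
            rw [Finset.mul_sum]
            apply Finset.sum_congr rfl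
            intro s _
            simp only [Pi.smul_apply, smul_eq_mul]; ring
          rw [this, ha' γ hγ, mul_zero] }
  have h1 := finrank_orthogonal_le (two_ne_zero' (p := p) hp) (fun s : S => z • s)
    hzz X hX M W hM (fun w hw => hw.1) (fun v hv w hw => hw.2 v hv)
  have h2 := ncard_sign_le_field (one_ne_neg_one (p := p) hp) W
  have h3 : {e : S → ℤ | IsSgn z e ∧ Perp e M}.ncard
      ≤ {e : S → ZMod p | e ∈ W ∧ ∀ s, e s = 1 ∨ e s = -1}.ncard := by
    apply Set.ncard_le_ncard_of_injOn (fun e s => (e s : ZMod p))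
    · rintro e ⟨⟨he1, he2⟩, he3⟩
      refine ⟨⟨fun s => ?_, ?_⟩, fun s => ?_⟩
      · simp only [he2 s]
        push_cast
        ring
      · intro v hv
        exact he3 v hv
      · rcases he1 s with h | h
        · left; simp only [h]; norm_num
        · right; simp only [h]; norm_num
    · rintro e ⟨⟨he1, -⟩, -⟩ e' ⟨⟨he1', -⟩, -⟩ h
      funext s
      have h4 := congrFun h s
      simp only at h4
      rcases he1 s with h5 | h5 <;> rcases he1' s with h6 | h6 <;> rw [h5, h6] at h4 ⊢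
      · exfalso
        apply one_ne_neg_one (p := p) hp
        push_cast at h4
        exact h4
      · exfalso
        apply one_ne_neg_one (p := p) hp
        push_cast at h4
        exact h4.symm
  have h4 : ({e : S → ℤ | IsSgn z e ∧ Perp e M}.ncard : ℝ) ≤ 2 ^ finrank (ZMod p) W := by
    exact_mod_cast h3.trans h2
  refine h4.trans ?_
  have h5 : (2 : ℝ) ^ finrank (ZMod p) W
      ≤ 2 ^ (X.card - finrank (ZMod p) M) :=
    pow_le_pow_right₀ (by norm_num) (by omega)
  refine h5.trans (le_of_eq ?_)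
  have h6 : X.card = (X.card - finrank (ZMod p) M) + finrank (ZMod p) M := by omega
  conv_rhs => rw [h6]
  rw [pow_add, mul_assoc, ← mul_pow]
  norm_num

theorem bad_of (h1 : StRed) (h2 : StBN) (h3 : StCount) : StBad := by
  intro S G _ _ _ _ _ s₀ z hzz X hX U hU0 hU hodd p _ hp2 hpN
  classical
  have hpp : p.Prime := Fact.out
  set T : Set (Submodule (ZMod p) (S → ZMod p)) := {M | IsStab G M ∧ IsoF G (red p U) M} with hT
  have hTfin : T.Finite := Set.toFinite _
  have hfin : ∀ M : Submodule (ZMod p) (S → ZMod p), {e : S → ℤ | IsSgn z e ∧ Perp e M}.Finite :=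
    fun M => finite_isSgn z _
  have hsub : badSet z U ⊆ ⋃ M ∈ T, {e : S → ℤ | IsSgn z e ∧ Perp e M} := by
    rintro e ⟨he, U', hU', hiso, hperp⟩
    exact Set.mem_iUnion₂.mpr ⟨red p U', ⟨red_stab p U' hU', h2 S G p U U' hU hU' hiso hpN⟩,
      he, red_perp p e U' hperp⟩
  have hcount := h3 S G s₀ p U hU0 hU hpN
  have hcount' : ((p : ℝ) - 1) * T.ncard
      ≤ (p : ℝ) ^ finrank ℚ ↥(U ⊓ invF ℚ (stabilizer G s₀)) - 1 := by
    have h4 : (((p - 1) * T.ncard + 1 : ℕ) : ℝ)
        ≤ ((p ^ finrank ℚ ↥(U ⊓ invF ℚ (stabilizer G s₀)) : ℕ) : ℝ) := by exact_mod_cast hcount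
    push_cast [Nat.cast_sub hpp.one_lt.le] at h4
    linarith
  have hp1 : (0 : ℝ) ≤ (p : ℝ) - 1 := by
    have : (1 : ℝ) ≤ p := by exact_mod_cast hpp.one_lt.le
    linarith
  have key : ∀ K : ℝ, 0 ≤ K → (∀ M ∈ T, ({e : S → ℤ | IsSgn z e ∧ Perp e M}.ncard : ℝ) ≤ K) →
      ((p : ℝ) - 1) * (badSet z U).ncard
        ≤ ((p : ℝ) ^ finrank ℚ ↥(U ⊓ invF ℚ (stabilizer G s₀)) - 1) * K := by
    intro K hK0 hK
    have h4 := ncard_le_of_subset_biUnion T hTfin _ (fun M _ => hfin M) K hK _ hsub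
    calc ((p : ℝ) - 1) * (badSet z U).ncard ≤ ((p : ℝ) - 1) * (T.ncard * K) :=
          mul_le_mul_of_nonneg_left h4 hp1
      _ = (((p : ℝ) - 1) * T.ncard) * K := by ring
      _ ≤ _ := mul_le_mul_of_nonneg_right hcount' hK0
  have hrank : ∀ M ∈ T, finrank (ZMod p) M = finrank ℚ U := by
    rintro M ⟨-, hM⟩
    rw [← hM.finrank_eq]
    exact h1 S p U
  have hoddM : ∀ M ∈ T, IsOddSp z M := by
    rintro M ⟨-, hM⟩
    exact hM.odd z (red_odd p z U hodd)
  refine ⟨fun a ha haD => key _ ?_ ?_, key _ (by positivity) ?_⟩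
  · exact mul_nonneg (by positivity) (pow_nonneg (cosAvg_nonneg a) _)
  · intro M hM
    have h5 := ncard_orth_le (p := p) hp2 z hzz X hX M (hoddM M hM) hM.1 a ha
      (by rw [hrank M hM]; exact haD)
    rw [hrank M hM] at h5
    exact h5
  · intro M hM
    have h5 := ncard_perp_le z hzz X hX p hp2 M (hoddM M hM)
    rw [hrank M hM] at h5
    exact h5

end Pool.Agent.Lib.MP_640417_ag.Far
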