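import Pool.Agent.Lib.MP_640417_ag.Far.Spec

/-!
# The number of copies of a reduction
-/

namespace Pool.Agent.Lib.MP_640417_ag.Far

open Module Finset MulAction

section avg

variable {S G : Type} [Group G] [Finite G] [MulAction G S]

/-- Averaging over a group modulo a normal subgroup acting trivially. -/
lemma avg_inv {A : Type} [AddCommMonoid A] (K B : Subgroup G) [K.Normal]
    [Fintype (B ⧸ K.subgroupOf B)] (x : S → A)
    (hx : ∀ k ∈ K, ∀ (γ : G) (s : S), x (γ • k • s) = x (γ • s)) (b : G) (hb : b ∈ B) (s : S) :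
    ∑ q : B ⧸ K.subgroupOf B, x ((q.out : G) • b • s)
      = ∑ q : B ⧸ K.subgroupOf B, x ((q.out : G) • s) := by
  refine Fintype.sum_equiv (Equiv.mulRight ((⟨b, hb⟩ : B) : B ⧸ K.subgroupOf B)) _ _ (fun q => ?_)
  rw [Equiv.coe_mulRight]
  set q' : B ⧸ K.subgroupOf B := q * ((⟨b, hb⟩ : B) : B ⧸ K.subgroupOf B) with hq'
  have h1 : ((q.out * ⟨b, hb⟩ : B) : B ⧸ K.subgroupOf B) = ((q'.out : B) : B ⧸ K.subgroupOf B) := by
    rw [QuotientGroup.out_eq', hq', QuotientGroup.mk_mul, QuotientGroup.out_eq']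
  rw [QuotientGroup.eq, Subgroup.mem_subgroupOf] at h1
  have h2 := hx _ h1 ((q.out : G) * b) s
  rw [← mul_smul, mul_smul (q.out : G) b s] at h2
  rw [← h2]
  have h3 : (q.out : G) * b * ((((q.out * ⟨b, hb⟩ : B))⁻¹ * q'.out : B) : G) = (q'.out : G) := by
    push_cast
    group
  rw [h3]

end avg

section main

variable {S G : Type} [Fintype S] [Group G] [Finite G] [MulAction G S]
  (p : ℕ) [hp : Fact p.Prime] (U : Submodule ℚ (S → ℚ))

lemma ker_lift (hU : IsStab G U) {v : S → ℤ} (hv : (fun s => (v s : ℚ)) ∈ U) (k : G)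
    (hk : k ∈ kerSub G U) (γ : G) (s : S) : v (γ • k • s) = v (γ • s) := by
  have := hk _ (hU _ hv γ) s
  exact_mod_cast this

lemma ker_red (hU : IsStab G U) {x : S → ZMod p} (hx : x ∈ red p U) (k : G)
    (hk : k ∈ kerSub G U) (γ : G) (s : S) : x (γ • k • s) = x (γ • s) := by
  obtain ⟨v, hv, hxv⟩ := hx
  rw [hxv, hxv, ker_lift U hU hv k hk γ s]

lemma card_quot_ne (B : Subgroup G) (hU : IsStab G U) (hpK : ¬ p ∣ (kerSub G U).index) :
    ((Nat.card (B ⧸ (kerSub G U).subgroupOf B) : ℕ) : ZMod p) ≠ 0 := by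
  haveI := kerSub_normal U hU
  intro h0
  rw [ZMod.natCast_eq_zero_iff] at h0
  exact hpK (h0.trans (Subgroup.relIndex_dvd_index_of_normal _ _))

/-- The invariants of the reduction are the reductions of the invariants. -/
lemma inv_red_le (B : Subgroup G) (hU : IsStab G U) (hpK : ¬ p ∣ (kerSub G U).index) :
    red p U ⊓ invF (ZMod p) B ≤ red p (U ⊓ invF ℚ B) := by
  classical
  haveI := kerSub_normal U hU
  haveI : Fintype (B ⧸ (kerSub G U).subgroupOf B) := Fintype.ofFinite _
  rintro x ⟨⟨v, hv, hxv⟩, hxB⟩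
  have hc := card_quot_ne p U B hU hpK
  set c : ZMod p := ((Nat.card (B ⧸ (kerSub G U).subgroupOf B) : ℕ) : ZMod p) with hcdef
  have hy : c • x ∈ red p (U ⊓ invF ℚ B) := by
    refine ⟨fun s => ∑ q : B ⧸ (kerSub G U).subgroupOf B, v ((q.out : G) • s), ⟨?_, ?_⟩, ?_⟩
    · have : (fun s => (((∑ q : B ⧸ (kerSub G U).subgroupOf B, v ((q.out : G) • s) : ℤ)) : ℚ))
          = ∑ q : B ⧸ (kerSub G U).subgroupOf B, (fun s => ((v ((q.out : G) • s) : ℤ) : ℚ)) := by
        funext s
        rw [Finset.sum_apply]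
        push_cast
        rfl
      rw [this]
      exact Submodule.sum_mem _ (fun q _ => hU _ hv _)
    · intro b hb s
      show (((∑ q : B ⧸ (kerSub G U).subgroupOf B, v ((q.out : G) • b • s) : ℤ)) : ℚ)
        = (((∑ q : B ⧸ (kerSub G U).subgroupOf B, v ((q.out : G) • s) : ℤ)) : ℚ)
      rw [avg_inv (kerSub G U) B v (fun k hk γ s => ker_lift U hU hv k hk γ s) b hb s]
    · intro s
      have h1 : ∀ q : B ⧸ (kerSub G U).subgroupOf B,
          ((v ((q.out : G) • s) : ℤ) : ZMod p) = x s := by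
        intro q
        rw [← hxv, hxB _ q.out.2]
      show c * x s = _
      push_cast
      rw [Finset.sum_congr rfl (fun q _ => h1 q), Finset.sum_const, Finset.card_univ, hcdef,
        Nat.card_eq_fintype_card, nsmul_eq_mul]
  have := (red p (U ⊓ invF ℚ B)).smul_mem c⁻¹ hy
  rwa [smul_smul, inv_mul_cancel₀ hc, one_smul] at this

/-- The invariant linear forms. -/
def invDual (B : Subgroup G) (M : Submodule (ZMod p) (S → ZMod p)) :
    Submodule (ZMod p) (Dual (ZMod p) M) where
  carrier := {l | ∀ b ∈ B, ∀ f f' : M, (∀ s, f'.1 s = f.1 (b • s)) → l f' = l f}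
  add_mem' := by
    intro l l' hl hl' b hb f f' hff
    rw [LinearMap.add_apply, LinearMap.add_apply, hl b hb f f' hff, hl' b hb f f' hff]
  zero_mem' := by
    intro b _ f f' _
    simp
  smul_mem' := by
    intro c l hl b hb f f' hff
    rw [LinearMap.smul_apply, LinearMap.smul_apply, hl b hb f f' hff]

lemma card_invDual (h1 : StRed) (B : Subgroup G) (hU : IsStab G U)
    (hpK : ¬ p ∣ (kerSub G U).index) :
    Nat.card (invDual p B (red p U)) ≤ p ^ finrank ℚ ↥(U ⊓ invF ℚ B) := by
  classical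
  haveI := kerSub_normal U hU
  haveI : Fintype (B ⧸ (kerSub G U).subgroupOf B) := Fintype.ofFinite _
  set N : Submodule (ZMod p) (S → ZMod p) := red p U ⊓ invF (ZMod p) B with hN
  have hNle : N ≤ red p U := inf_le_left
  let Φ : invDual p B (red p U) → Dual (ZMod p) N :=
    fun l => l.1.comp (Submodule.inclusion hNle)
  have hΦ : Function.Injective Φ := by
    intro l l' hll
    have key : ∀ x : red p U, (l.1 - l'.1) x = 0 := by
      intro x
      set m : invDual p B (red p U) := l - l' with hm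
      have hc := card_quot_ne p U B hU hpK
      have hmem : ∀ q : B ⧸ (kerSub G U).subgroupOf B,
          (fun s => x.1 ((q.out : G) • s)) ∈ red p U := fun q => red_stab p U hU _ x.2 _
      let xq : (B ⧸ (kerSub G U).subgroupOf B) → red p U := fun q => ⟨_, hmem q⟩
      have hsum : (∑ q, xq q).1 ∈ N := by
        refine ⟨(∑ q, xq q).2, ?_⟩
        intro b hb s
        have h3 : ∀ t, (∑ q, xq q).1 t
            = ∑ q : B ⧸ (kerSub G U).subgroupOf B, x.1 ((q.out : G) • t) := by
          intro t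
          rw [Submodule.coe_sum, Finset.sum_apply]
        rw [h3, h3]
        exact avg_inv (kerSub G U) B x.1 (fun k hk γ s => ker_red p U hU x.2 k hk γ s) b hb s
      have h4 : m.1 (∑ q, xq q) = 0 := by
        have h5 : Φ l ⟨_, hsum⟩ = Φ l' ⟨_, hsum⟩ := by rw [hll]
        have h6 : l.1 (∑ q, xq q) = l'.1 (∑ q, xq q) := h5
        show (l.1 - l'.1) _ = 0
        rw [LinearMap.sub_apply, h6, sub_self]
      have h7 : ∀ q, m.1 (xq q) = m.1 x := fun q => m.2 _ q.out.2 x (xq q) (fun s => rfl)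
      rw [map_sum, Finset.sum_congr rfl (fun q _ => h7 q), Finset.sum_const, Finset.card_univ,
        ← Nat.card_eq_fintype_card, nsmul_eq_mul] at h4
      exact (mul_eq_zero.mp h4).resolve_left hc
    apply Subtype.ext
    apply LinearMap.ext
    intro x
    have := key x
    rw [LinearMap.sub_apply] at this
    exact sub_eq_zero.mp this
  have hcard : Nat.card (Dual (ZMod p) N) = p ^ finrank (ZMod p) N := by
    rw [Module.natCard_eq_pow_finrank (K := ZMod p) (V := Dual (ZMod p) N), Nat.card_zmod,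
      Subspace.dual_finrank_eq]
  haveI : Finite (Dual (ZMod p) N) := by
    apply Nat.finite_of_card_ne_zero
    rw [hcard]
    exact pow_ne_zero _ hp.out.ne_zero
  calc Nat.card (invDual p B (red p U)) ≤ Nat.card (Dual (ZMod p) N) :=
        Nat.card_le_card_of_injective Φ hΦ
    _ = p ^ finrank (ZMod p) N := hcard
    _ ≤ p ^ finrank ℚ ↥(U ⊓ invF ℚ B) := by
        apply Nat.pow_le_pow_right hp.out.pos
        rw [← h1 S p (U ⊓ invF ℚ B)]
        exact Submodule.finrank_mono (inv_red_le p U B hU hpK)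

end main

theorem count_of (h1 : StRed) : StCount := by
  classical
  intro S G _ _ _ _ _ s₀ p hp U hU0 hU hpK
  set B := stabilizer G s₀ with hB
  set T : Set (Submodule (ZMod p) (S → ZMod p)) :=
    {M | IsStab G M ∧ IsoF G (red p U) M} with hT
  have hθ : ∀ M : T, ∃ θ : red p U ≃ₗ[ZMod p] M.1, ∀ (f f' : red p U) (γ : G),
      (∀ s, f'.1 s = f.1 (γ • s)) → ∀ s, (θ f').1 s = (θ f).1 (γ • s) := fun M => M.2.2
  choose θ hθ using hθ
  -- the linear form of a copy
  let ev : ∀ M : T, Dual (ZMod p) (red p U) := fun M =>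
    (LinearMap.proj (R := ZMod p) (φ := fun _ : S => ZMod p) s₀).comp
      ((Submodule.subtype M.1).comp (θ M).toLinearMap)
  have hev : ∀ (M : T) (f : red p U), ev M f = (θ M f).1 s₀ := fun M f => rfl
  have hevinv : ∀ (c : (ZMod p)ˣ) (M : T), (c : ZMod p) • ev M ∈ invDual p B (red p U) := by
    intro c M
    refine Submodule.smul_mem _ _ ?_
    intro b hb f f' hff
    rw [hev, hev, hθ M f f' b hff s₀, show b • s₀ = s₀ from hb]
  -- translates
  let tr : red p U → G → red p U := fun f γ => ⟨fun s => f.1 (γ • s), red_stab p U hU _ f.2 γ⟩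
  have hevtr : ∀ (M : T) (f : red p U) (γ : G), ev M (tr f γ) = (θ M f).1 (γ • s₀) := by
    intro M f γ
    rw [hev, hθ M f (tr f γ) γ (fun s => rfl) s₀]
  -- a nonzero member of the reduction
  obtain ⟨f0, hf0⟩ : ∃ f0 : red p U, f0 ≠ 0 := by
    haveI : Nontrivial (red p U) := by
      apply Module.nontrivial_of_finrank_pos (R := ZMod p)
      rw [h1 S p U]
      haveI : Nontrivial U := Submodule.nontrivial_iff_ne_bot.mpr hU0
      exact Module.finrank_pos
    exact exists_ne 0
  have hθ0 : ∀ M : T, ∃ γ : G, (θ M f0).1 (γ • s₀) ≠ 0 := by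
    intro M
    by_contra hcon
    push Not at hcon
    apply hf0
    apply (θ M).injective
    rw [map_zero]
    apply Subtype.ext
    funext s
    obtain ⟨γ, rfl⟩ := MulAction.exists_smul_eq G s₀ s
    exact hcon γ
  let Ψ : Option ((ZMod p)ˣ × T) → invDual p B (red p U) := fun o =>
    match o with
    | none => 0
    | some cM => ⟨(cM.1 : ZMod p) • ev cM.2, hevinv cM.1 cM.2⟩
  have hne : ∀ cM : (ZMod p)ˣ × T, (cM.1 : ZMod p) • ev cM.2 ≠ 0 := by
    intro cM h0
    obtain ⟨γ, hγ⟩ := hθ0 cM.2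
    have h2 := LinearMap.congr_fun h0 (tr f0 γ)
    rw [LinearMap.smul_apply, hevtr, LinearMap.zero_apply, smul_eq_mul] at h2
    rcases mul_eq_zero.mp h2 with h3 | h3
    · exact cM.1.ne_zero h3
    · exact hγ h3
  have hΨ : Function.Injective Ψ := by
    intro o o' hoo
    match o, o', hoo with
    | none, none, _ => rfl
    | none, some cM, h =>
      exact absurd (congrArg Subtype.val h).symm (hne cM)
    | some cM, none, h =>
      exact absurd (congrArg Subtype.val h) (hne cM)
    | some (c, M), some (c', M'), h =>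
      have h2 : (c : ZMod p) • ev M = (c' : ZMod p) • ev M' := congrArg Subtype.val h
      have h3 : ∀ (f : red p U) (s : S), (c : ZMod p) * (θ M f).1 s = (c' : ZMod p) * (θ M' f).1 s := by
        intro f s
        obtain ⟨γ, rfl⟩ := MulAction.exists_smul_eq G s₀ s
        have h4 := LinearMap.congr_fun h2 (tr f γ)
        rw [LinearMap.smul_apply, LinearMap.smul_apply, hevtr, hevtr] at h4
        exact h4
      have hle : ∀ (a a' : (ZMod p)ˣ) (A A' : T), (∀ (f : red p U) (s : S),
          (a : ZMod p) * (θ A f).1 s = (a' : ZMod p) * (θ A' f).1 s) → A.1 ≤ A'.1 := by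
        intro a a' A A' hAA x hx
        have h5 : x = ((a : ZMod p)⁻¹ * (a' : ZMod p)) • (θ A' ((θ A).symm ⟨x, hx⟩)).1 := by
          funext s
          have h6 := hAA ((θ A).symm ⟨x, hx⟩) s
          rw [LinearEquiv.apply_symm_apply] at h6
          show x s = ((a : ZMod p)⁻¹ * (a' : ZMod p)) * (θ A' ((θ A).symm ⟨x, hx⟩)).1 s
          rw [mul_assoc, ← h6, inv_mul_cancel_left₀ a.ne_zero]
        rw [h5]
        exact A'.1.smul_mem _ (θ A' ((θ A).symm ⟨x, hx⟩)).2
      have hMM : M = M' := Subtype.ext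
        (le_antisymm (hle c c' M M' h3) (hle c' c M' M (fun f s => (h3 f s).symm)))
      subst hMM
      obtain ⟨γ, hγ⟩ := hθ0 M
      have h7 := h3 f0 (γ • s₀)
      have h8 : (c : ZMod p) = (c' : ZMod p) := mul_right_cancel₀ hγ h7
      rw [Units.ext h8]
  haveI : Finite T := Set.toFinite _
  haveI : Finite (invDual p B (red p U)) := by
    haveI : Finite (Dual (ZMod p) (red p U)) := Finite.of_injective
      (fun l : Dual (ZMod p) (red p U) => (l : red p U → ZMod p)) DFunLike.coe_injective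
    infer_instance
  have hfin := Nat.card_le_card_of_injective Ψ hΨ
  rw [Finite.card_option, Nat.card_prod, Nat.card_eq_fintype_card (α := (ZMod p)ˣ),
    ZMod.card_units p, Nat.card_coe_set_eq] at hfin
  exact hfin.trans (card_invDual p U h1 B hU hpK)

end Pool.Agent.Lib.MP_640417_ag.Far
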