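import Pool.Agent.Lib.MP_640417_ag.Far.Spec

/-!
# The group acting on an irreducible space is small

A chain of point stabilizers `K_r` and of spaces `Y_r` of functions invariant under `K_r` is built
greedily; the codimension of `Y_r` decreases geometrically by semistability.
-/

namespace Pool.Agent.Lib.MP_640417_ag.Far

open Module Finset NumberField MulAction

section aux

variable {S : Type} {G : Type} [Group G] [MulAction G S]

/-- Invariance under a smaller group is weaker. -/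
lemma invF_anti {F : Type} [Field F] {H K : Subgroup G} (h : H ≤ K) :
    invF (S := S) F K ≤ invF F H := fun _ hf b hb s => hf b (h hb) s

/-- Translation moves the invariants of a point stabilizer into those of another one. -/
lemma finrank_inv_le [Finite S] {U : Submodule ℚ (S → ℚ)} (hU : IsStab G U) (s : S) (γ : G) :
    finrank ℚ ↥(U ⊓ invF ℚ (stabilizer G s)) ≤ finrank ℚ ↥(U ⊓ invF ℚ (stabilizer G (γ • s))) := by
  let e : (S → ℚ) ≃ₗ[ℚ] (S → ℚ) := LinearEquiv.funCongrLeft ℚ ℚ (MulAction.toPerm (γ⁻¹ : G))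
  have he : ∀ f : S → ℚ, e f = fun t => f (γ⁻¹ • t) := fun f => rfl
  rw [← LinearEquiv.finrank_map_eq e (U ⊓ invF ℚ (stabilizer G s))]
  refine Submodule.finrank_mono ?_
  rintro _ ⟨f, ⟨hf1, hf2⟩, rfl⟩
  refine ⟨?_, ?_⟩
  · change e f ∈ U
    rw [he]
    exact hU f hf1 γ⁻¹
  · change e f ∈ invF ℚ (stabilizer G (γ • s))
    rw [he]
    intro b hb t
    have hb' : γ⁻¹ * b * γ ∈ stabilizer G s := by
      rw [mem_stabilizer_iff] at hb ⊢
      rw [mul_smul, mul_smul, hb, inv_smul_smul]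
    have h1 := hf2 _ hb' (γ⁻¹ • t)
    rw [← mul_smul] at h1
    simp only
    rw [← mul_smul, ← h1]
    congr 2
    group

end aux

/-- One step of the construction. -/
lemma index_step {S G : Type} [Fintype S] [Group G] [Finite G] [MulAction G S]
    [IsPretransitive G S] (h1 : StSemi) (s₀ : S) (U : Submodule ℚ (S → ℚ)) (hU : IsIrr G U)
    (Y : Submodule ℚ (S → ℚ)) (hY : Y ≤ U) :
    ∃ s : S, (finrank ℚ U : ℝ) * ((finrank ℚ U : ℝ) -
        finrank ℚ ↥(Y ⊔ (U ⊓ invF ℚ (stabilizer G s)))) ≤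
      ((finrank ℚ U : ℝ) - finrank ℚ ↥(U ⊓ invF ℚ (stabilizer G s₀))) *
        ((finrank ℚ U : ℝ) - finrank ℚ Y) := by
  have hsemi := h1 S G s₀ U hU Y hY
  set D := finrank ℚ U
  set h := finrank ℚ ↥(U ⊓ invF ℚ (stabilizer G s₀))
  set y := finrank ℚ Y
  obtain ⟨s, -, hs⟩ : ∃ s ∈ (Finset.univ : Finset S),
      D * finrank ℚ ↥(Y ⊓ invF ℚ (stabilizer G s)) ≤ h * y := by
    refine Finset.exists_le_of_sum_le ⟨s₀, Finset.mem_univ _⟩ ?_
    rw [← Finset.mul_sum, Finset.sum_const, Finset.card_univ, smul_eq_mul, ← mul_assoc]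
    exact hsemi
  refine ⟨s, ?_⟩
  obtain ⟨γ, hγ⟩ := exists_smul_eq G s₀ s
  have h2 : h ≤ finrank ℚ ↥(U ⊓ invF ℚ (stabilizer G s)) := by
    have := finrank_inv_le hU.2.1 s₀ γ
    rwa [hγ] at this
  have h3 := Submodule.finrank_sup_add_finrank_inf_eq Y (U ⊓ invF ℚ (stabilizer G s))
  have h4 : finrank ℚ ↥(Y ⊓ (U ⊓ invF ℚ (stabilizer G s))) ≤
      finrank ℚ ↥(Y ⊓ invF ℚ (stabilizer G s)) :=
    Submodule.finrank_mono (inf_le_inf_left _ inf_le_right)
  have h2' : (h : ℝ) ≤ finrank ℚ ↥(U ⊓ invF ℚ (stabilizer G s)) := by exact_mod_cast h2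
  have h3' : (finrank ℚ ↥(Y ⊔ (U ⊓ invF ℚ (stabilizer G s))) : ℝ) +
      finrank ℚ ↥(Y ⊓ (U ⊓ invF ℚ (stabilizer G s))) =
      y + finrank ℚ ↥(U ⊓ invF ℚ (stabilizer G s)) := by exact_mod_cast h3
  have h4' : (finrank ℚ ↥(Y ⊓ (U ⊓ invF ℚ (stabilizer G s))) : ℝ) ≤
      finrank ℚ ↥(Y ⊓ invF ℚ (stabilizer G s)) := by exact_mod_cast h4
  have hs' : (D : ℝ) * finrank ℚ ↥(Y ⊓ invF ℚ (stabilizer G s)) ≤ h * y := by exact_mod_cast hs
  have h5 : (D : ℝ) * finrank ℚ ↥(Y ⊓ (U ⊓ invF ℚ (stabilizer G s))) ≤ h * y :=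
    (mul_le_mul_of_nonneg_left h4' (Nat.cast_nonneg _)).trans hs'
  have h6 : (D : ℝ) * (y + h) ≤ D * (finrank ℚ ↥(Y ⊔ (U ⊓ invF ℚ (stabilizer G s))) : ℝ) +
      h * y := by
    calc (D : ℝ) * (y + h) ≤ D * (y + finrank ℚ ↥(U ⊓ invF ℚ (stabilizer G s))) :=
          mul_le_mul_of_nonneg_left (by linarith) (Nat.cast_nonneg _)
      _ = D * (finrank ℚ ↥(Y ⊔ (U ⊓ invF ℚ (stabilizer G s))) : ℝ) +
          D * finrank ℚ ↥(Y ⊓ (U ⊓ invF ℚ (stabilizer G s))) := by rw [← h3']; ring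
      _ ≤ _ := by linarith
  nlinarith

theorem index_of (h1 : StSemi) : StIndex := by
  intro S G _ _ _ _ _ s₀ U hU r hr
  have hDpos : 0 < finrank ℚ U := by
    rw [Module.finrank_pos_iff]
    exact (Submodule.nontrivial_iff_ne_bot).mpr hU.1
  have hD : (0 : ℝ) < finrank ℚ U := by exact_mod_cast hDpos
  have hhD : (finrank ℚ ↥(U ⊓ invF ℚ (stabilizer G s₀)) : ℝ) ≤ finrank ℚ U := by
    exact_mod_cast Submodule.finrank_mono (inf_le_left : U ⊓ invF ℚ (stabilizer G s₀) ≤ U)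
  have key : ∀ n : ℕ, ∃ (K : Subgroup G) (Y : Submodule ℚ (S → ℚ)), Y ≤ U ∧ Y ≤ invF ℚ K ∧
      K.index ≤ Fintype.card S ^ n ∧
      (finrank ℚ U : ℝ) - finrank ℚ Y ≤ (finrank ℚ U : ℝ) *
        (1 - (finrank ℚ ↥(U ⊓ invF ℚ (stabilizer G s₀)) : ℝ) / finrank ℚ U) ^ n := by
    intro n
    induction n with
    | zero =>
      refine ⟨⊤, ⊥, bot_le, bot_le, by simp, by simp⟩
    | succ n ih =>
      obtain ⟨K, Y, hYU, hYK, hK, hY⟩ := ih
      obtain ⟨s, hs⟩ := index_step h1 s₀ U hU Y hYU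
      refine ⟨K ⊓ stabilizer G s, Y ⊔ (U ⊓ invF ℚ (stabilizer G s)), sup_le hYU inf_le_left,
        sup_le (hYK.trans (invF_anti inf_le_left)) (inf_le_right.trans (invF_anti inf_le_right)),
        ?_, ?_⟩
      · rw [pow_succ]
        refine Subgroup.index_inf_le.trans (Nat.mul_le_mul hK ?_)
        rw [index_stabilizer_of_transitive, Nat.card_eq_fintype_card]
      · set D : ℝ := (finrank ℚ U : ℝ)
        set h : ℝ := (finrank ℚ ↥(U ⊓ invF ℚ (stabilizer G s₀)) : ℝ)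
        have h2 : 0 ≤ 1 - h / D := by
          rw [sub_nonneg, div_le_one hD]
          exact hhD
        have h3 : D - (finrank ℚ ↥(Y ⊔ (U ⊓ invF ℚ (stabilizer G s))) : ℝ) ≤
            (1 - h / D) * (D - finrank ℚ Y) := by
          have h4 : (1 - h / D) * (D - finrank ℚ Y) = ((D - h) * (D - finrank ℚ Y)) / D := by
            field_simp
          rw [h4, le_div_iff₀ hD]
          linarith
        calc D - (finrank ℚ ↥(Y ⊔ (U ⊓ invF ℚ (stabilizer G s))) : ℝ)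
            ≤ (1 - h / D) * (D - finrank ℚ Y) := h3
          _ ≤ (1 - h / D) * (D * (1 - h / D) ^ n) := mul_le_mul_of_nonneg_left hY h2
          _ = D * (1 - h / D) ^ (n + 1) := by ring
  obtain ⟨K, Y, hYU, hYK, hK, hY⟩ := key r
  have h2 : (finrank ℚ U : ℝ) - finrank ℚ Y < 1 := lt_of_le_of_lt hY hr
  have h3 : finrank ℚ U ≤ finrank ℚ Y := by
    have : (finrank ℚ U : ℝ) < finrank ℚ Y + 1 := by linarith
    have : finrank ℚ U < finrank ℚ Y + 1 := by exact_mod_cast this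
    omega
  have h4 : Y = U := Submodule.eq_of_le_of_finrank_le hYU h3
  have h5 : K ≤ kerSub G U := by
    intro γ hγ f hf s
    rw [← h4] at hf
    exact hYK hf γ hγ s
  exact (Subgroup.index_antitone h5).trans hK

end Pool.Agent.Lib.MP_640417_ag.Far
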