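import Pool.Agent.Lib.MP_640417_ag.Far.Spec

/-!
# Existence of an irreducible space orthogonal to the sign function
-/

namespace Pool.Agent.Lib.MP_640417_ag.Far

open Module Finset NumberField MulAction

theorem irrEx : StIrrEx := by
  intro S G _ _ _ _ z hz e v hv hodd horth
  let W : Submodule ℚ (S → ℚ) :=
    Submodule.span ℚ (Set.range fun γ : G => fun s => ((v (γ • s) : ℤ) : ℚ))
  have hWstab : IsStab G W := by
    intro f hf γ
    induction hf using Submodule.span_induction with
    | mem x hx =>
      obtain ⟨δ, rfl⟩ := hx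
      refine Submodule.subset_span ⟨δ * γ, ?_⟩
      funext s
      simp only [mul_smul]
    | zero => exact W.zero_mem
    | add x y _ _ hx hy => exact W.add_mem hx hy
    | smul c x _ hx => exact W.smul_mem c hx
  have hWodd : IsOddSp z W := by
    intro f hf
    induction hf using Submodule.span_induction with
    | mem x hx =>
      obtain ⟨δ, rfl⟩ := hx
      intro s
      simp only
      rw [← mul_smul, hz δ, mul_smul, hodd]
      push_cast
      rfl
    | zero => intro s; simp
    | add x y _ _ hx hy =>
      intro s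
      rw [Pi.add_apply, Pi.add_apply, hx s, hy s]; ring
    | smul c x _ hx =>
      intro s
      rw [Pi.smul_apply, Pi.smul_apply, hx s, smul_neg]
  have hWperp : Perp e W := by
    intro f hf
    induction hf using Submodule.span_induction with
    | mem x hx =>
      obtain ⟨δ, rfl⟩ := hx
      have h1 := horth δ⁻¹
      have h2 : ∑ s, v (δ • s) * e s = 0 := by
        rw [← h1]
        refine Fintype.sum_equiv (MulAction.toPerm δ) _ _ fun s => ?_
        simp
      have h3 : ((∑ s, v (δ • s) * e s : ℤ) : ℚ) = 0 := by rw [h2]; simp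
      push_cast at h3
      exact h3
    | zero => simp
    | add x y _ _ hx hy =>
      simp only [Pi.add_apply, add_mul, Finset.sum_add_distrib, hx, hy, add_zero]
    | smul c x _ hx =>
      simp only [Pi.smul_apply, smul_eq_mul, mul_assoc, ← Finset.mul_sum, hx, mul_zero]
  have hWne : W ≠ ⊥ := by
    intro h
    apply hv
    have h1 : (fun s => ((v ((1 : G) • s) : ℤ) : ℚ)) ∈ W := Submodule.subset_span ⟨1, rfl⟩
    rw [h, Submodule.mem_bot] at h1
    funext s
    have h2 := congrFun h1 s
    simp only [one_smul, Pi.zero_apply, Int.cast_eq_zero] at h2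
    exact h2
  obtain ⟨U, ⟨hU0, hUs, hUW⟩, hmin⟩ :=
    WellFounded.has_min (measure (fun U : Submodule ℚ (S → ℚ) => finrank ℚ U)).wf
      {U | U ≠ ⊥ ∧ IsStab G U ∧ U ≤ W} ⟨W, hWne, hWstab, le_rfl⟩
  refine ⟨U, ⟨hU0, hUs, fun U' hU' hs' => ?_⟩, fun f hf => hWodd f (hUW hf),
    fun f hf => hWperp f (hUW hf)⟩
  by_cases h0 : U' = ⊥
  · exact Or.inl h0
  · right
    have h1 := hmin U' ⟨h0, hs', hU'.trans hUW⟩
    have h2 : ¬ finrank ℚ U' < finrank ℚ U := h1
    exact Submodule.eq_of_le_of_finrank_le hU' (not_lt.mp h2)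

end Pool.Agent.Lib.MP_640417_ag.Far
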