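import Pool.Agent.Lib.MP_640417_ag.Far.Spec

/-!
# A prime which does not divide a given number
-/

namespace Pool.Agent.Lib.MP_640417_ag.Far

open Finset Real

/-- The numerical inequality: for large `P` the gap between `θ P` and `θ (P / 8)` exceeds
`P / 4`. -/
lemma theta_gap {P : ℝ} (hP : (100 : ℝ) ^ 4 ≤ P) :
    P / 4 < Chebyshev.theta P - Chebyshev.theta (P / 8) := by
  have hP1 : (1 : ℝ) ≤ P := le_trans (by norm_num) hP
  have hP0 : (0 : ℝ) ≤ P := by linarith
  have h1 := Chebyshev.theta_ge' hP1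
  have h2 := Chebyshev.theta_le_log4_mul_x (x := P / 8) (by linarith)
  have h4 : Real.log 4 = 2 * Real.log 2 := by
    rw [show (4 : ℝ) = 2 ^ 2 by norm_num, Real.log_pow]
    norm_num
  have hl2 : (0.6931471803 : ℝ) < Real.log 2 := Real.log_two_gt_d9
  have hl2' : Real.log 2 < (0.6931471808 : ℝ) := Real.log_two_lt_d9
  -- the fourth root
  obtain ⟨y, hy0, hy⟩ : ∃ y : ℝ, 0 ≤ y ∧ y ^ 4 = P := by
    refine ⟨√(√P), Real.sqrt_nonneg _, ?_⟩
    rw [show √(√P) ^ 4 = (√(√P) ^ 2) ^ 2 by ring, Real.sq_sqrt (Real.sqrt_nonneg _),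
      Real.sq_sqrt hP0]
  have hy100 : (100 : ℝ) ≤ y := by
    rw [← hy] at hP
    exact le_of_pow_le_pow_left₀ (by norm_num) hy0 hP
  have hsq : √P = y ^ 2 := by
    rw [← hy, show y ^ 4 = (y ^ 2) ^ 2 by ring, Real.sqrt_sq (by positivity)]
  have hlogP : Real.log P ≤ 4 * y := by
    rw [← hy, Real.log_pow]
    have : Real.log y ≤ y := (Real.log_le_sub_one_of_pos (by linarith)).trans (by linarith)
    push_cast
    linarith
  have hlogP0 : 0 ≤ Real.log P := Real.log_nonneg hP1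
  have hlogP2 : Real.log (P + 2) ≤ 4 * y + 1 := by
    have h3 : Real.log (P + 2) ≤ Real.log (P * 2) := Real.log_le_log (by linarith) (by
      have : (2 : ℝ) ≤ P := le_trans (by norm_num) hP
      linarith)
    rw [Real.log_mul (by linarith) (by norm_num)] at h3
    linarith
  have hprod : 2 * √P * Real.log P ≤ 8 * y ^ 3 := by
    rw [hsq]
    have := mul_le_mul_of_nonneg_left hlogP (show (0 : ℝ) ≤ 2 * y ^ 2 by positivity)
    nlinarith
  rw [h4] at h2
  have key : (P - 1) * Real.log 2 - (4 * y + 1) - 8 * y ^ 3 - 2 * Real.log 2 * (P / 8) > P / 4 := by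
    have e1 : P * Real.log 2 ≥ P * 0.6931471803 := mul_le_mul_of_nonneg_left hl2.le hP0
    have e2 : P * (3 / 4 * 0.6931471803 - 1 / 4) > Real.log 2 + (4 * y + 1) + 8 * y ^ 3 := by
      rw [← hy]
      have e3 : y ^ 4 ≥ 100 * y ^ 3 := by
        have : (0 : ℝ) ≤ y ^ 3 := by positivity
        nlinarith
      have e4 : y ^ 3 ≥ 10000 * y := by
        have : (0 : ℝ) ≤ y := hy0
        nlinarith [mul_self_nonneg (y - 100), mul_nonneg hy0 hy0]
      norm_num
      nlinarith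
    nlinarith
  linarith

theorem primeSel : StPrime := by
  refine ⟨(100 : ℝ) ^ 4, fun P hP N hN hlog => ?_⟩
  by_contra hcon
  push Not at hcon
  have hP0 : (0 : ℝ) ≤ P := le_trans (by norm_num) hP
  have hP16 : (16 : ℝ) ≤ P := le_trans (by norm_num) hP
  have hdiv : ∀ p : ℕ, p.Prime → P / 8 < p → (p : ℝ) ≤ P → p ∣ N := by
    intro p hp h1 h2
    by_contra hnd
    have h3 := hcon p hp h1 h2 hnd
    rw [h3] at h1
    norm_num at h1
    linarith
  set S : Finset ℕ := (Ioc ⌊P / 8⌋₊ ⌊P⌋₊).filter Nat.Prime with hS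
  have hSmem : ∀ p ∈ S, p.Prime ∧ p ∣ N := by
    intro p hp
    rw [hS, Finset.mem_filter, Finset.mem_Ioc] at hp
    refine ⟨hp.2, hdiv p hp.2 ?_ ?_⟩
    · exact (Nat.floor_lt (by linarith)).1 hp.1.1
    · exact (Nat.le_floor_iff hP0).1 hp.1.2
  have hprod : ∏ p ∈ S, p ∣ N := by
    refine Finset.prod_primes_dvd N (fun p hp => (hSmem p hp).1.prime) (fun p hp => (hSmem p hp).2)
  have hle : ∏ p ∈ S, p ≤ N := Nat.le_of_dvd hN hprod
  have hpos : 0 < ∏ p ∈ S, p := Finset.prod_pos fun p hp => (hSmem p hp).1.pos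
  have hsum : Chebyshev.theta P - Chebyshev.theta (P / 8) = ∑ p ∈ S, Real.log p := by
    have hfl : ⌊P / 8⌋₊ ≤ ⌊P⌋₊ := Nat.floor_le_floor (by linarith)
    have hunion : (Ioc 0 ⌊P⌋₊).filter Nat.Prime = (Ioc 0 ⌊P / 8⌋₊).filter Nat.Prime ∪ S := by
      rw [hS, ← Finset.filter_union, Finset.Ioc_union_Ioc_eq_Ioc (Nat.zero_le _) hfl]
    have hdisj : Disjoint ((Ioc 0 ⌊P / 8⌋₊).filter Nat.Prime) S := by
      rw [Finset.disjoint_left]
      intro p hp hp'
      rw [Finset.mem_filter, Finset.mem_Ioc] at hp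
      rw [hS, Finset.mem_filter, Finset.mem_Ioc] at hp'
      omega
    unfold Chebyshev.theta
    rw [hunion, Finset.sum_union hdisj]
    ring
  have hlogprod : ∑ p ∈ S, Real.log p = Real.log ((∏ p ∈ S, p : ℕ) : ℝ) := by
    rw [Nat.cast_prod, Real.log_prod]
    intro p hp
    exact_mod_cast (hSmem p hp).1.ne_zero
  have hfin : Real.log ((∏ p ∈ S, p : ℕ) : ℝ) ≤ Real.log N :=
    Real.log_le_log (by exact_mod_cast hpos) (by exact_mod_cast hle)
  have hgap := theta_gap hP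
  rw [hsum, hlogprod] at hgap
  linarith

end Pool.Agent.Lib.MP_640417_ag.Far
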