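import Pool.Agent.Lib.MP_640417_ag.Far.Spec

/-!
# Dimension of the reduction modulo a prime
-/

namespace Pool.Agent.Lib.MP_640417_ag.Far

open Module Finset

/-- The integer valued members of a rational space of functions. -/
def latt {S : Type} (U : Submodule ℚ (S → ℚ)) : Submodule ℤ (S → ℤ) where
  carrier := {v | (fun s => (v s : ℚ)) ∈ U}
  add_mem' := by
    intro v v' hv hv'
    have := U.add_mem hv hv'
    show (fun s => (((v + v') s : ℤ) : ℚ)) ∈ U
    convert this using 1
    funext s
    simp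
  zero_mem' := by
    show (fun s : S => (((0 : S → ℤ) s : ℤ) : ℚ)) ∈ U
    have : (fun s : S => (((0 : S → ℤ) s : ℤ) : ℚ)) = 0 := by
      funext s
      simp
    rw [this]
    exact U.zero_mem
  smul_mem' := by
    intro c v hv
    have := U.smul_mem (c : ℚ) hv
    show (fun s => (((c • v) s : ℤ) : ℚ)) ∈ U
    convert this using 1
    funext s
    simp

lemma mem_latt {S : Type} (U : Submodule ℚ (S → ℚ)) (v : S → ℤ) :
    v ∈ latt U ↔ (fun s => (v s : ℚ)) ∈ U := Iff.rfl

/-- Common denominators. -/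
lemma exists_latt_mul {S : Type} [Finite S] (U : Submodule ℚ (S → ℚ)) (u : S → ℚ) (hu : u ∈ U) :
    ∃ (N : ℤ) (v : S → ℤ), N ≠ 0 ∧ v ∈ latt U ∧ ∀ s, (v s : ℚ) = N * u s := by
  classical
  have := Fintype.ofFinite S
  refine ⟨∏ s, ((u s).den : ℤ), fun s => (u s).num * ∏ t ∈ Finset.univ.erase s, ((u t).den : ℤ),
    ?_, ?_, ?_⟩
  · rw [Finset.prod_ne_zero_iff]
    intro s _
    exact_mod_cast (u s).den_nz
  · have h : (fun s => ((((u s).num * ∏ t ∈ Finset.univ.erase s, ((u t).den : ℤ) : ℤ)) : ℚ))
        = ((∏ s, ((u s).den : ℤ) : ℤ) : ℚ) • u := by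
      funext s
      simp only [Pi.smul_apply, smul_eq_mul]
      rw [← Finset.mul_prod_erase Finset.univ _ (Finset.mem_univ s)]
      push_cast
      have h1 : ((u s).num : ℚ) = (u s) * ((u s).den : ℚ) := by
        rw [Rat.mul_den_eq_num]
      rw [h1]
      ring
    rw [mem_latt, h]
    exact U.smul_mem _ hu
  · intro s
    rw [← Finset.mul_prod_erase Finset.univ _ (Finset.mem_univ s)]
    push_cast
    have h1 : ((u s).num : ℚ) = (u s) * ((u s).den : ℚ) := by
      rw [Rat.mul_den_eq_num]
    rw [h1]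
    ring

/-- The reduction of a rational space of functions has the same dimension. -/
theorem red_rank : StRed := by
  intro S _ p hpp U
  classical
  have := Fintype.ofFinite S
  let b := Module.Free.chooseBasis ℤ (latt U)
  let ι := Module.Free.ChooseBasisIndex ℤ (latt U)
  -- the rational vectors
  let v : ι → U := fun i => ⟨fun s => (((b i : latt U) : S → ℤ) s : ℚ), (b i).2⟩
  let w : ι → red p U := fun i => ⟨fun s => (((b i : latt U) : S → ℤ) s : ZMod p),
    ⟨((b i : latt U) : S → ℤ), (b i).2, fun s => rfl⟩⟩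
  -- coordinates
  have hco : ∀ x : latt U, ∀ s, (x : S → ℤ) s = ∑ i, b.repr x i * ((b i : latt U) : S → ℤ) s := by
    intro x s
    have h2 : (x : S → ℤ) s = ((∑ i, b.repr x i • b i : latt U) : S → ℤ) s := by
      rw [b.sum_repr x]
    rw [h2, Submodule.coe_sum, Finset.sum_apply]
    apply Finset.sum_congr rfl
    intro i _
    rw [Submodule.coe_smul, Pi.smul_apply, smul_eq_mul]
  have hrepr : ∀ (c : ι → ℤ) (x : latt U),
      (∀ s, (x : S → ℤ) s = ∑ i, c i * ((b i : latt U) : S → ℤ) s) → ∀ i, b.repr x i = c i := by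
    intro c x hx i
    have h1 : x = ∑ i, c i • b i := by
      apply Subtype.ext
      funext s
      rw [hx s]
      simp [Finset.sum_apply]
    rw [h1, b.repr_sum_self]
  have hvli : LinearIndependent ℚ v := by
    rw [← LinearIndependent.iff_fractionRing ℤ ℚ, Fintype.linearIndependent_iff]
    intro c hc i
    have h1 : ∀ s, ((0 : latt U) : S → ℤ) s = ∑ i, c i * ((b i : latt U) : S → ℤ) s := by
      intro s
      have h2 := congrArg (fun y : U => (y : S → ℚ) s) hc
      simp only [Submodule.coe_sum, Finset.sum_apply] at h2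
      have h3 : (((∑ i, c i * ((b i : latt U) : S → ℤ) s : ℤ)) : ℚ) = 0 := by
        push_cast
        have h5 : ∑ i, (((c i • v i : U) : S → ℚ) s)
            = ∑ i, (c i : ℚ) * (((b i : latt U) : S → ℤ) s : ℚ) := by
          apply Finset.sum_congr rfl
          intro j _
          rw [Submodule.coe_smul_of_tower, Pi.smul_apply, zsmul_eq_mul]
        rw [← h5, h2]
        rfl
      simp only [Submodule.coe_zero, Pi.zero_apply]
      exact_mod_cast h3.symm
    have h4 := hrepr c 0 h1 i
    rw [← h4]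
    simp
  have hvsp : ⊤ ≤ Submodule.span ℚ (Set.range v) := by
    rintro ⟨u, hu⟩ -
    obtain ⟨N, x, hN, hx, hxs⟩ := exists_latt_mul U u hu
    have hNq : (N : ℚ) ≠ 0 := by exact_mod_cast hN
    have h1 : (⟨u, hu⟩ : U) = ∑ i, ((N : ℚ)⁻¹ * (b.repr ⟨x, hx⟩ i : ℚ)) • v i := by
      apply Subtype.ext
      funext s
      have h2 := hco ⟨x, hx⟩ s
      have h3 : (x s : ℚ) = ∑ i, (b.repr ⟨x, hx⟩ i : ℚ) * (((b i : latt U) : S → ℤ) s : ℚ) := by
        exact_mod_cast h2
      rw [hxs s] at h3
      rw [Submodule.coe_sum, Finset.sum_apply]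
      have h4 : u s = (N : ℚ)⁻¹ * (N * u s) := by
        rw [← mul_assoc, inv_mul_cancel₀ hNq, one_mul]
      show u s = _
      rw [h4, h3, Finset.mul_sum]
      apply Finset.sum_congr rfl
      intro i _
      rw [Submodule.coe_smul, Pi.smul_apply, smul_eq_mul, mul_assoc]
    rw [h1]
    exact Submodule.sum_mem _ fun i _ => Submodule.smul_mem _ _
      (Submodule.subset_span ⟨i, rfl⟩)
  have hwli : LinearIndependent (ZMod p) w := by
    rw [Fintype.linearIndependent_iff]
    intro g hg i
    have hpz : (p : ℤ) ≠ 0 := by exact_mod_cast hpp.out.ne_zero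
    have hpq : (p : ℚ) ≠ 0 := by exact_mod_cast hpp.out.ne_zero
    obtain ⟨c, hc⟩ : ∃ c : ι → ℤ, ∀ i, ((c i : ℤ) : ZMod p) = g i :=
      ⟨fun i => (ZMod.intCast_surjective (g i)).choose,
        fun i => (ZMod.intCast_surjective (g i)).choose_spec⟩
    have h1 : ∀ s, (p : ℤ) ∣ ∑ i, c i * ((b i : latt U) : S → ℤ) s := by
      intro s
      rw [← ZMod.intCast_zmod_eq_zero_iff_dvd]
      have h2 := congrArg (fun y : red p U => (y : S → ZMod p) s) hg
      simp only [Submodule.coe_sum, Finset.sum_apply] at h2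
      push_cast
      rw [show (0 : ZMod p) = ((0 : red p U) : S → ZMod p) s from rfl, ← h2]
      apply Finset.sum_congr rfl
      intro j _
      rw [Submodule.coe_smul, Pi.smul_apply, smul_eq_mul, hc j]
    choose y hy using h1
    have hyU : y ∈ latt U := by
      rw [mem_latt]
      have h3 : (fun s => (y s : ℚ)) = (p : ℚ)⁻¹ • ((∑ i, (c i : ℚ) • v i : U) : S → ℚ) := by
        funext s
        rw [Pi.smul_apply, smul_eq_mul, Submodule.coe_sum, Finset.sum_apply]
        have h4 : (((∑ i, c i * ((b i : latt U) : S → ℤ) s : ℤ)) : ℚ) = p * y s := by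
          rw [hy s]
          push_cast
          rfl
        push_cast at h4
        have h5 : ∑ i, ((((c i : ℚ) • v i : U) : S → ℚ) s)
            = ∑ i, (c i : ℚ) * (((b i : latt U) : S → ℤ) s : ℚ) := by
          apply Finset.sum_congr rfl
          intro j _
          rw [Submodule.coe_smul, Pi.smul_apply, smul_eq_mul]
        rw [h5, h4, ← mul_assoc, inv_mul_cancel₀ hpq, one_mul]
      rw [h3]
      exact U.smul_mem _ (Subtype.property _)
    have h6 : ∀ s, (((p : ℤ) • (⟨y, hyU⟩ : latt U) : latt U) : S → ℤ) s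
        = ∑ i, c i * ((b i : latt U) : S → ℤ) s := by
      intro s
      rw [hy s, Submodule.coe_smul, Pi.smul_apply, smul_eq_mul]
    have h7 := hrepr c _ h6 i
    rw [map_smul, Finsupp.smul_apply, smul_eq_mul] at h7
    rw [← hc i, ← h7]
    push_cast
    rw [ZMod.natCast_self, zero_mul]
  have hwsp : ⊤ ≤ Submodule.span (ZMod p) (Set.range w) := by
    rintro ⟨u, x, hx, hu⟩ -
    have h1 : (⟨u, x, hx, hu⟩ : red p U)
        = ∑ i, ((b.repr ⟨x, hx⟩ i : ℤ) : ZMod p) • w i := by
      apply Subtype.ext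
      funext s
      have h2 := hco ⟨x, hx⟩ s
      have h3 : (x s : ZMod p)
          = ∑ i, ((b.repr ⟨x, hx⟩ i : ℤ) : ZMod p) * (((b i : latt U) : S → ℤ) s : ZMod p) := by
        have h4 := congrArg (fun n : ℤ => (n : ZMod p)) h2
        simpa using h4
      rw [Submodule.coe_sum, Finset.sum_apply]
      show u s = _
      rw [hu s, h3]
      apply Finset.sum_congr rfl
      intro i _
      rw [Submodule.coe_smul, Pi.smul_apply, smul_eq_mul]
    rw [h1]
    exact Submodule.sum_mem _ fun i _ => Submodule.smul_mem _ _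
      (Submodule.subset_span ⟨i, rfl⟩)
  rw [Module.finrank_eq_card_basis (Basis.mk hwli hwsp),
    Module.finrank_eq_card_basis (Basis.mk hvli hvsp)]

end Pool.Agent.Lib.MP_640417_ag.Far
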