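import Pool.Agent.Lib.MP_640417_ag.Far.Spec

/-!
# Semistability
-/

namespace Pool.Agent.Lib.MP_640417_ag.Far

open Module Finset NumberField MulAction

section semi

variable {S G : Type} [Group G] [MulAction G S]

/-- translation of functions -/
noncomputable def semiT (γ : G) : (S → ℚ) ≃ₗ[ℚ] (S → ℚ) :=
  LinearEquiv.funCongrLeft ℚ ℚ (MulAction.toPerm γ)

lemma semiT_apply (γ : G) (f : S → ℚ) (s : S) : semiT γ f s = f (γ • s) := rfl

/-- translation permutes the spaces fixed by point stabilizers -/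
lemma semi_map_inv (γ : G) (s : S) :
    (invF ℚ (stabilizer G (γ • s))).map (semiT (S := S) γ).toLinearMap =
      invF ℚ (stabilizer G s) := by
  ext f
  rw [Submodule.mem_map]
  constructor
  · rintro ⟨f, hf, rfl⟩ b hb t
    change f (γ • b • t) = f (γ • t)
    have h1 : γ * b * γ⁻¹ ∈ stabilizer G (γ • s) := by
      rw [mem_stabilizer_iff] at hb ⊢
      rw [mul_smul, mul_smul, inv_smul_smul, hb]
    have h2 := hf _ h1 (γ • t)
    rw [← h2, mul_smul, mul_smul, inv_smul_smul]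
  · intro hf
    refine ⟨fun t => f (γ⁻¹ • t), ?_, ?_⟩
    · intro b hb t
      change f (γ⁻¹ • b • t) = f (γ⁻¹ • t)
      have h1 : γ⁻¹ * b * γ ∈ stabilizer G s := by
        rw [mem_stabilizer_iff] at hb ⊢
        rw [mul_smul, mul_smul, hb, inv_smul_smul]
      have h2 := hf _ h1 (γ⁻¹ • t)
      rw [← h2, mul_smul, mul_smul, smul_inv_smul]
    · funext t
      change f (γ⁻¹ • γ • t) = f t
      rw [inv_smul_smul]

lemma semi_map_inf (γ : G) (s : S) (Y : Submodule ℚ (S → ℚ)) :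
    finrank ℚ ↥(Y.map (semiT (S := S) γ).toLinearMap ⊓ invF ℚ (stabilizer G s)) =
      finrank ℚ ↥(Y ⊓ invF ℚ (stabilizer G (γ • s))) := by
  have h1 : Y.map (semiT (S := S) γ).toLinearMap ⊓ invF ℚ (stabilizer G s) =
      (Y ⊓ invF ℚ (stabilizer G (γ • s))).map (semiT (S := S) γ).toLinearMap := by
    rw [Submodule.map_inf _ (semiT γ).injective, semi_map_inv]
  rw [h1]
  exact LinearEquiv.finrank_map_eq (semiT γ) _

variable [Fintype S]

/-- `Σ dim (Y ∩ H_s)` -/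
noncomputable def semiF (G : Type) [Group G] [MulAction G S] (Y : Submodule ℚ (S → ℚ)) : ℕ :=
  ∑ s : S, finrank ℚ ↥(Y ⊓ invF ℚ (stabilizer G s))

lemma semiF_map (γ : G) (Y : Submodule ℚ (S → ℚ)) :
    semiF G (Y.map (semiT (S := S) γ).toLinearMap) = semiF G Y := by
  unfold semiF
  rw [← Equiv.sum_comp (MulAction.toPerm γ)
    (fun s : S => finrank ℚ ↥(Y ⊓ invF ℚ (stabilizer G s)))]
  exact Finset.sum_congr rfl fun s _ => semi_map_inf γ s Y

lemma semiF_super (Y Y' : Submodule ℚ (S → ℚ)) :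
    semiF G Y + semiF G Y' ≤ semiF G (Y ⊓ Y') + semiF G (Y ⊔ Y') := by
  unfold semiF
  rw [← Finset.sum_add_distrib, ← Finset.sum_add_distrib]
  refine Finset.sum_le_sum fun s _ => ?_
  have h1 := Submodule.finrank_sup_add_finrank_inf_eq (Y ⊓ invF ℚ (stabilizer G s))
    (Y' ⊓ invF ℚ (stabilizer G s))
  have h2 : finrank ℚ ↥((Y ⊓ invF ℚ (stabilizer G s)) ⊔ (Y' ⊓ invF ℚ (stabilizer G s))) ≤
      finrank ℚ ↥((Y ⊔ Y') ⊓ invF ℚ (stabilizer G s)) := by
    refine Submodule.finrank_mono ?_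
    exact sup_le (inf_le_inf_right _ le_sup_left) (inf_le_inf_right _ le_sup_right)
  have h3 : finrank ℚ ↥((Y ⊓ invF ℚ (stabilizer G s)) ⊓ (Y' ⊓ invF ℚ (stabilizer G s))) ≤
      finrank ℚ ↥((Y ⊓ Y') ⊓ invF ℚ (stabilizer G s)) := by
    refine Submodule.finrank_mono ?_
    exact le_inf (inf_le_inf inf_le_left inf_le_left) (inf_le_left.trans inf_le_right)
  omega

lemma semiF_le (Y : Submodule ℚ (S → ℚ)) : semiF G Y ≤ Fintype.card S * finrank ℚ Y := by
  unfold semiF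
  have h1 : ∀ s ∈ (Finset.univ : Finset S),
      finrank ℚ ↥(Y ⊓ invF ℚ (stabilizer G s)) ≤ finrank ℚ Y :=
    fun s _ => Submodule.finrank_mono inf_le_left
  have h2 := Finset.sum_le_card_nsmul _ _ _ h1
  simpa using h2

lemma semi_stab_map (U : Submodule ℚ (S → ℚ)) (hU : IsStab G U) (γ : G) :
    U.map (semiT (S := S) γ).toLinearMap = U := by
  refine le_antisymm ?_ ?_
  · rintro _ ⟨f, hf, rfl⟩
    exact hU f hf γ
  · intro f hf
    refine ⟨fun t => f (γ⁻¹ • t), hU f hf γ⁻¹, ?_⟩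
    funext t
    change f (γ⁻¹ • γ • t) = f t
    rw [inv_smul_smul]

end semi

theorem semi : StSemi := by
  intro S G _ _ _ _ _ s₀ U hU Y hY
  by_contra hcon
  push Not at hcon
  set D := finrank ℚ U with hD
  set h := finrank ℚ ↥(U ⊓ invF ℚ (stabilizer G s₀)) with hh
  set N := Fintype.card S with hN
  let ψ : Submodule ℚ (S → ℚ) → ℤ := fun Z =>
    ((D : ℤ) + 1) * ((D : ℤ) * semiF G Z - N * h * finrank ℚ Z) + finrank ℚ Z
  have hmap : ∀ (γ : G) (Z : Submodule ℚ (S → ℚ)),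
      ψ (Z.map (semiT (S := S) γ).toLinearMap) = ψ Z := by
    intro γ Z
    change ((D : ℤ) + 1) * ((D : ℤ) * semiF G _ - N * h * finrank ℚ _) + finrank ℚ _ = _
    rw [semiF_map, LinearEquiv.finrank_map_eq (semiT γ) Z]
  have hsup : ∀ Z Z' : Submodule ℚ (S → ℚ), ψ Z + ψ Z' ≤ ψ (Z ⊓ Z') + ψ (Z ⊔ Z') := by
    intro Z Z'
    have h1 : ((semiF G Z : ℤ) + semiF G Z') ≤ semiF G (Z ⊓ Z') + semiF G (Z ⊔ Z') := by
      exact_mod_cast semiF_super (G := G) Z Z'
    have h2 : (finrank ℚ ↥(Z ⊔ Z') : ℤ) + finrank ℚ ↥(Z ⊓ Z') = finrank ℚ Z + finrank ℚ Z' := by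
      exact_mod_cast Submodule.finrank_sup_add_finrank_inf_eq Z Z'
    have h3 : 0 ≤ ((D : ℤ) + 1) * D * (semiF G (Z ⊓ Z') + semiF G (Z ⊔ Z')
        - (semiF G Z + semiF G Z')) := mul_nonneg (by positivity) (by linarith)
    have h4 : ψ (Z ⊓ Z') + ψ (Z ⊔ Z') - (ψ Z + ψ Z') =
        ((D : ℤ) + 1) * D * (semiF G (Z ⊓ Z') + semiF G (Z ⊔ Z') - (semiF G Z + semiF G Z'))
        - (((D : ℤ) + 1) * (N * h) - 1) * ((finrank ℚ ↥(Z ⊔ Z') : ℤ) + finrank ℚ ↥(Z ⊓ Z')
          - (finrank ℚ Z + finrank ℚ Z')) := by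
      simp only [ψ]
      ring
    rw [h2, sub_self, mul_zero, sub_zero] at h4
    linarith
  have hbdd : ∃ b : ℤ, ∀ z : ℤ, (∃ Z : Submodule ℚ (S → ℚ), Z ≤ U ∧ ψ Z = z) → z ≤ b := by
    refine ⟨((D : ℤ) + 1) * ((D : ℤ) * (N * D)) + D, ?_⟩
    rintro _ ⟨Z, hZ, rfl⟩
    have h1 : finrank ℚ Z ≤ D := Submodule.finrank_mono hZ
    have h2 : semiF G Z ≤ N * D := (semiF_le Z).trans (Nat.mul_le_mul_left _ h1)
    have h3 : (semiF G Z : ℤ) ≤ N * D := by exact_mod_cast h2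
    have h4 : (finrank ℚ Z : ℤ) ≤ D := by exact_mod_cast h1
    have h5 : (D : ℤ) * semiF G Z - N * h * finrank ℚ Z ≤ (D : ℤ) * (N * D) := by
      have h6 : (D : ℤ) * semiF G Z ≤ (D : ℤ) * (N * D) :=
        mul_le_mul_of_nonneg_left h3 (by positivity)
      have h7 : (0 : ℤ) ≤ N * h * finrank ℚ Z := by positivity
      linarith
    have h6 := mul_le_mul_of_nonneg_left h5 (show (0 : ℤ) ≤ (D : ℤ) + 1 by positivity)
    simp only [ψ]
    linarith
  obtain ⟨m, ⟨Y0, hY0U, hY0⟩, hmax⟩ := Int.exists_greatest_of_bdd hbdd ⟨ψ Y, Y, hY, rfl⟩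
  have hmax' : ∀ Z ≤ U, ψ Z ≤ ψ Y0 := by
    intro Z hZ
    rw [hY0]
    exact hmax _ ⟨Z, hZ, rfl⟩
  have hYpos : (D : ℤ) + 1 ≤ ψ Y := by
    have h1 : (N : ℤ) * h * finrank ℚ Y < D * semiF G Y := by exact_mod_cast hcon
    have h2 : (1 : ℤ) ≤ (D : ℤ) * semiF G Y - N * h * finrank ℚ Y := by linarith
    have h3 := mul_le_mul_of_nonneg_left h2 (show (0 : ℤ) ≤ (D : ℤ) + 1 by positivity)
    have h4 : (0 : ℤ) ≤ finrank ℚ Y := by positivity
    simp only [ψ]
    linarith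
  have hstab : IsStab G Y0 := by
    intro f hf γ
    have hT : Y0.map (semiT (S := S) γ).toLinearMap ≤ U := by
      refine (Submodule.map_mono hY0U).trans ?_
      rw [semi_stab_map U hU.2.1]
    have h1 := hsup Y0 (Y0.map (semiT (S := S) γ).toLinearMap)
    rw [hmap] at h1
    have h2 := hmax' _ (inf_le_left.trans hY0U :
      Y0 ⊓ Y0.map (semiT (S := S) γ).toLinearMap ≤ U)
    have h3 := hmax' _ (sup_le hY0U hT)
    have h4 : ψ (Y0 ⊔ Y0.map (semiT (S := S) γ).toLinearMap) = ψ Y0 := by linarith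
    have h5 : finrank ℚ ↥(Y0 ⊔ Y0.map (semiT (S := S) γ).toLinearMap) ≤ D :=
      Submodule.finrank_mono (sup_le hY0U hT)
    have h6 : finrank ℚ Y0 ≤ finrank ℚ ↥(Y0 ⊔ Y0.map (semiT (S := S) γ).toLinearMap) :=
      Submodule.finrank_mono le_sup_left
    have h7 : finrank ℚ Y0 = finrank ℚ ↥(Y0 ⊔ Y0.map (semiT (S := S) γ).toLinearMap) := by
      have h8 : ((D : ℤ) + 1) ∣ ((finrank ℚ ↥(Y0 ⊔ Y0.map (semiT (S := S) γ).toLinearMap) : ℤ)
          - finrank ℚ Y0) := by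
        refine ⟨((D : ℤ) * semiF G Y0 - N * h * finrank ℚ Y0) -
          ((D : ℤ) * semiF G (Y0 ⊔ Y0.map (semiT (S := S) γ).toLinearMap) -
            N * h * finrank ℚ ↥(Y0 ⊔ Y0.map (semiT (S := S) γ).toLinearMap)), ?_⟩
        simp only [ψ] at h4
        linarith
      have h9 := Int.eq_zero_of_dvd_of_nonneg_of_lt (by omega) (by omega) h8
      omega
    have h8 : Y0 = Y0 ⊔ Y0.map (semiT (S := S) γ).toLinearMap :=
      Submodule.eq_of_le_of_finrank_eq le_sup_left h7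
    rw [h8]
    exact Submodule.mem_sup_right ⟨f, hf, rfl⟩
  rcases hU.2.2 Y0 hY0U hstab with h1 | h1
  · have h2 := hmax' Y hY
    have h3 : ψ (⊥ : Submodule ℚ (S → ℚ)) = 0 := by
      have h4 : semiF G (⊥ : Submodule ℚ (S → ℚ)) = 0 := by
        have := semiF_le (G := G) (⊥ : Submodule ℚ (S → ℚ))
        rw [finrank_bot, mul_zero] at this
        omega
      simp only [ψ, h4, finrank_bot]
      simp
    rw [h1, h3] at h2
    have : (0 : ℤ) ≤ D := by positivity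
    linarith
  · have h2 := hmax' Y hY
    rw [h1] at h2
    have h3 : semiF G U = N * h := by
      unfold semiF
      have h4 : ∀ s ∈ (Finset.univ : Finset S),
          finrank ℚ ↥(U ⊓ invF ℚ (stabilizer G s)) = h := by
        intro s _
        obtain ⟨γ, hγ⟩ := MulAction.exists_smul_eq G s₀ s
        have h5 := semi_map_inf γ s₀ U
        rw [semi_stab_map U hU.2.1 γ, hγ] at h5
        exact h5.symm
      rw [Finset.sum_congr rfl h4]
      simp [hN]
    have h4 : ψ U = D := by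
      simp only [ψ, h3]
      rw [← hD]
      push_cast
      ring
    rw [h4] at h2
    linarith

end Pool.Agent.Lib.MP_640417_ag.Far
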