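import Pool.Agent.Lib.MP_640417_ag.Far.Spec

/-!
# Large primes do not divide the order of the acting group
-/

set_option autoImplicit false

namespace Pool.Agent.Lib.MP_640417_ag.Far

open Module Finset NumberField MulAction

section tame

variable {S G : Type} [Group G] [MulAction G S]

/-- translation by `γ` on a stable space -/
def tameT (U : Submodule ℚ (S → ℚ)) (hU : IsStab G U) (γ : G) : Module.End ℚ U where
  toFun f := ⟨fun s => f.1 (γ • s), hU f.1 f.2 γ⟩
  map_add' _ _ := rfl
  map_smul' _ _ := rfl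

lemma tameT_pow (U : Submodule ℚ (S → ℚ)) (hU : IsStab G U) (γ : G) (k : ℕ) (f : U) (s : S) :
    ((tameT U hU γ ^ k) f).1 s = f.1 (γ ^ k • s) := by
  induction k generalizing s with
  | zero => simp
  | succ k ih =>
    rw [pow_succ', pow_succ, mul_smul]
    exact ih (γ • s)

end tame

theorem tame : StTame := by
  intro S G _ _ _ _ U hU p hp hlt hdvd
  haveI : Fact p.Prime := ⟨hp⟩
  haveI := kerSub_normal U hU
  have hcard : p ∣ Nat.card (G ⧸ kerSub G U) := hdvd
  obtain ⟨x, hx⟩ := exists_prime_orderOf_dvd_card' p hcard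
  obtain ⟨γ, rfl⟩ := QuotientGroup.mk_surjective x
  have h1 : γ ^ p ∈ kerSub G U := by
    rw [← QuotientGroup.eq_one_iff, QuotientGroup.mk_pow, ← hx, pow_orderOf_eq_one]
  have h2 : γ ∉ kerSub G U := by
    intro h
    rw [← QuotientGroup.eq_one_iff] at h
    rw [h, orderOf_one] at hx
    exact hp.one_lt.ne hx
  set T := tameT U hU γ with hT
  have hTp : T ^ p = 1 := by
    ext f s
    rw [hT, tameT_pow]
    exact h1 f.1 f.2 s
  have hT1 : T ≠ 1 := by
    intro h
    apply h2
    intro f hf s
    have h3 := congrArg (fun L : Module.End ℚ U => (L ⟨f, hf⟩).1 s) h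
    exact h3
  have hmin : minpoly ℚ T ∣ (Polynomial.X - 1) * Polynomial.cyclotomic p ℚ := by
    rw [mul_comm, Polynomial.cyclotomic_prime_mul_X_sub_one]
    apply minpoly.dvd
    simp [hTp]
  have hirr := Polynomial.cyclotomic.irreducible_rat hp.pos
  have hcyc : Polynomial.cyclotomic p ℚ ∣ minpoly ℚ T := by
    by_contra hnd
    have hco : IsCoprime (Polynomial.cyclotomic p ℚ) (minpoly ℚ T) :=
      (hirr.coprime_iff_not_dvd).mpr hnd
    have h3 : minpoly ℚ T ∣ Polynomial.X - 1 := hco.symm.dvd_of_dvd_mul_right hmin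
    have h4 : Polynomial.aeval T (Polynomial.X - 1 : Polynomial ℚ) = 0 := by
      have h5 : Polynomial.aeval T (minpoly ℚ T) = 0 := minpoly.aeval ℚ T
      obtain ⟨Q, hQ⟩ := h3
      rw [hQ, map_mul, h5, zero_mul]
    apply hT1
    simp only [map_sub, Polynomial.aeval_X, map_one] at h4
    exact sub_eq_zero.mp h4
  have hch : Polynomial.cyclotomic p ℚ ∣ T.charpoly := hcyc.trans T.minpoly_dvd_charpoly
  have hdeg := Polynomial.natDegree_le_of_dvd hch T.charpoly_monic.ne_zero
  rw [Polynomial.natDegree_cyclotomic, Nat.totient_prime hp, T.charpoly_natDegree] at hdeg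
  omega

end Pool.Agent.Lib.MP_640417_ag.Far
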