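import Pool.Agent.Lib.MP_640417_ag.Far.Spec
import Pool.Agent.Lib.MP_640417_ag.ImagQuad

/-!
# The degree of the largest Galois subfield of a CM field
-/

namespace Pool.Agent.Lib.MP_640417_ag.Far

open Module Finset NumberField MulAction

section fix

variable {E : Type} [Field E] [NumberField E]

/-- The field of elements on which the embeddings of one orbit of `N` agree. -/
noncomputable def fixF (N : Subgroup (galGroup E)) : IntermediateField ℚ E where
  carrier := {x | ∀ φ : Emb E, ∀ ν ∈ N, (ν • φ : Emb E) x = φ x}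
  mul_mem' := by
    intro a b ha hb φ ν hν
    rw [map_mul, map_mul, ha φ ν hν, hb φ ν hν]
  one_mem' := by
    intro φ ν hν
    rw [map_one, map_one]
  add_mem' := by
    intro a b ha hb φ ν hν
    rw [map_add, map_add, ha φ ν hν, hb φ ν hν]
  zero_mem' := by
    intro φ ν hν
    rw [map_zero, map_zero]
  algebraMap_mem' := by
    intro r φ ν hν
    simp
  inv_mem' := by
    intro a ha φ ν hν
    rw [map_inv₀, map_inv₀, ha φ ν hν]

lemma mem_fixF (N : Subgroup (galGroup E)) (x : E) :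
    x ∈ fixF N ↔ ∀ φ : Emb E, ∀ ν ∈ N, (ν • φ : Emb E) x = φ x := Iff.rfl

/-- The action of an automorphism on the embeddings. -/
noncomputable def galOf (E : Type) [Field E] [NumberField E] : AbsGal →* galGroup E :=
  let _ := galAction E
  (MulAction.toPermHom AbsGal (Emb E)).rangeRestrict

lemma galOf_smul (τ : AbsGal) (φ : Emb E) : galOf E τ • φ = galEmb τ φ := rfl

lemma exists_galOf (γ : galGroup E) : ∃ τ : AbsGal, galOf E τ = γ := by
  obtain ⟨τ, hτ⟩ := exists_of_galGroup γ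
  refine ⟨τ, ?_⟩
  apply Subtype.ext
  apply Equiv.ext
  intro φ
  exact (hτ φ).symm

lemma exists_mem_fixF (N : Subgroup (galGroup E)) [N.Normal] (φ₀ : Emb E)
    (hN : stabilizer (galGroup E) φ₀ ≤ N) (w : AlgebraicClosure ℚ)
    (hw : ∀ τ : AbsGal, galOf E τ ∈ N → τ w = w) : ∃ x ∈ fixF N, φ₀ x = w := by
  obtain ⟨y, hy⟩ := exists_preimage_of_fixed_emb φ₀ w (by
    intro τ hτ
    apply hw
    apply hN
    exact hτ)
  refine ⟨y, ?_, hy⟩
  intro φ ν hν
  obtain ⟨τ, hτ⟩ := exists_galEmb_eq φ₀ φ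
  obtain ⟨n, hn⟩ := exists_galOf ν
  have h1 : (τ⁻¹ * n * τ) w = w := by
    apply hw
    rw [map_mul, map_mul, map_inv, hn]
    have := (inferInstance : N.Normal).conj_mem ν hν (galOf E τ)⁻¹
    rwa [inv_inv] at this
  have h2 : n (τ w) = τ w := by
    have h3 : τ ((τ⁻¹ * n * τ) w) = n (τ w) := by
      change (τ * (τ⁻¹ * n * τ)) w = (n * τ) w
      rw [← mul_assoc, ← mul_assoc, mul_inv_cancel, one_mul]
    rw [← h3, h1]
  rw [← hn, galOf_smul, galEmb_apply, ← hτ, galEmb_apply, hy]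
  exact h2

lemma coeff_eq (c c' : Emb E → AlgebraicClosure ℚ)
    (h : ∀ y : E, ∑ φ : Emb E, c φ * φ y = ∑ φ : Emb E, c' φ * φ y) (φ : Emb E) :
    c φ = c' φ := by
  have hli := linearIndependent_monoidHom E (AlgebraicClosure ℚ)
  let inc : Emb E → (E →* AlgebraicClosure ℚ) := fun φ => (φ : E →* AlgebraicClosure ℚ)
  have hinc : Function.Injective inc := by
    intro a b hab
    apply RingHom.ext
    intro y
    exact congrArg (fun f : E →* AlgebraicClosure ℚ => f y) hab
  have hli2 := hli.comp inc hinc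
  have h3 : ∀ φ, c φ - c' φ = 0 := by
    apply Fintype.linearIndependent_iff.mp hli2
    funext y
    have h4 := h y
    simp only [Finset.sum_apply, Pi.smul_apply, smul_eq_mul, Pi.zero_apply]
    rw [← sub_eq_zero, ← Finset.sum_sub_distrib] at h4
    rw [← h4]
    apply Finset.sum_congr rfl
    intro φ _
    change (c φ - c' φ) * φ y = _
    ring
  exact sub_eq_zero.mp (h3 φ)

lemma mem_orbit_of_fixF (N : Subgroup (galGroup E)) [N.Normal] (φ₀ : Emb E)
    (hN : stabilizer (galGroup E) φ₀ ≤ N) (φ ψ : Emb E) (h : ∀ x ∈ fixF N, φ x = ψ x) :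
    φ ∈ orbit N ψ := by
  classical
  obtain ⟨τ₁, hτ₁⟩ := exists_galEmb_eq φ₀ φ
  obtain ⟨τ₂, hτ₂⟩ := exists_galEmb_eq φ₀ ψ
  let I : Emb E → AlgebraicClosure ℚ := fun χ => if χ ∈ orbit N φ₀ then 1 else 0
  have hbij : ∀ τ : AbsGal, Function.Bijective (fun φ : Emb E => galEmb τ φ) := by
    intro τ
    let _ := galAction E
    exact MulAction.bijective τ
  have hInv : ∀ τ : AbsGal, galOf E τ ∈ N → ∀ χ, I (galEmb τ χ) = I χ := by
    intro τ hτ χ
    have : galEmb τ χ ∈ orbit N φ₀ ↔ χ ∈ orbit N φ₀ := by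
      have h1 : galEmb τ χ = (⟨galOf E τ, hτ⟩ : N) • χ := rfl
      rw [h1, ← orbit_eq_iff, ← orbit_eq_iff, orbit_smul]
    simp only [I, this]
  have hfix : ∀ y : E, ∀ τ : AbsGal, galOf E τ ∈ N →
      τ (∑ χ : Emb E, I χ * χ y) = ∑ χ : Emb E, I χ * χ y := by
    intro y τ hτ
    rw [map_sum]
    apply Fintype.sum_bijective (fun χ => galEmb τ χ) (hbij τ)
    intro χ
    rw [map_mul, hInv τ hτ]
    congr 1
    simp only [I]
    split_ifs <;> simp
  have hval : ∀ y : E, ∀ τ : AbsGal,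
      τ (∑ χ : Emb E, I χ * χ y) = ∑ χ : Emb E, I (galEmb τ⁻¹ χ) * χ y := by
    intro y τ
    rw [map_sum]
    apply Fintype.sum_bijective (fun χ => galEmb τ χ) (hbij τ)
    intro χ
    have h1 : galEmb τ⁻¹ (galEmb τ χ) = χ := by
      let _ := galAction E
      exact inv_smul_smul τ χ
    rw [map_mul, h1]
    congr 1
    simp only [I]
    split_ifs <;> simp
  have hkey : ∀ y : E, ∑ χ : Emb E, I (galEmb τ₁⁻¹ χ) * χ y
      = ∑ χ : Emb E, I (galEmb τ₂⁻¹ χ) * χ y := by
    intro y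
    obtain ⟨x, hx, hxw⟩ := exists_mem_fixF N φ₀ hN _ (hfix y)
    rw [← hval, ← hval, ← hxw, ← galEmb_apply, ← galEmb_apply, hτ₁, hτ₂]
    exact h x hx
  have h1 := coeff_eq _ _ hkey φ
  have h2 : galEmb τ₁⁻¹ φ = φ₀ := by
    rw [← hτ₁]
    let _ := galAction E
    exact inv_smul_smul τ₁ φ₀
  rw [h2] at h1
  have h3 : galEmb τ₂⁻¹ φ ∈ orbit N φ₀ := by
    by_contra h4
    simp only [I, if_neg h4, if_pos (mem_orbit_self φ₀)] at h1
    exact one_ne_zero h1
  obtain ⟨ν, hν⟩ := h3
  have hν' : ν.1 • φ₀ = galEmb τ₂⁻¹ φ := hν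
  refine ⟨⟨galOf E τ₂ * ν.1 * (galOf E τ₂)⁻¹, (inferInstance : N.Normal).conj_mem _ ν.2 _⟩, ?_⟩
  change (galOf E τ₂ * ν.1 * (galOf E τ₂)⁻¹) • ψ = φ
  have h5 : (galOf E τ₂)⁻¹ • ψ = φ₀ := by
    rw [inv_smul_eq_iff]
    exact hτ₂.symm
  rw [mul_smul, mul_smul, h5, hν']
  have h6 : galEmb τ₂⁻¹ φ = (galOf E τ₂)⁻¹ • φ := by
    rw [← map_inv]
    rfl
  rw [h6, smul_inv_smul]

lemma isGalois_of_images {K F Ω : Type} [Field K] [CharZero K] [Field F] [Field Ω] [Algebra K F]
    [Algebra K Ω] [Normal K Ω] (f : F →ₐ[K] Ω)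
    (h : ∀ σ : Ω →ₐ[K] Ω, ∀ x, ∃ x', f x' = σ (f x)) : IsGalois K F := by
  have h1 : Normal K f.fieldRange := by
    rw [IntermediateField.normal_iff_forall_map_le]
    intro σ w hw
    obtain ⟨w', hw', rfl⟩ := hw
    obtain ⟨x, rfl⟩ := hw'
    obtain ⟨x', hx'⟩ := h σ x
    exact ⟨x', hx'⟩
  let e : f.fieldRange ≃ₐ[K] F := (AlgEquiv.ofInjectiveField f).symm
  have h2 : Normal K F := Normal.of_algEquiv e
  have h3 : Algebra.IsAlgebraic K F := h2.toIsAlgebraic
  have h4 : Algebra.IsSeparable K F := inferInstance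
  exact ⟨⟩

lemma isGalois_fixF (N : Subgroup (galGroup E)) [N.Normal] (φ₀ : Emb E)
    (hN : stabilizer (galGroup E) φ₀ ≤ N) : IsGalois ℚ (fixF N) := by
  have halg := isAlgebraic_rat_of_alg inferInstance
  have hnorm : Normal ℚ (AlgebraicClosure ℚ) := by
    rw [normal_iff]
    intro x
    exact ⟨(Algebra.IsAlgebraic.isAlgebraic x).isIntegral, IsAlgClosed.splits _⟩
  apply isGalois_of_images (K := ℚ) (F := fixF N) (Ω := AlgebraicClosure ℚ)
    (RingHom.toRatAlgHom (φ₀.comp (fixF N).val.toRingHom))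
  intro σ x
  have hσ : Function.Bijective σ := Algebra.IsAlgebraic.algHom_bijective σ
  let s : AbsGal := RingEquiv.ofBijective σ.toRingHom hσ
  obtain ⟨x', hx', hx2⟩ := exists_mem_fixF N φ₀ hN (s (φ₀ x.1)) (by
    intro τ hτ
    have := x.2 (galEmb s φ₀) (galOf E τ) hτ
    exact this)
  exact ⟨⟨x', hx'⟩, hx2⟩

end fix

theorem field_deg : StField := by
  intro E _ _ _ d hd φ₀ hφ₀
  set N : Subgroup (galGroup E) := Subgroup.normalClosure
    ((stabilizer (galGroup E) φ₀ : Subgroup (galGroup E)) : Set (galGroup E)) with hNdef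
  have hN : stabilizer (galGroup E) φ₀ ≤ N := Subgroup.subset_normalClosure
  have hNn : N.Normal := Subgroup.normalClosure_normal
  have hgal := isGalois_fixF N φ₀ hN
  refine le_trans ?_ (hd (fixF N) hgal ?_)
  · have hnf : NumberField (fixF N) := inferInstance
    rw [← Embeddings.card (fixF N) (AlgebraicClosure ℚ), ← Nat.card_eq_fintype_card]
    let g : orbitRel.Quotient N (Emb E) → (fixF N →+* AlgebraicClosure ℚ) :=
      Quotient.lift (fun φ : Emb E => φ.comp (fixF N).val.toRingHom) (by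
        intro a b hab
        have hab' : a ∈ orbit N b := hab
        obtain ⟨ν, rfl⟩ := hab'
        apply RingHom.ext
        intro x
        exact x.2 b ν.1 ν.2)
    apply Nat.card_le_card_of_injective g
    intro a b
    induction a using Quotient.inductionOn with
    | h a =>
      induction b using Quotient.inductionOn with
      | h b =>
        intro hab
        apply Quotient.sound
        apply mem_orbit_of_fixF N φ₀ hN
        intro x hx
        exact congrArg (fun f : fixF N →+* AlgebraicClosure ℚ => f ⟨x, hx⟩) hab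
  · by_contra hcon
    push Not at hcon
    apply hφ₀
    apply mem_orbit_of_fixF N φ₀ hN
    intro x hx
    rw [conjEmb_apply, hcon x hx]

end Pool.Agent.Lib.MP_640417_ag.Far
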