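import Pool.Agent.Lib.MP_640417_ag.FourierPack

/-!
# Stable spaces of functions: definitions

`G` is a group acting on the set `S`; functions on `S` are translated by `G`.
-/

namespace Pool.Agent.Lib.MP_640417_ag.Far

open Module Finset

section defs

variable {S : Type} (G : Type) [Group G] [MulAction G S] {F : Type} [Field F]

/-- A space of functions stable under all translations. -/
def IsStab (U : Submodule F (S → F)) : Prop := ∀ f ∈ U, ∀ γ : G, (fun s => f (γ • s)) ∈ U

/-- Irreducible stable spaces. -/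
def IsIrr (U : Submodule F (S → F)) : Prop :=
  U ≠ ⊥ ∧ IsStab G U ∧ ∀ U' : Submodule F (S → F), U' ≤ U → IsStab G U' → U' = ⊥ ∨ U' = U

/-- Equivariant isomorphism of two spaces of functions. -/
def IsoF (U U' : Submodule F (S → F)) : Prop :=
  ∃ θ : U ≃ₗ[F] U', ∀ (f f' : U) (γ : G), (∀ s, f'.1 s = f.1 (γ • s)) →
    ∀ s, (θ f').1 s = (θ f).1 (γ • s)

variable {G}

/-- All functions in the space are odd (for the involution given by `z`). -/
def IsOddSp (z : G) (U : Submodule F (S → F)) : Prop := ∀ f ∈ U, ∀ s, f (z • s) = - f s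

/-- The functions invariant under a subgroup. -/
def invF (F : Type) [Field F] (H : Subgroup G) : Submodule F (S → F) where
  carrier := {f | ∀ b ∈ H, ∀ s, f (b • s) = f s}
  add_mem' := by
    intro f g hf hg b hb s
    simp only [Pi.add_apply, hf b hb s, hg b hb s]
  zero_mem' := by
    intro b _ s
    rfl
  smul_mem' := by
    intro c f hf b hb s
    simp only [Pi.smul_apply, hf b hb s]

lemma mem_invF (H : Subgroup G) (f : S → F) :
    f ∈ invF F H ↔ ∀ b ∈ H, ∀ s, f (b • s) = f s := Iff.rfl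

/-- The elements of `G` acting trivially on a space of functions. -/
def kerSub (G : Type) [Group G] [MulAction G S] (U : Submodule F (S → F)) : Subgroup G where
  carrier := {γ | ∀ f ∈ U, ∀ s, f (γ • s) = f s}
  mul_mem' := by
    intro a b ha hb f hf s
    rw [mul_smul, ha f hf, hb f hf]
  one_mem' := by
    intro f _ s
    rw [one_smul]
  inv_mem' := by
    intro a ha f hf s
    rw [← ha f hf (a⁻¹ • s), smul_inv_smul]

lemma mem_kerSub (U : Submodule F (S → F)) (γ : G) :
    γ ∈ kerSub G U ↔ ∀ f ∈ U, ∀ s, f (γ • s) = f s := Iff.rfl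

lemma kerSub_normal (U : Submodule F (S → F)) (hU : IsStab G U) : (kerSub G U).Normal := by
  refine ⟨fun n hn g f hf s => ?_⟩
  have h1 := hn _ (hU f hf g) (g⁻¹ • s)
  simp only [smul_inv_smul] at h1
  rw [mul_smul, mul_smul]
  exact h1

/-- Orthogonality of an integer valued function to a space. -/
def Perp [Fintype S] (e : S → ℤ) (U : Submodule F (S → F)) : Prop :=
  ∀ f ∈ U, ∑ s, f s * (e s : F) = 0

end defs

section red

variable {S : Type} {G : Type} [Group G] [MulAction G S] (p : ℕ) [hp : Fact p.Prime]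

/-- The reduction modulo `p` of a rational space of functions: the reductions of its integer
valued members. -/
def red (U : Submodule ℚ (S → ℚ)) : Submodule (ZMod p) (S → ZMod p) where
  carrier := {w | ∃ v : S → ℤ, (fun s => (v s : ℚ)) ∈ U ∧ ∀ s, w s = (v s : ZMod p)}
  add_mem' := by
    rintro w w' ⟨v, hv, hw⟩ ⟨v', hv', hw'⟩
    refine ⟨fun s => v s + v' s, ?_, fun s => ?_⟩
    · have := U.add_mem hv hv'
      convert this using 1
      funext s
      simp
    · simp only [Pi.add_apply, hw s, hw' s]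
      push_cast
      ring
  zero_mem' := ⟨fun _ => 0, by
    have : (fun _ : S => ((0 : ℤ) : ℚ)) = 0 := by
      funext s
      simp
    rw [this]
    exact U.zero_mem, fun s => by simp⟩
  smul_mem' := by
    rintro c w ⟨v, hv, hw⟩
    refine ⟨fun s => (c.val : ℤ) * v s, ?_, fun s => ?_⟩
    · have := U.smul_mem (c.val : ℚ) hv
      convert this using 1
      funext s
      simp
    · simp only [Pi.smul_apply, smul_eq_mul, hw s]
      push_cast
      rw [ZMod.natCast_val, ZMod.cast_id]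

lemma mem_red (U : Submodule ℚ (S → ℚ)) (w : S → ZMod p) :
    w ∈ red p U ↔ ∃ v : S → ℤ, (fun s => (v s : ℚ)) ∈ U ∧ ∀ s, w s = (v s : ZMod p) := Iff.rfl

lemma red_mono {U U' : Submodule ℚ (S → ℚ)} (h : U ≤ U') : red p U ≤ red p U' := by
  rintro w ⟨v, hv, hw⟩
  exact ⟨v, h hv, hw⟩

lemma red_stab (U : Submodule ℚ (S → ℚ)) (hU : IsStab G U) : IsStab G (red p U) := by
  rintro w ⟨v, hv, hw⟩ γ
  exact ⟨fun s => v (γ • s), hU _ hv γ, fun s => hw (γ • s)⟩

lemma red_odd (z : G) (U : Submodule ℚ (S → ℚ)) (hU : IsOddSp z U) : IsOddSp z (red p U) := by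
  rintro w ⟨v, hv, hw⟩ s
  have h1 : ((v (z • s) : ℤ) : ℚ) = - ((v s : ℤ) : ℚ) := hU _ hv s
  have h2 : v (z • s) = - v s := by exact_mod_cast h1
  rw [hw, hw, h2]
  push_cast
  rfl

lemma red_perp [Fintype S] (e : S → ℤ) (U : Submodule ℚ (S → ℚ)) (hU : Perp e U) :
    Perp e (red p U) := by
  rintro w ⟨v, hv, hw⟩
  have h1 := hU _ hv
  have h2 : ∑ s, v s * e s = 0 := by
    have : ((∑ s, v s * e s : ℤ) : ℚ) = 0 := by
      push_cast
      exact h1
    exact_mod_cast this
  have h3 : ((∑ s, v s * e s : ℤ) : ZMod p) = 0 := by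
    rw [h2]
    simp
  push_cast at h3
  rw [← h3]
  apply Finset.sum_congr rfl
  intro s _
  rw [hw s]

end red

section isoF

variable {S : Type} {G : Type} [Group G] [MulAction G S] {F : Type} [Field F]

lemma IsoF.refl (U : Submodule F (S → F)) : IsoF G U U :=
  ⟨LinearEquiv.refl F U, fun _ _ _ h => h⟩

lemma IsoF.symm {U U' : Submodule F (S → F)} (hU : IsStab G U) (h : IsoF G U U') :
    IsoF G U' U := by
  obtain ⟨θ, hθ⟩ := h
  refine ⟨θ.symm, fun f f' γ hff s => ?_⟩
  have h1 := hθ (θ.symm f) ⟨_, hU _ (θ.symm f).2 γ⟩ γ (fun s => rfl)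
  have h2 : θ ⟨_, hU _ (θ.symm f).2 γ⟩ = f' := by
    apply Subtype.ext
    funext t
    rw [h1, hff, LinearEquiv.apply_symm_apply]
  have h3 : θ.symm f' = ⟨_, hU _ (θ.symm f).2 γ⟩ := by
    rw [← h2, LinearEquiv.symm_apply_apply]
  rw [h3]

lemma IsoF.trans {U U' U'' : Submodule F (S → F)} (h : IsoF G U U') (h' : IsoF G U' U'') :
    IsoF G U U'' := by
  obtain ⟨θ, hθ⟩ := h
  obtain ⟨θ', hθ'⟩ := h'
  exact ⟨θ.trans θ', fun f f' γ hff s => hθ' (θ f) (θ f') γ (hθ f f' γ hff) s⟩

lemma IsoF.finrank_eq {U U' : Submodule F (S → F)} (h : IsoF G U U') :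
    finrank F U = finrank F U' := by
  obtain ⟨θ, -⟩ := h
  exact θ.finrank_eq

lemma IsoF.odd {U U' : Submodule F (S → F)} (z : G) (h : IsoF G U U') (hU : IsOddSp z U) :
    IsOddSp z U' := by
  obtain ⟨θ, hθ⟩ := h
  intro f hf s
  set x : U := θ.symm ⟨f, hf⟩ with hx
  have h1 := hθ x (-x) z (fun s => (hU _ x.2 s).symm) s
  rw [map_neg, hx, LinearEquiv.apply_symm_apply] at h1
  exact h1.symm

end isoF

end Pool.Agent.Lib.MP_640417_ag.Far
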