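import Pool.Agent.Lib.MP_640417_ag.Far.Spec

/-!
# Representatives of the irreducible odd spaces
-/

set_option autoImplicit false

namespace Pool.Agent.Lib.MP_640417_ag.Far

open Module Finset NumberField MulAction

section types

variable {S G : Type} [Fintype S] [Group G] [Finite G] [MulAction G S]

omit [Finite G] in
/-- The dimension of the space of invariant functions. -/
lemma types_finrank_invF (H : Subgroup G) :
    finrank ℚ (invF ℚ H : Submodule ℚ (S → ℚ)) ≤ Nat.card (orbitRel.Quotient H S) := by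
  classical
  have : Finite (orbitRel.Quotient H S) := Quotient.finite _
  have : Fintype (orbitRel.Quotient H S) := Fintype.ofFinite _
  let φ : (invF ℚ H : Submodule ℚ (S → ℚ)) →ₗ[ℚ] (orbitRel.Quotient H S → ℚ) :=
    { toFun := fun f q => f.1 (Quotient.out q)
      map_add' := fun _ _ => rfl
      map_smul' := fun _ _ => rfl }
  have hφ : Function.Injective φ := by
    rw [← LinearMap.ker_eq_bot, LinearMap.ker_eq_bot']
    intro f hf
    apply Subtype.ext
    funext s
    have h1 : f.1 (Quotient.out (Quotient.mk (orbitRel H S) s)) = 0 :=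
      congrFun hf (Quotient.mk (orbitRel H S) s)
    have h2 : (orbitRel H S) (Quotient.out (Quotient.mk (orbitRel H S) s)) s :=
      Quotient.mk_out s
    rw [orbitRel_apply, mem_orbit_iff] at h2
    obtain ⟨b, hb⟩ := h2
    rw [← hb] at h1
    have h3 := f.2 b b.2 s
    change f.1 (b • s) = f.1 s at h3
    rw [← h3]
    exact h1
  have h1 := LinearMap.finrank_le_finrank_of_injective hφ
  rwa [Module.finrank_fintype_fun_eq_card, ← Nat.card_eq_fintype_card] at h1

/-- A stable space contains functions invariant under a point stabilizer. -/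
lemma types_inf_ne_bot [IsPretransitive G S] (s₀ : S) (U : Submodule ℚ (S → ℚ)) (hU0 : U ≠ ⊥)
    (hU : IsStab G U) : U ⊓ invF ℚ (stabilizer G s₀) ≠ ⊥ := by
  classical
  have : Fintype (stabilizer G s₀) := Fintype.ofFinite _
  obtain ⟨f, hf, hf0⟩ := Submodule.exists_mem_ne_zero_of_ne_bot hU0
  obtain ⟨s, hs⟩ := Function.ne_iff.1 hf0
  obtain ⟨γ, hγ⟩ := exists_smul_eq G s₀ s
  have hf' := hU f hf γ
  set f' : S → ℚ := fun t => f (γ • t) with hf'def
  have hs0 : f' s₀ ≠ 0 := by
    rw [hf'def]
    simp only [hγ]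
    exact hs
  set h : S → ℚ := fun t => ∑ b : stabilizer G s₀, f' ((b : G) • t) with hh
  have h1 : h ∈ U := by
    have h2 : h = ∑ b : stabilizer G s₀, (fun t => f' ((b : G) • t)) := by
      funext t
      rw [Finset.sum_apply]
    rw [h2]
    exact Submodule.sum_mem _ fun b _ => hU f' hf' b
  have h3 : h ∈ (invF ℚ (stabilizer G s₀) : Submodule ℚ (S → ℚ)) := by
    intro b hb t
    rw [hh]
    simp only
    refine Fintype.sum_equiv (Equiv.mulRight (⟨b, hb⟩ : stabilizer G s₀)) _ _ ?_
    intro c
    simp only [Equiv.coe_mulRight, Subgroup.coe_mul, mul_smul]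
  have h4 : h s₀ ≠ 0 := by
    rw [hh]
    simp only
    have h5 : ∀ b : stabilizer G s₀, f' ((b : G) • s₀) = f' s₀ := by
      intro b
      rw [mem_stabilizer_iff.1 b.2]
    rw [Finset.sum_congr rfl fun b _ => h5 b, Finset.sum_const, nsmul_eq_mul]
    refine mul_ne_zero ?_ hs0
    rw [Finset.card_univ]
    exact_mod_cast Fintype.card_ne_zero
  intro hbot
  have h5 : h ∈ U ⊓ invF ℚ (stabilizer G s₀) := ⟨h1, h3⟩
  rw [hbot, Submodule.mem_bot] at h5
  apply h4
  rw [h5]
  rfl

omit [Finite G] in
/-- Dimension count for independent spaces. -/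
lemma types_sum_le (hind : StIndep) {n : ℕ} (U A : Fin n → Submodule ℚ (S → ℚ))
    (T : Submodule ℚ (S → ℚ)) (hirr : ∀ i, IsIrr G (U i))
    (hiso : ∀ i j, i ≠ j → ¬ IsoF G (U i) (U j)) (hAU : ∀ i, A i ≤ U i) (hAT : ∀ i, A i ≤ T) :
    ∑ i, finrank ℚ (A i) ≤ finrank ℚ T := by
  classical
  let φ : (∀ i, A i) →ₗ[ℚ] T := ∑ i, (Submodule.inclusion (hAT i)) ∘ₗ LinearMap.proj i
  have hval : ∀ f : (∀ i, A i), ((φ f : T) : S → ℚ) = ∑ i, ((f i : A i) : S → ℚ) := by
    intro f
    simp only [φ, LinearMap.sum_apply, LinearMap.comp_apply, LinearMap.proj_apply,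
      Submodule.coe_sum, Submodule.coe_inclusion]
  have hφ : Function.Injective φ := by
    rw [← LinearMap.ker_eq_bot, LinearMap.ker_eq_bot']
    intro f hf
    have h1 : ∑ i, ((f i : A i) : S → ℚ) = 0 := by
      rw [← hval, hf]
      rfl
    have h2 := hind S G n U hirr hiso (fun i => ((f i : A i) : S → ℚ))
      (fun i => hAU i (f i).2) h1
    funext i
    exact Subtype.ext (h2 i)
  have h1 := LinearMap.finrank_le_finrank_of_injective hφ
  rwa [Module.finrank_pi_fintype] at h1

end types

theorem types_of (h1 : StIndep) : StTypes := by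
  classical
  intro S G _ _ _ _ _ s₀ z
  set M : ℕ := Nat.card (orbitRel.Quotient (stabilizer G s₀) S) with hM
  let P : ℕ → Prop := fun n => ∃ U : Fin n → Submodule ℚ (S → ℚ),
    (∀ i, IsIrr G (U i) ∧ IsOddSp z (U i)) ∧ ∀ i j, i ≠ j → ¬ IsoF G (U i) (U j)
  have hsum : ∀ (n : ℕ) (U : Fin n → Submodule ℚ (S → ℚ)),
      (∀ i, IsIrr G (U i) ∧ IsOddSp z (U i)) → (∀ i j, i ≠ j → ¬ IsoF G (U i) (U j)) →
      ∑ i, finrank ℚ ↥(U i ⊓ invF ℚ (stabilizer G s₀)) ≤ M := by
    intro n U hU hiso
    exact (types_sum_le h1 U (fun i => U i ⊓ invF ℚ (stabilizer G s₀))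
      (invF ℚ (stabilizer G s₀)) (fun i => (hU i).1) hiso (fun i => inf_le_left)
      (fun i => inf_le_right)).trans (types_finrank_invF _)
  have hbound : ∀ n, P n → n ≤ M := by
    rintro n ⟨U, hU, hiso⟩
    refine le_trans ?_ (hsum n U hU hiso)
    calc n = ∑ _i : Fin n, 1 := by simp
      _ ≤ _ := by
        refine Finset.sum_le_sum fun i _ => ?_
        rw [Nat.one_le_iff_ne_zero, Ne, Submodule.finrank_eq_zero]
        exact types_inf_ne_bot s₀ (U i) (hU i).1.1 (hU i).1.2.1
  have hP0 : P 0 := ⟨fun i => i.elim0, fun i => i.elim0, fun i => i.elim0⟩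
  set n : ℕ := Nat.findGreatest P M with hn
  have hPn : P n := Nat.findGreatest_spec (P := P) (Nat.zero_le M) hP0
  have hmax : ¬ P (n + 1) := by
    intro h
    have h2 := Nat.le_findGreatest (hbound _ h) h
    omega
  obtain ⟨U, hU, hiso⟩ := hPn
  refine ⟨n, U, hU, ?_, hsum n U hU hiso, ?_⟩
  · intro U' hirr hodd
    by_contra hno
    push Not at hno
    apply hmax
    refine ⟨Fin.snoc (α := fun _ => Submodule ℚ (S → ℚ)) U U', ?_, ?_⟩
    · intro i
      refine Fin.lastCases ?_ (fun a => ?_) i
      · rw [Fin.snoc_last]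
        exact ⟨hirr, hodd⟩
      · rw [Fin.snoc_castSucc]
        exact hU a
    · intro i j
      refine Fin.lastCases ?_ (fun a => ?_) i
      · refine Fin.lastCases ?_ (fun b => ?_) j
        · intro h; exact absurd rfl h
        · intro _ h
          rw [Fin.snoc_last, Fin.snoc_castSucc] at h
          exact hno b (IsoF.symm hirr.2.1 h)
      · refine Fin.lastCases ?_ (fun b => ?_) j
        · intro _ h
          rw [Fin.snoc_last, Fin.snoc_castSucc] at h
          exact hno a h
        · intro hab h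
          rw [Fin.snoc_castSucc, Fin.snoc_castSucc] at h
          exact hiso a b (fun e => hab (by rw [e])) h
  · intro J hJ
    have h2 : ∀ i ∈ J, U i ≤ invF ℚ (Subgroup.normalClosure (stabilizer G s₀ : Set G)) := by
      intro i hi f hf b hb s
      have := kerSub_normal (U i) (hU i).1.2.1
      have h3 : Subgroup.normalClosure (stabilizer G s₀ : Set G) ≤ kerSub G (U i) := by
        apply Subgroup.normalClosure_le_normal
        intro c hc f' hf' t
        exact hJ i hi hf' c hc t
      exact h3 hb f hf s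
    have h3 := types_sum_le h1 U (fun i => if i ∈ J then U i else ⊥)
      (invF ℚ (Subgroup.normalClosure (stabilizer G s₀ : Set G))) (fun i => (hU i).1) hiso
      (fun i => by
        by_cases hi : i ∈ J
        · simp only [hi, if_true]; exact le_rfl
        · simp only [hi, if_false]; exact bot_le)
      (fun i => by
        by_cases hi : i ∈ J
        · simp only [hi, if_true]; exact h2 i hi
        · simp only [hi, if_false]; exact bot_le)
    refine le_trans ?_ (h3.trans (types_finrank_invF _))
    have h4 : ∀ i ∈ (Finset.univ : Finset (Fin n)),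
        finrank ℚ ↥(if i ∈ J then U i else (⊥ : Submodule ℚ (S → ℚ))) =
          if i ∈ J then finrank ℚ (U i) else 0 := by
      intro i _
      by_cases hi : i ∈ J
      · rw [if_pos hi, if_pos hi]
      · rw [if_neg hi, if_neg hi, finrank_bot]
    rw [Finset.sum_congr rfl h4, ← Finset.sum_filter]
    simp

end Pool.Agent.Lib.MP_640417_ag.Far
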