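import Pool.Agent.Lib.MP_640417_ag.Far.Spec
import Pool.Agent.Lib.MP_640417_ag.Far.Types
import Pool.Agent.Lib.MP_640417_ag.FpMain

/-!
# The group theoretic form of the theorem
-/

namespace Pool.Agent.Lib.MP_640417_ag.Far

open Module Finset MulAction

variable {S G : Type} [Fintype S] [Group G] [Finite G] [MulAction G S]

/-- Number of sign functions. -/
lemma ncard_isSgn_le [IsPretransitive G S] (z : G) (hzz : ∀ s : S, z • z • s = s) (X : Finset S)
    (hX : ∀ s, s ∈ X ↔ z • s ∉ X) (P : (S → ℤ) → Prop) :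
    {e : S → ℤ | IsSgn z e ∧ P e}.ncard ≤ 2 ^ X.card := by
  have h3 : Fact (Nat.Prime 3) := ⟨Nat.prime_three⟩
  have h1 := ncard_orth_le (p := 3) (G := G) (by norm_num) z hzz X hX ⊥ (by
    intro w hw s
    rw [(Submodule.mem_bot _).mp hw]
    simp) (by
    intro w hw γ
    rw [(Submodule.mem_bot _).mp hw]
    exact Submodule.zero_mem _) 0 le_rfl (by simp)
  rw [finrank_bot, pow_zero, mul_one] at h1
  have h2 : {e : S → ℤ | IsSgn z e ∧ P e}.ncard
      ≤ {e : S → ℤ | IsSgn z e ∧ ∀ w ∈ (⊥ : Submodule (ZMod 3) (S → ZMod 3)),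
        ∑ s, w s * (e s : ZMod 3) = 0}.ncard := by
    apply Set.ncard_le_ncard _ (finite_isSgn z _)
    rintro e ⟨he, -⟩
    refine ⟨he, fun w hw => ?_⟩
    rw [(Submodule.mem_bot _).mp hw]
    simp
  have h4 : ((2 ^ X.card : ℕ) : ℝ) = 2 ^ X.card := by push_cast; rfl
  rw [← h4] at h1
  exact h2.trans (by exact_mod_cast h1)

/-- Spaces of odd functions have dimension at most half the number of points. -/
lemma finrank_odd_le (z : G) (X : Finset S) (hX : ∀ s, s ∈ X ↔ z • s ∉ X)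
    (U : Submodule ℚ (S → ℚ)) (hU : IsOddSp z U) : finrank ℚ U ≤ X.card := by
  let ρ : (S → ℚ) →ₗ[ℚ] (X → ℚ) := LinearMap.funLeft ℚ ℚ (fun x : X => (x : S))
  have h1 : Function.Injective (ρ.comp U.subtype) := by
    rw [← LinearMap.ker_eq_bot, LinearMap.ker_eq_bot']
    intro f hf
    apply Subtype.ext
    funext s
    change f.1 s = 0
    have h2 : ∀ x ∈ X, f.1 x = 0 := fun x hx => congrFun hf ⟨x, hx⟩
    by_cases hs : s ∈ X
    · exact h2 s hs
    · have h3 : z • s ∈ X := by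
        by_contra h
        exact hs ((hX s).mpr h)
      have h4 := h2 _ h3
      rw [hU f.1 f.2] at h4
      linarith
  have h2 := LinearMap.finrank_le_finrank_of_injective h1
  rwa [finrank_fintype_fun_eq_card, Fintype.card_coe] at h2

/-- A nonzero stable odd space fixed by a point stabilizer separates `s₀` from `z • s₀` modulo the
normal closure of the stabilizer. -/
lemma notMem_orbit_of_le_invF [IsPretransitive G S] (s₀ : S) (z : G)
    (U : Submodule ℚ (S → ℚ)) (hU0 : U ≠ ⊥) (hU : IsStab G U) (hodd : IsOddSp z U)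
    (hinv : U ≤ invF ℚ (stabilizer G s₀)) :
    z • s₀ ∉ orbit (Subgroup.normalClosure ((stabilizer G s₀ : Subgroup G) : Set G)) s₀ := by
  have hn : (kerSub G U).Normal := kerSub_normal U hU
  have h1 : Subgroup.normalClosure ((stabilizer G s₀ : Subgroup G) : Set G) ≤ kerSub G U := by
    apply Subgroup.normalClosure_le_normal
    intro b hb f hf s
    exact hinv hf b hb s
  rintro ⟨⟨ν, hν⟩, hνs⟩
  apply hU0
  rw [Submodule.eq_bot_iff]
  have h2 : ∀ f ∈ U, f s₀ = 0 := by
    intro f hf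
    have h3 : f (z • s₀) = - f s₀ := hodd f hf s₀
    have h4 : f (ν • s₀) = f s₀ := h1 hν f hf s₀
    have h5 : ν • s₀ = z • s₀ := hνs
    rw [h5] at h4
    linarith
  intro f hf
  funext s
  obtain ⟨γ, hγ⟩ := MulAction.exists_smul_eq G s₀ s
  have h3 := h2 _ (hU f hf γ)
  simp only [hγ] at h3
  exact h3

/-- The share of sign functions with a nontrivial odd relation. -/
theorem main_abs (hTypes : StTypes) (hIrr : StIrrEx) (hBad : StBad) (hIndex : StIndex)
    (hTame : StTame) (hNum : StNum) : ∀ δ : ℝ, 0 < δ → δ < 1 / 2 → ∃ C : ℝ, 0 < C ∧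
    ∀ (S G : Type) [Fintype S] [Group G] [Finite G] [MulAction G S] [IsPretransitive G S]
      (s₀ : S) (z : G) (_ : ∀ γ : G, γ * z = z * γ) (_ : ∀ s : S, z • z • s = s)
      (_ : ∀ s : S, z • s ≠ s) (g d R : ℕ) (_ : Fintype.card S = 2 * g)
      (_ : z • s₀ ∉ orbit (Subgroup.normalClosure ((stabilizer G s₀ : Subgroup G) : Set G)) s₀ →
        Nat.card (orbitRel.Quotient
          (Subgroup.normalClosure ((stabilizer G s₀ : Subgroup G) : Set G)) S) ≤ d)
      (_ : Nat.card (orbitRel.Quotient (stabilizer G s₀) S) ≤ R)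
      (_ : (R : ℝ) ≤ (g : ℝ) ^ (1 - δ)),
      ({e : S → ℤ | IsSgn z e ∧ ∃ v : S → ℤ, v ≠ 0 ∧ (∀ s, v (z • s) = - v s) ∧
        ∀ γ : G, ∑ s, v s * e (γ • s) = 0}.ncard : ℝ)
      ≤ C * (g : ℝ) ^ δ * (d / Real.sqrt g + R / g) * 2 ^ g := by
  intro δ hδ hδ2
  obtain ⟨C, hC, hnum⟩ := hNum δ hδ hδ2
  refine ⟨C, hC, ?_⟩
  intro S G _ _ _ _ _ s₀ z hz hzz hzne g d R hcard hd hR hRg
  classical
  obtain ⟨X, hX⟩ := exists_transversal (fun s : S => z • s) hzz hzne
  have hXcard : X.card = g := by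
    have h1 := two_mul_card_transversal (fun s : S => z • s) hzz X hX
    omega
  have hg0 : 0 < g := by
    have h1 : 0 < Fintype.card S := Fintype.card_pos_iff.mpr ⟨s₀⟩
    omega
  have hg0' : (0 : ℝ) < g := by exact_mod_cast hg0
  have hXpow : (2 : ℝ) ^ X.card = 2 ^ g := by rw [hXcard]
  have h2g : (0 : ℝ) < 2 ^ g := by positivity
  obtain ⟨n, U, hU, hUex, hUsum, hUJ⟩ := hTypes S G s₀ z
  -- dimension data
  set D : Fin n → ℕ := fun i => finrank ℚ (U i) with hD
  set h : Fin n → ℕ := fun i => finrank ℚ ↥(U i ⊓ invF ℚ (stabilizer G s₀)) with hh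
  set N : Fin n → ℕ := fun i => (kerSub G (U i)).index with hN
  set x : Fin n → ℝ := fun i => ((badSet z (U i)).ncard : ℝ) / 2 ^ g with hx
  have hhD : ∀ i, h i ≤ D i := fun i => Submodule.finrank_mono inf_le_left
  have hh1 : ∀ i, 1 ≤ h i := by
    intro i
    have h1 := types_inf_ne_bot (G := G) s₀ (U i) (hU i).1.1 (hU i).1.2.1
    rw [Nat.one_le_iff_ne_zero]
    intro h0
    exact h1 (Submodule.finrank_eq_zero.mp h0)
  have hDg : ∀ i, D i ≤ g := fun i => hXcard ▸ finrank_odd_le z X hX (U i) (hU i).2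
  have hNpos : ∀ i, 0 < N i := fun i => Nat.pos_of_ne_zero Subgroup.index_ne_zero_of_finite
  have hsumR : ∑ i, h i ≤ R := hUsum.trans hR
  have hhR : ∀ i, (h i : ℝ) ≤ (g : ℝ) ^ (1 - δ) := by
    intro i
    have h1 : h i ≤ ∑ i, h i := Finset.single_le_sum (fun j _ => Nat.zero_le _) (Finset.mem_univ i)
    have h2 : (h i : ℝ) ≤ R := by exact_mod_cast h1.trans hsumR
    exact h2.trans hRg
  have hx0 : ∀ i, 0 ≤ x i := fun i => by positivity
  have hbadle : ∀ i, ((badSet z (U i)).ncard : ℝ) ≤ 2 ^ g := by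
    intro i
    have h1 := ncard_isSgn_le z hzz X hX (fun e => ∃ U' : Submodule ℚ (S → ℚ), IsStab G U' ∧
      IsoF G (U i) U' ∧ Perp e U')
    rw [hXcard] at h1
    have h2 : (((badSet z (U i)).ncard : ℕ) : ℝ) ≤ ((2 ^ g : ℕ) : ℝ) := by
      exact_mod_cast h1
    push_cast at h2
    exact h2
  have hx1 : ∀ i, x i ≤ 1 := by
    intro i
    rw [hx]
    exact (div_le_one h2g).mpr (hbadle i)
  have key : ∀ i, (h i = D i → x i ≤ C * D i * (g : ℝ) ^ (δ - 1 / 2)) ∧
      (h i < D i → x i ≤ C * h i * (g : ℝ) ^ (δ - 1)) := by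
    intro i
    have hb := hBad S G s₀ z hzz X hX (U i) (hU i).1.1 (hU i).1.2.1 (hU i).2
    apply hnum g (D i) (h i) (N i) (x i) (hh1 i) (hhD i) (hDg i) (hNpos i) (hhR i) (hx0 i) (hx1 i)
    · intro r hr
      have h1 := hIndex S G s₀ (U i) (hU i).1 r hr
      rw [hcard] at h1
      have h2 : ((N i : ℕ) : ℝ) ≤ (((2 * g) ^ r : ℕ) : ℝ) := by exact_mod_cast h1
      push_cast at h2
      exact h2
    · intro p hp hDp
      exact hTame S G (U i) (hU i).1.2.1 p hp hDp
    · intro p hp hp2 hpN a ha haD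
      have h1 := (hb p hp2 hpN).1 a ha (by rw [hXcard]; exact haD)
      rw [hXpow] at h1
      have h3 : ((p : ℝ) - 1) * x i = ((p : ℝ) - 1) * (badSet z (U i)).ncard / 2 ^ g := by
        rw [hx]
        ring
      rw [h3, div_le_iff₀ h2g]
      calc _ ≤ _ := h1
        _ = _ := by ring
    · intro p hp hp2 hpN
      have h1 := (hb p hp2 hpN).2
      rw [hXpow] at h1
      have h3 : ((p : ℝ) - 1) * x i = ((p : ℝ) - 1) * (badSet z (U i)).ncard / 2 ^ g := by
        rw [hx]
        ring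
      rw [h3, div_le_iff₀ h2g]
      calc _ ≤ _ := h1
        _ = _ := by ring
  -- the bad set is covered
  have hcover : {e : S → ℤ | IsSgn z e ∧ ∃ v : S → ℤ, v ≠ 0 ∧ (∀ s, v (z • s) = - v s) ∧
        ∀ γ : G, ∑ s, v s * e (γ • s) = 0} ⊆ ⋃ i ∈ (Finset.univ : Finset (Fin n)), badSet z (U i) := by
    rintro e ⟨he, v, hv0, hvz, hv⟩
    obtain ⟨U', hU'1, hU'2, hU'3⟩ := hIrr S G z hz e v hv0 hvz hv
    obtain ⟨i, hi⟩ := hUex U' hU'1 hU'2
    simp only [Finset.mem_univ, Set.iUnion_true, Set.mem_iUnion]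
    exact ⟨i, he, U', hU'1.2.1, hi, hU'3⟩
  have hfin : ∀ i, (badSet z (U i)).Finite := fun i => finite_isSgn z _
  have hsum : ({e : S → ℤ | IsSgn z e ∧ ∃ v : S → ℤ, v ≠ 0 ∧ (∀ s, v (z • s) = - v s) ∧
        ∀ γ : G, ∑ s, v s * e (γ • s) = 0}.ncard : ℝ) ≤ (∑ i, x i) * 2 ^ g := by
    have h1 : {e : S → ℤ | IsSgn z e ∧ ∃ v : S → ℤ, v ≠ 0 ∧ (∀ s, v (z • s) = - v s) ∧
        ∀ γ : G, ∑ s, v s * e (γ • s) = 0}.ncard ≤ ∑ i, (badSet z (U i)).ncard :=
      (Set.ncard_le_ncard hcover (Set.Finite.biUnion (Set.toFinite _) (fun i _ => hfin i))).trans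
        (Finset.set_ncard_biUnion_le _ _)
    have h2 : ((∑ i, (badSet z (U i)).ncard : ℕ) : ℝ) = (∑ i, x i) * 2 ^ g := by
      push_cast
      rw [Finset.sum_mul]
      apply Finset.sum_congr rfl
      intro i _
      rw [hx]
      field_simp
    rw [← h2]
    exact_mod_cast h1
  refine hsum.trans (mul_le_mul_of_nonneg_right ?_ h2g.le)
  -- split the types
  set J : Finset (Fin n) := Finset.univ.filter (fun i => U i ≤ invF ℚ (stabilizer G s₀)) with hJ
  rw [← Finset.sum_filter_add_sum_filter_not Finset.univ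
    (fun i => U i ≤ invF ℚ (stabilizer G s₀)) x]
  have hJsum : ∑ i ∈ J, x i ≤ C * (g : ℝ) ^ (δ - 1 / 2) * d := by
    rcases J.eq_empty_or_nonempty with hJe | ⟨j, hj⟩
    · rw [hJe, Finset.sum_empty]
      positivity
    · have hj' : U j ≤ invF ℚ (stabilizer G s₀) := (Finset.mem_filter.mp hj).2
      have hd' := hd (notMem_orbit_of_le_invF s₀ z (U j) (hU j).1.1 (hU j).1.2.1 (hU j).2 hj')
      have h1 : ∑ i ∈ J, D i ≤ d :=
        (hUJ J (fun i hi => (Finset.mem_filter.mp hi).2)).trans hd'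
      calc ∑ i ∈ J, x i ≤ ∑ i ∈ J, C * D i * (g : ℝ) ^ (δ - 1 / 2) := by
            apply Finset.sum_le_sum
            intro i hi
            apply (key i).1
            have h2 : U i ⊓ invF ℚ (stabilizer G s₀) = U i :=
              inf_eq_left.mpr (Finset.mem_filter.mp hi).2
            exact congrArg (fun W : Submodule ℚ (S → ℚ) => finrank ℚ W) h2
        _ = C * (g : ℝ) ^ (δ - 1 / 2) * ((∑ i ∈ J, D i : ℕ) : ℝ) := by
            push_cast
            rw [Finset.mul_sum]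
            apply Finset.sum_congr rfl
            intro i _
            ring
        _ ≤ C * (g : ℝ) ^ (δ - 1 / 2) * d := by
            apply mul_le_mul_of_nonneg_left _ (by positivity)
            exact_mod_cast h1
  have hJcsum : ∑ i ∈ Finset.univ.filter (fun i => ¬ U i ≤ invF ℚ (stabilizer G s₀)), x i
      ≤ C * (g : ℝ) ^ (δ - 1) * R := by
    calc ∑ i ∈ Finset.univ.filter (fun i => ¬ U i ≤ invF ℚ (stabilizer G s₀)), x i
        ≤ ∑ i ∈ Finset.univ.filter (fun i => ¬ U i ≤ invF ℚ (stabilizer G s₀)),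
          C * h i * (g : ℝ) ^ (δ - 1) := by
          apply Finset.sum_le_sum
          intro i hi
          apply (key i).2
          apply Submodule.finrank_lt_finrank_of_lt
          apply lt_of_le_of_ne inf_le_left
          intro h1
          exact (Finset.mem_filter.mp hi).2 (inf_eq_left.mp h1)
      _ = C * (g : ℝ) ^ (δ - 1) * ((∑ i ∈ Finset.univ.filter
          (fun i => ¬ U i ≤ invF ℚ (stabilizer G s₀)), h i : ℕ) : ℝ) := by
          push_cast
          rw [Finset.mul_sum]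
          apply Finset.sum_congr rfl
          intro i _
          ring
      _ ≤ C * (g : ℝ) ^ (δ - 1) * R := by
          apply mul_le_mul_of_nonneg_left _ (by positivity)
          have h1 : ∑ i ∈ Finset.univ.filter (fun i => ¬ U i ≤ invF ℚ (stabilizer G s₀)), h i
              ≤ ∑ i, h i := Finset.sum_le_sum_of_subset (Finset.filter_subset _ _)
          exact_mod_cast h1.trans hsumR
  refine (add_le_add hJsum hJcsum).trans (le_of_eq ?_)
  have e1 : (g : ℝ) ^ (δ - 1 / 2) = (g : ℝ) ^ δ / Real.sqrt g := by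
    rw [Real.rpow_sub hg0', Real.sqrt_eq_rpow]
  have e2 : (g : ℝ) ^ (δ - 1) = (g : ℝ) ^ δ / g := by
    rw [Real.rpow_sub hg0', Real.rpow_one]
  rw [e1, e2]
  ring

end Pool.Agent.Lib.MP_640417_ag.Far
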