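import Pool.Agent.Lib.MP_640417_ag.Far.Spec

/-!
# The numerical bound for one type
-/

namespace Pool.Agent.Lib.MP_640417_ag.Far

open Module Finset

/-- The asymptotic facts which are used. -/
lemma num_large (δ : ℝ) (hδ : 0 < δ) (hδ' : δ < 1 / 2) (P₀ : ℝ) :
    ∃ g₀ : ℕ, 1 ≤ g₀ ∧ ∀ g : ℕ, g₀ ≤ g →
      Real.log (4 * g) ≤ (g : ℝ) ^ (δ / 8) * (Real.log 2 / 2) ∧ 2 ≤ (g : ℝ) ^ (δ / 8) ∧
      P₀ ≤ (g : ℝ) ^ (3 * δ / 8) := by
  have hlog2 : 0 < Real.log 2 := Real.log_pos (by norm_num)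
  have h1 : ∀ᶠ x : ℝ in Filter.atTop, ‖Real.log x‖ ≤ (Real.log 2 / 8) * ‖x ^ (δ / 8)‖ :=
    (isLittleO_log_rpow_atTop (r := δ / 8) (by positivity)).def (by positivity)
  have h1' : ∀ᶠ x : ℝ in Filter.atTop,
      ‖Real.log (4 * x)‖ ≤ (Real.log 2 / 8) * ‖(4 * x) ^ (δ / 8)‖ :=
    (Filter.tendsto_id.const_mul_atTop (by norm_num : (0 : ℝ) < 4)).eventually h1
  have h2 : ∀ᶠ x : ℝ in Filter.atTop, 2 ≤ x ^ (δ / 8) :=
    (tendsto_rpow_atTop (y := δ / 8) (by positivity)).eventually_ge_atTop 2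
  have h3 : ∀ᶠ x : ℝ in Filter.atTop, P₀ ≤ x ^ (3 * δ / 8) :=
    (tendsto_rpow_atTop (y := 3 * δ / 8) (by positivity)).eventually_ge_atTop P₀
  have h4 : ∀ᶠ x : ℝ in Filter.atTop, Real.log (4 * x) ≤ x ^ (δ / 8) * (Real.log 2 / 2) ∧
      2 ≤ x ^ (δ / 8) ∧ P₀ ≤ x ^ (3 * δ / 8) := by
    filter_upwards [h1', h2, h3, Filter.eventually_gt_atTop 0] with x hx1 hx2 hx3 hx4
    refine ⟨?_, hx2, hx3⟩
    have h5 : Real.log (4 * x) ≤ (Real.log 2 / 8) * (4 * x) ^ (δ / 8) := by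
      have := le_trans (le_abs_self _) hx1
      rwa [Real.norm_of_nonneg (by positivity)] at this
    have h6 : (4 * x) ^ (δ / 8) ≤ 4 * x ^ (δ / 8) := by
      rw [Real.mul_rpow (by norm_num) hx4.le]
      have h7 : (4 : ℝ) ^ (δ / 8) ≤ 4 ^ (1 : ℝ) :=
        Real.rpow_le_rpow_of_exponent_le (by norm_num) (by linarith)
      rw [Real.rpow_one] at h7
      exact mul_le_mul_of_nonneg_right h7 (by positivity)
    calc Real.log (4 * x) ≤ (Real.log 2 / 8) * (4 * x) ^ (δ / 8) := h5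
      _ ≤ (Real.log 2 / 8) * (4 * x ^ (δ / 8)) := by gcongr
      _ = x ^ (δ / 8) * (Real.log 2 / 2) := by ring
  obtain ⟨g₀, hg₀⟩ := Filter.eventually_atTop.1
    ((tendsto_natCast_atTop_atTop (R := ℝ)).eventually h4)
  exact ⟨max g₀ 1, le_max_right _ _, fun g hg => hg₀ g (le_trans (le_max_left _ _) hg)⟩

/-- The case of a large degree. -/
lemma num_two {δ : ℝ} {g D h N : ℕ} {x : ℝ} (hδ : 0 < δ) (hh : 1 ≤ h) (hDg : D ≤ g)
    (hD : 1 ≤ D) (hx0 : 0 ≤ x)
    (hl1 : Real.log (4 * g) ≤ (g : ℝ) ^ (δ / 8) * (Real.log 2 / 2))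
    (hc : (h : ℝ) * (g : ℝ) ^ (δ / 8) < D)
    (htame : ∀ p : ℕ, p.Prime → D + 1 < p → ¬ p ∣ N)
    (hB : ∀ (p : ℕ) [Fact p.Prime], p ≠ 2 → ¬ p ∣ N →
      ((p : ℝ) - 1) * x ≤ ((p : ℝ) ^ h - 1) * (1 / 2) ^ D) :
    x ≤ h * (g : ℝ) ^ (δ - 1) := by
  obtain ⟨p, hp, hp1, hp2⟩ := Nat.exists_prime_lt_and_le_two_mul (D + 1) (by omega)
  have : Fact p.Prime := ⟨hp⟩
  have hb := hB p (by omega) (htame p hp hp1)
  have hlog2 : 0 < Real.log 2 := Real.log_pos (by norm_num)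
  have hg1 : (1 : ℝ) ≤ g := by exact_mod_cast le_trans hD hDg
  have hg0 : (0 : ℝ) < g := by linarith
  have hh1 : (1 : ℝ) ≤ h := by exact_mod_cast hh
  have hp3 : (3 : ℝ) ≤ p := by
    have : 3 ≤ p := by omega
    exact_mod_cast this
  have hx1 : x ≤ (p : ℝ) ^ h * (1 / 2) ^ D := by
    have e1 : x ≤ ((p : ℝ) - 1) * x := by nlinarith
    have e2 : ((p : ℝ) ^ h - 1) * (1 / 2) ^ D ≤ (p : ℝ) ^ h * (1 / 2) ^ D := by
      apply mul_le_mul_of_nonneg_right _ (by positivity)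
      linarith
    linarith
  have hp4 : (p : ℝ) ≤ 4 * g := by
    have : p ≤ 4 * g := by omega
    exact_mod_cast this
  have hph : (p : ℝ) ^ h ≤ Real.exp (D * (Real.log 2 / 2)) := by
    calc (p : ℝ) ^ h ≤ (4 * g) ^ h := by gcongr
      _ = Real.exp (h * Real.log (4 * g)) := by
        rw [Real.exp_nat_mul, Real.exp_log (by positivity)]
      _ ≤ Real.exp (D * (Real.log 2 / 2)) := by
        apply Real.exp_le_exp.2
        calc (h : ℝ) * Real.log (4 * g) ≤ h * ((g : ℝ) ^ (δ / 8) * (Real.log 2 / 2)) := by gcongr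
          _ = (h * (g : ℝ) ^ (δ / 8)) * (Real.log 2 / 2) := by ring
          _ ≤ D * (Real.log 2 / 2) := by gcongr
  have hhalf : ((1 : ℝ) / 2) ^ D = Real.exp (- (D * Real.log 2)) := by
    rw [Real.exp_neg, Real.exp_nat_mul, Real.exp_log (by norm_num), one_div, inv_pow]
  have hx2 : x ≤ Real.exp (- (D * (Real.log 2 / 2))) := by
    calc x ≤ (p : ℝ) ^ h * (1 / 2) ^ D := hx1
      _ ≤ Real.exp (D * (Real.log 2 / 2)) * Real.exp (- (D * Real.log 2)) := by
        rw [hhalf]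
        gcongr
      _ = Real.exp (- (D * (Real.log 2 / 2))) := by
        rw [← Real.exp_add]
        congr 1
        ring
  have hlg : Real.log g ≤ D * (Real.log 2 / 2) := by
    have e1 : Real.log g ≤ Real.log (4 * g) := Real.log_le_log hg0 (by linarith)
    have e2 : (g : ℝ) ^ (δ / 8) ≤ D := by
      have : (0 : ℝ) ≤ (g : ℝ) ^ (δ / 8) := by positivity
      nlinarith
    have e3 : (g : ℝ) ^ (δ / 8) * (Real.log 2 / 2) ≤ D * (Real.log 2 / 2) := by gcongr
    linarith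
  calc x ≤ Real.exp (- (D * (Real.log 2 / 2))) := hx2
    _ ≤ Real.exp (- Real.log g) := Real.exp_le_exp.2 (by linarith)
    _ = (g : ℝ) ^ (-1 : ℝ) := by
      rw [Real.exp_neg, Real.exp_log hg0, Real.rpow_neg_one]
    _ ≤ (g : ℝ) ^ (δ - 1) := Real.rpow_le_rpow_of_exponent_le hg1 (by linarith)
    _ ≤ h * (g : ℝ) ^ (δ - 1) := by
      have : (0 : ℝ) ≤ (g : ℝ) ^ (δ - 1) := by positivity
      nlinarith

/-- The number of generators. -/
lemma num_exponent {D h : ℕ} (hh : 1 ≤ h) (hhD : h ≤ D) :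
    ∃ r : ℕ, (r : ℝ) ≤ (D : ℝ) / h * Real.log D + 1 ∧
      (D : ℝ) * (1 - (h : ℝ) / D) ^ r < 1 := by
  have hh0 : (0 : ℝ) < h := by exact_mod_cast hh
  have hD1 : (1 : ℝ) ≤ D := by exact_mod_cast le_trans hh hhD
  have hD0 : (0 : ℝ) < D := by linarith
  have hlog : 0 ≤ Real.log D := Real.log_nonneg hD1
  refine ⟨⌊(D : ℝ) / h * Real.log D⌋₊ + 1, ?_, ?_⟩
  · push_cast
    have := Nat.floor_le (a := (D : ℝ) / h * Real.log D) (by positivity)
    linarith
  · set r := ⌊(D : ℝ) / h * Real.log D⌋₊ + 1 with hr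
    have h1 : (D : ℝ) / h * Real.log D < r := by
      rw [hr]
      push_cast
      exact Nat.lt_floor_add_one _
    have h2 : Real.log D < r * (h / D) := by
      have e : Real.log D = ((D : ℝ) / h * Real.log D) * (h / D) := by
        field_simp
      rw [e]
      exact mul_lt_mul_of_pos_right h1 (by positivity)
    have hle : (h : ℝ) / D ≤ 1 := by
      rw [div_le_one hD0]
      exact_mod_cast hhD
    have h3 : (1 - (h : ℝ) / D) ^ r ≤ Real.exp (- (r * (h / D))) := by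
      calc (1 - (h : ℝ) / D) ^ r ≤ (Real.exp (- (h / D))) ^ r := by
            apply pow_le_pow_left₀ (by linarith)
            have := Real.add_one_le_exp (- ((h : ℝ) / D))
            linarith
        _ = Real.exp (- (r * (h / D))) := by
            rw [← Real.exp_nat_mul]
            congr 1
            ring
    calc (D : ℝ) * (1 - (h : ℝ) / D) ^ r ≤ D * Real.exp (- (r * (h / D))) := by gcongr
      _ < D * Real.exp (- Real.log D) := by
        apply mul_lt_mul_of_pos_left _ hD0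
        exact Real.exp_lt_exp.2 (by linarith)
      _ = 1 := by
        rw [Real.exp_neg, Real.exp_log hD0, mul_inv_cancel₀ hD0.ne']

/-- The case of a small degree: the choice of the prime. -/
lemma num_one {δ P₀ : ℝ} (hP : ∀ P : ℝ, P₀ ≤ P → ∀ N : ℕ, 0 < N → 4 * Real.log N ≤ P →
    ∃ p : ℕ, p.Prime ∧ P / 8 < p ∧ (p : ℝ) ≤ P ∧ ¬ p ∣ N ∧ p ≠ 2)
    {g D h N : ℕ} {x : ℝ} (hδ : 0 < δ) (hh : 1 ≤ h) (hhD : h ≤ D) (hDg : D ≤ g)
    (hN : 0 < N) (hhg : (h : ℝ) ≤ (g : ℝ) ^ (1 - δ)) (hx0 : 0 ≤ x)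
    (hl1 : Real.log (4 * g) ≤ (g : ℝ) ^ (δ / 8) * (Real.log 2 / 2))
    (hl2 : 2 ≤ (g : ℝ) ^ (δ / 8)) (hl3 : P₀ ≤ (g : ℝ) ^ (3 * δ / 8))
    (hc : (D : ℝ) ≤ h * (g : ℝ) ^ (δ / 8))
    (hr : ∀ r : ℕ, (D : ℝ) * (1 - (h : ℝ) / D) ^ r < 1 → (N : ℝ) ≤ (2 * g : ℝ) ^ r)
    (hA : ∀ (p : ℕ) [Fact p.Prime], p ≠ 2 → ¬ p ∣ N → ∀ a : ℝ, 0 ≤ a → a * D ≤ g →
      ((p : ℝ) - 1) * x ≤ ((p : ℝ) ^ h - 1) * cosAvg p a ^ D) :
    (h = D → x ≤ 48 * D * (g : ℝ) ^ (δ - 1 / 2)) ∧ (h < D → x ≤ 384 * h * (g : ℝ) ^ (δ - 1)) := by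
  have hlog2 : 0 < Real.log 2 := Real.log_pos (by norm_num)
  have hlog2' : Real.log 2 < 0.6931471808 := Real.log_two_lt_d9
  have hD : 1 ≤ D := le_trans hh hhD
  have hg1 : (1 : ℝ) ≤ g := by exact_mod_cast le_trans hD hDg
  have hg0 : (0 : ℝ) < g := by linarith
  have hh1 : (1 : ℝ) ≤ h := by exact_mod_cast hh
  have hD1 : (1 : ℝ) ≤ D := by exact_mod_cast hD
  have hD0 : (0 : ℝ) < D := by linarith
  have hDgR : (D : ℝ) ≤ g := by exact_mod_cast hDg
  set G : ℝ := (g : ℝ) with hG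
  set t : ℝ := G ^ (δ / 8) with ht
  have ht0 : 0 < t := by linarith
  have htpow : ∀ k : ℕ, t ^ k = G ^ (k * δ / 8) := by
    intro k
    rw [ht, ← Real.rpow_natCast, ← Real.rpow_mul hg0.le]
    congr 1
    ring
  have ht8 : t ^ 8 = G ^ δ := by
    rw [htpow 8]
    congr 1
    push_cast
    ring
  have ht3 : t ^ 3 = G ^ (3 * δ / 8) := by
    rw [htpow 3]
    norm_num
  -- the size of P
  set y : ℝ := G / (D * t) with hy
  have hy0 : 0 < y := by positivity
  have hGt : D * t ^ 7 ≤ G := by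
    calc (D : ℝ) * t ^ 7 ≤ (h * t) * t ^ 7 := by gcongr
      _ = h * t ^ 8 := by ring
      _ ≤ G ^ (1 - δ) * G ^ δ := by
        rw [ht8]
        gcongr
      _ = G := by
        rw [← Real.rpow_add hg0]
        norm_num
  have hy6 : (t ^ 3) ^ 2 ≤ y := by
    rw [hy, le_div_iff₀ (by positivity)]
    calc (t ^ 3) ^ 2 * (D * t) = D * t ^ 7 := by ring
      _ ≤ G := hGt
  have hPt : t ^ 3 ≤ Real.sqrt y := Real.le_sqrt_of_sq_le hy6
  set P := Real.sqrt y with hPdef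
  have hP2 : P ^ 2 = y := Real.sq_sqrt hy0.le
  have hP0 : 0 < P := Real.sqrt_pos.2 hy0
  -- log N
  obtain ⟨r, hr1, hr2⟩ := num_exponent hh hhD
  have hNr := hr r hr2
  have hlogG : Real.log G ≤ t * (Real.log 2 / 2) :=
    le_trans (Real.log_le_log hg0 (by linarith)) hl1
  have hlog2G : Real.log (2 * G) ≤ t * (Real.log 2 / 2) :=
    le_trans (Real.log_le_log (by linarith) (by linarith)) hl1
  have hlog2G0 : 0 ≤ Real.log (2 * G) := Real.log_nonneg (by linarith)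
  have hrle : (r : ℝ) ≤ t * (t * (Real.log 2 / 2)) + 1 := by
    have e1 : (D : ℝ) / h ≤ t := by
      rw [div_le_iff₀ (by linarith)]
      linarith
    have e2 : Real.log D ≤ t * (Real.log 2 / 2) :=
      le_trans (Real.log_le_log hD0 hDgR) hlogG
    have e3 : 0 ≤ Real.log D := Real.log_nonneg hD1
    have e4 : (D : ℝ) / h * Real.log D ≤ t * (t * (Real.log 2 / 2)) := by
      apply mul_le_mul e1 e2 e3 ht0.le
    linarith
  have hlogN : Real.log N ≤ (t * (t * (Real.log 2 / 2)) + 1) * (t * (Real.log 2 / 2)) := by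
    have hN0 : (0 : ℝ) < N := by exact_mod_cast hN
    calc Real.log N ≤ Real.log ((2 * G) ^ r) := Real.log_le_log hN0 hNr
      _ = r * Real.log (2 * G) := by rw [Real.log_pow]
      _ ≤ (t * (t * (Real.log 2 / 2)) + 1) * (t * (Real.log 2 / 2)) := by
        apply mul_le_mul hrle hlog2G hlog2G0
        positivity
  have h4N : 4 * Real.log N ≤ P := by
    have e1 : 4 * ((t * (t * (Real.log 2 / 2)) + 1) * (t * (Real.log 2 / 2))) ≤ t ^ 3 := by
      set c := Real.log 2 with hcdef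
      have hc1 : c ≤ 0.7 := by linarith
      have e2 : 4 * ((t * (t * (c / 2)) + 1) * (t * (c / 2))) = c ^ 2 * t ^ 3 + 2 * c * t := by
        ring
      rw [e2]
      have e3 : c ^ 2 ≤ 0.49 := by
        calc c ^ 2 ≤ 0.7 ^ 2 := by gcongr
          _ = 0.49 := by norm_num
      have e4 : 4 * t ≤ t ^ 3 := by
        have : 4 ≤ t ^ 2 := by
          calc (4 : ℝ) = 2 ^ 2 := by norm_num
            _ ≤ t ^ 2 := by gcongr
        calc 4 * t ≤ t ^ 2 * t := by gcongr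
          _ = t ^ 3 := by ring
      have e5 : 0 < t ^ 3 := by positivity
      have e6 : 2 * c * t ≤ 0.35 * t ^ 3 := by
        calc 2 * c * t ≤ 2 * 0.7 * t := by gcongr
          _ = 0.35 * (4 * t) := by ring
          _ ≤ 0.35 * t ^ 3 := by gcongr
      have e7 : c ^ 2 * t ^ 3 ≤ 0.49 * t ^ 3 := by gcongr
      linarith
    linarith
  obtain ⟨p, hp, hp8, hpP, hpN, hp2⟩ := hP P (le_trans (by rw [ht3]; exact hl3) hPt) N hN h4N
  have : Fact p.Prime := ⟨hp⟩
  have hp3 : (3 : ℝ) ≤ p := by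
    have h2 := hp.two_le
    have : 3 ≤ p := by omega
    exact_mod_cast this
  have hp0 : (0 : ℝ) < p := by linarith
  have hκ0 : 0 ≤ cosAvg p (G / D) := cosAvg_nonneg _
  have hmain := hA p hp2 hpN (G / D) (by positivity) (by rw [div_mul_cancel₀ _ hD0.ne'])
  -- the power of the average
  have hp2y : (p : ℝ) ^ 2 ≤ y := by
    rw [← hP2]
    gcongr
  have hp2t : (p : ℝ) ^ 2 * t ≤ G / D := by
    have : y * t = G / D := by
      rw [hy]
      field_simp
    rw [← this]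
    gcongr
  have hpG : (p : ℝ) ≤ G := by
    have e1 : (p : ℝ) ≤ p ^ 2 * t := by
      have k1 : (1 : ℝ) ≤ p := by linarith
      have k2 : (1 : ℝ) ≤ t := by linarith
      calc (p : ℝ) = p * 1 * 1 := by ring
        _ ≤ p * p * t := by gcongr
        _ = p ^ 2 * t := by ring
    have e2 : G / D ≤ G := div_le_self hg0.le hD1
    linarith
  have hexp : (p : ℝ) * Real.exp (-(2 * (G / D) / (p : ℝ) ^ 2)) ≤ 1 / D := by
    have e1 : t ≤ (G / D) / (p : ℝ) ^ 2 := by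
      rw [le_div_iff₀ (by positivity)]
      linarith
    have e2 : Real.exp (-(2 * (G / D) / (p : ℝ) ^ 2)) ≤ Real.exp (- (2 * Real.log G)) := by
      apply Real.exp_le_exp.2
      have e3 : Real.log G ≤ t := by
        have k1 : t * (Real.log 2 / 2) ≤ t * 1 := mul_le_mul_of_nonneg_left (by linarith) ht0.le
        linarith
      have e4 : 2 * (G / D) / (p : ℝ) ^ 2 = 2 * ((G / D) / (p : ℝ) ^ 2) := by ring
      rw [e4]
      linarith
    have e5 : Real.exp (- (2 * Real.log G)) = 1 / G ^ 2 := by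
      rw [Real.exp_neg, two_mul, Real.exp_add, Real.exp_log hg0, one_div, sq]
    rw [e5] at e2
    calc (p : ℝ) * Real.exp (-(2 * (G / D) / (p : ℝ) ^ 2)) ≤ G * (1 / G ^ 2) := by
          apply mul_le_mul hpG e2 (Real.exp_pos _).le hg0.le
      _ = 1 / G := by
          field_simp
      _ ≤ 1 / D := one_div_le_one_div_of_le hD0 hDgR
  have hpk : ((p : ℝ) * cosAvg p (G / D)) ^ D ≤ 3 := by
    have e1 := mul_cosAvg_le hp2 (G / D) (by positivity)
    have e2 : (p : ℝ) * cosAvg p (G / D) ≤ Real.exp (1 / D) := by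
      have := Real.add_one_le_exp (1 / (D : ℝ))
      linarith
    calc ((p : ℝ) * cosAvg p (G / D)) ^ D ≤ (Real.exp (1 / D)) ^ D := by
          apply pow_le_pow_left₀ (by positivity) e2
      _ = Real.exp 1 := by
          rw [← Real.exp_nat_mul]
          congr 1
          field_simp
      _ ≤ 3 := by
          have := Real.exp_one_lt_d9
          linarith
  rw [mul_pow] at hpk
  have hmain2 : (p : ℝ) * x ≤ 2 * (p ^ h * cosAvg p (G / D) ^ D) := by
    have e1 : (p : ℝ) * x ≤ 2 * (((p : ℝ) - 1) * x) := by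
      have k1 : 0 ≤ ((p : ℝ) - 2) * x := mul_nonneg (by linarith) hx0
      have k2 : 2 * (((p : ℝ) - 1) * x) - p * x = ((p : ℝ) - 2) * x := by ring
      linarith
    have e2 : ((p : ℝ) ^ h - 1) * cosAvg p (G / D) ^ D ≤ p ^ h * cosAvg p (G / D) ^ D := by
      apply mul_le_mul_of_nonneg_right _ (by positivity)
      linarith
    linarith
  constructor
  · intro hhD'
    have e1 : (p : ℝ) * x ≤ 6 := by
      rw [hhD'] at hmain2
      linarith
    have e2 : P * x ≤ 48 := by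
      have : P / 8 * x ≤ p * x := by gcongr
      linarith
    have e3 : 1 ≤ P * (D * G ^ (δ - 1 / 2)) := by
      rw [← one_le_sq_iff₀ (by positivity), mul_pow, hP2, mul_pow, ← Real.rpow_natCast (G ^ _),
        ← Real.rpow_mul hg0.le]
      have e4 : G ^ ((δ - 1 / 2) * ((2 : ℕ) : ℝ)) = G ^ (2 * δ) / G := by
        rw [← Real.rpow_sub_one hg0.ne']
        congr 1
        push_cast
        ring
      rw [e4, hy]
      have e5 : G / (D * t) * ((D : ℝ) ^ 2 * (G ^ (2 * δ) / G)) = D * (G ^ (2 * δ) / t) := by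
        field_simp
      rw [e5]
      have e6 : 1 ≤ G ^ (2 * δ) / t := by
        rw [one_le_div ht0, ht]
        exact Real.rpow_le_rpow_of_exponent_le hg1 (by linarith)
      exact one_le_mul_of_one_le_of_one_le hD1 e6
    calc x = x * 1 := by ring
      _ ≤ x * (P * (D * G ^ (δ - 1 / 2))) := by gcongr
      _ = (P * x) * (D * G ^ (δ - 1 / 2)) := by ring
      _ ≤ 48 * (D * G ^ (δ - 1 / 2)) := by gcongr
      _ = 48 * D * G ^ (δ - 1 / 2) := by ring
  · intro hlt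
    have e1 : (p : ℝ) ^ 2 * x ≤ 6 := by
      have e2 : (p : ℝ) ≤ p ^ (D - h) := by
        calc (p : ℝ) = p ^ 1 := by ring
          _ ≤ p ^ (D - h) := pow_le_pow_right₀ (by linarith) (by omega)
      calc (p : ℝ) ^ 2 * x = p * (p * x) := by ring
        _ ≤ p ^ (D - h) * (2 * (p ^ h * cosAvg p (G / D) ^ D)) := by
          apply mul_le_mul e2 hmain2 (by positivity) (by positivity)
        _ = 2 * ((p : ℝ) ^ D * cosAvg p (G / D) ^ D) := by
          have : (p : ℝ) ^ D = p ^ (D - h) * p ^ h := by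
            rw [← pow_add]
            congr 1
            omega
          rw [this]
          ring
        _ ≤ 6 := by linarith
    have e3 : y * x ≤ 384 := by
      have e4 : (P / 8) ^ 2 ≤ (p : ℝ) ^ 2 := by gcongr
      have e5 : (P / 8) ^ 2 * x ≤ p ^ 2 * x := by gcongr
      have e6 : (P / 8) ^ 2 = y / 64 := by
        rw [div_pow, hP2]
        norm_num
      rw [e6] at e5
      linarith
    have e7 : 1 ≤ y * (h * G ^ (δ - 1)) := by
      have e8 : G ^ (δ - 1) = G ^ δ / G := Real.rpow_sub_one hg0.ne' _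
      have e9 : D * t ≤ h * t ^ 8 := by
        have : t * t ≤ t ^ 8 := by
          calc t * t = t ^ 2 := by ring
            _ ≤ t ^ 8 := pow_le_pow_right₀ (by linarith) (by norm_num)
        calc (D : ℝ) * t ≤ (h * t) * t := by gcongr
          _ = h * (t * t) := by ring
          _ ≤ h * t ^ 8 := by gcongr
      rw [e8, hy, ← ht8]
      have e10 : G / (D * t) * (h * (t ^ 8 / G)) = (h * t ^ 8) / (D * t) := by
        field_simp
      rw [e10, one_le_div (by positivity)]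
      exact e9
    calc x = x * 1 := by ring
      _ ≤ x * (y * (h * G ^ (δ - 1))) := by gcongr
      _ = (y * x) * (h * G ^ (δ - 1)) := by ring
      _ ≤ 384 * (h * G ^ (δ - 1)) := by gcongr
      _ = 384 * h * G ^ (δ - 1) := by ring

/-- The numerical bound for one type. -/
theorem num_of (h1 : StPrime) : StNum := by
  obtain ⟨P₀, hP⟩ := h1
  intro δ hδ hδ'
  obtain ⟨g₀, hg₀, hL⟩ := num_large δ hδ hδ' P₀
  refine ⟨384 + g₀, by positivity, ?_⟩
  intro g D h N x hh hhD hDg hN hhg hx0 hx1 hr htame hA hB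
  have hD : 1 ≤ D := le_trans hh hhD
  have hg1 : (1 : ℝ) ≤ g := by exact_mod_cast le_trans hD hDg
  have hg0 : (0 : ℝ) < g := by linarith
  have hh1 : (1 : ℝ) ≤ h := by exact_mod_cast hh
  have hD1 : (1 : ℝ) ≤ D := by exact_mod_cast hD
  have hg₀' : (1 : ℝ) ≤ g₀ := by exact_mod_cast hg₀
  have hq1 : 0 < (g : ℝ) ^ (δ - 1 / 2) := by positivity
  have hq2 : 0 < (g : ℝ) ^ (δ - 1) := by positivity
  by_cases hgs : g < g₀
  · have hgs' : (g : ℝ) ≤ g₀ := by exact_mod_cast hgs.le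
    have e1 : 1 ≤ (g : ℝ) * (g : ℝ) ^ (δ - 1) := by
      rw [Real.rpow_sub_one hg0.ne', mul_div_cancel₀ _ hg0.ne']
      exact Real.one_le_rpow hg1 hδ.le
    have e2 : (g : ℝ) ^ (δ - 1) ≤ (g : ℝ) ^ (δ - 1 / 2) :=
      Real.rpow_le_rpow_of_exponent_le hg1 (by linarith)
    have e3 : 1 ≤ (384 + g₀ : ℝ) * (g : ℝ) ^ (δ - 1) := by
      have : (g : ℝ) * (g : ℝ) ^ (δ - 1) ≤ (384 + g₀ : ℝ) * (g : ℝ) ^ (δ - 1) := by
        gcongr
        linarith
      linarith
    constructor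
    · intro _
      calc x ≤ 1 := hx1
        _ ≤ (384 + g₀ : ℝ) * (g : ℝ) ^ (δ - 1) := e3
        _ ≤ (384 + g₀ : ℝ) * (g : ℝ) ^ (δ - 1 / 2) := by gcongr
        _ = (384 + g₀ : ℝ) * 1 * (g : ℝ) ^ (δ - 1 / 2) := by ring
        _ ≤ (384 + g₀ : ℝ) * D * (g : ℝ) ^ (δ - 1 / 2) := by gcongr
    · intro _
      calc x ≤ 1 := hx1
        _ ≤ (384 + g₀ : ℝ) * (g : ℝ) ^ (δ - 1) := e3
        _ = (384 + g₀ : ℝ) * 1 * (g : ℝ) ^ (δ - 1) := by ring
        _ ≤ (384 + g₀ : ℝ) * h * (g : ℝ) ^ (δ - 1) := by gcongr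
  · push Not at hgs
    obtain ⟨hl1, hl2, hl3⟩ := hL g hgs
    by_cases hc : (D : ℝ) ≤ h * (g : ℝ) ^ (δ / 8)
    · obtain ⟨k1, k2⟩ := num_one hP hδ hh hhD hDg hN hhg hx0 hl1 hl2 hl3 hc hr hA
      constructor
      · intro e
        calc x ≤ 48 * D * (g : ℝ) ^ (δ - 1 / 2) := k1 e
          _ ≤ (384 + g₀ : ℝ) * D * (g : ℝ) ^ (δ - 1 / 2) := by
            gcongr
            linarith
      · intro e
        calc x ≤ 384 * h * (g : ℝ) ^ (δ - 1) := k2 e
          _ ≤ (384 + g₀ : ℝ) * h * (g : ℝ) ^ (δ - 1) := by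
            gcongr
            linarith
    · push Not at hc
      have k := num_two hδ hh hDg hD hx0 hl1 hc htame hB
      constructor
      · intro e
        exfalso
        rw [e] at hc
        nlinarith
      · intro _
        calc x ≤ h * (g : ℝ) ^ (δ - 1) := k
          _ = 1 * h * (g : ℝ) ^ (δ - 1) := by ring
          _ ≤ (384 + g₀ : ℝ) * h * (g : ℝ) ^ (δ - 1) := by
            gcongr
            linarith

end Pool.Agent.Lib.MP_640417_ag.Far
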