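import Pool.Agent.Lib.MP_640417_ag.Far.Spec

/-!
# Orbits on pairs

The orbits of a stabilizer inject into the orbits on pairs.
-/

namespace Pool.Agent.Lib.MP_640417_ag.Far

open MulAction

theorem pairs : StPairs := by
  intro S G _ _ _ _ s₀
  have hfin : Finite (orbitRel.Quotient G (S × S)) :=
    inferInstanceAs (Finite (Quotient (orbitRel G (S × S))))
  let φ : orbitRel.Quotient (stabilizer G s₀) S → orbitRel.Quotient G (S × S) :=
    Quotient.lift (fun s => (Quotient.mk (orbitRel G (S × S)) (s₀, s) :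
      orbitRel.Quotient G (S × S))) (by
      intro a b hab
      obtain ⟨⟨γ, hγ⟩, hab⟩ := (orbitRel_apply.1 hab)
      apply Quotient.sound
      refine orbitRel_apply.2 ⟨γ, ?_⟩
      have h1 : γ • s₀ = s₀ := hγ
      have h2 : γ • b = a := hab
      show γ • (s₀, b) = (s₀, a)
      rw [Prod.smul_mk, h1, h2])
  apply Nat.card_le_card_of_injective φ
  intro x y
  refine Quotient.inductionOn₂ x y ?_
  intro a b hab
  have h := Quotient.exact hab
  obtain ⟨γ, hγ⟩ := orbitRel_apply.1 h
  have h1 : γ • (s₀, b) = (s₀, a) := hγ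
  rw [Prod.smul_mk, Prod.mk.injEq] at h1
  apply Quotient.sound
  exact orbitRel_apply.2 ⟨⟨γ, h1.1⟩, h1.2⟩

end Pool.Agent.Lib.MP_640417_ag.Far
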