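import Pool.Agent.Lib.MP_640417_ag.Far.Defs
import Pool.Agent.Lib.MP_640417_ag.IntRelation

/-!
# Statements of the steps
-/

namespace Pool.Agent.Lib.MP_640417_ag.Far

open Module Finset NumberField MulAction

/-- The reduction modulo `p` of a rational space of functions has the same dimension. -/
def StRed : Prop := ∀ (S : Type) [Finite S] (p : ℕ) [Fact p.Prime] (U : Submodule ℚ (S → ℚ)),
  finrank (ZMod p) (red p U) = finrank ℚ U

/-- Two commensurable lattices stable under a finite group of order prime to `p` have isomorphic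
reductions modulo `p`: there is a map `φ : L → L'` which is additive and equivariant modulo
`p L'` and injective modulo `p`. -/
def StBNcore : Prop := ∀ (Q : Type) [Group Q] [Finite Q] (W : Type) [AddCommGroup W]
  [DistribMulAction Q W] (_ : ∀ (n : ℤ) (x : W), n • x = 0 → n = 0 ∨ x = 0)
  (L L' : AddSubgroup W) (_ : ∀ (q : Q), ∀ x ∈ L, q • x ∈ L) (_ : ∀ (q : Q), ∀ x ∈ L', q • x ∈ L')
  (n : ℕ) (_ : n ≠ 0) (_ : ∀ x ∈ L, n • x ∈ L') (_ : ∀ x ∈ L', n • x ∈ L)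
  (p : ℕ) [Fact p.Prime] (_ : ¬ p ∣ Nat.card Q),
  ∃ φ : W → W, (∀ x ∈ L, φ x ∈ L') ∧
    (∀ x ∈ L, ∀ y ∈ L, ∃ w ∈ L', φ (x + y) - φ x - φ y = p • w) ∧
    (∀ q : Q, ∀ x ∈ L, ∃ w ∈ L', φ (q • x) - q • φ x = p • w) ∧
    (∀ x ∈ L, (∃ w ∈ L', φ x = p • w) → ∃ y ∈ L, x = p • y)

/-- Isomorphic rational representations have isomorphic reductions modulo a prime which does not
divide the order of the group acting. -/
def StBN : Prop := ∀ (S G : Type) [Fintype S] [Group G] [Finite G] [MulAction G S]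
  (p : ℕ) [Fact p.Prime] (U U' : Submodule ℚ (S → ℚ)), IsStab G U → IsStab G U' → IsoF G U U' →
  ¬ p ∣ (kerSub G U).index → IsoF G (red p U) (red p U')

/-- The number of spaces of functions isomorphic to a reduction. -/
def StCount : Prop := ∀ (S G : Type) [Fintype S] [Group G] [Finite G] [MulAction G S]
  [IsPretransitive G S] (s₀ : S) (p : ℕ) [Fact p.Prime] (U : Submodule ℚ (S → ℚ)), U ≠ ⊥ →
  IsStab G U → ¬ p ∣ (kerSub G U).index →
  (p - 1) * {M : Submodule (ZMod p) (S → ZMod p) | IsStab G M ∧ IsoF G (red p U) M}.ncard + 1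
    ≤ p ^ finrank ℚ ↥(U ⊓ invF ℚ (stabilizer G s₀))

/-- The set of sign functions orthogonal to some space isomorphic to `U`. -/
def badSet {S G : Type} [Fintype S] [Group G] [MulAction G S] (z : G)
    (U : Submodule ℚ (S → ℚ)) : Set (S → ℤ) :=
  {e | IsSgn z e ∧ ∃ U' : Submodule ℚ (S → ℚ), IsStab G U' ∧ IsoF G U U' ∧ Perp e U'}

/-- The number of sign functions orthogonal to some space isomorphic to `U`. -/
def StBad : Prop := ∀ (S G : Type) [Fintype S] [Group G] [Finite G] [MulAction G S]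
  [IsPretransitive G S] (s₀ : S) (z : G) (_ : ∀ s : S, z • z • s = s)
  (X : Finset S) (_ : ∀ s, s ∈ X ↔ z • s ∉ X) (U : Submodule ℚ (S → ℚ)), U ≠ ⊥ →
  IsStab G U → IsOddSp z U → ∀ (p : ℕ) [Fact p.Prime], p ≠ 2 → ¬ p ∣ (kerSub G U).index →
  (∀ a : ℝ, 0 ≤ a → a * finrank ℚ U ≤ X.card →
    ((p : ℝ) - 1) * (badSet z U).ncard
      ≤ ((p : ℝ) ^ finrank ℚ ↥(U ⊓ invF ℚ (stabilizer G s₀)) - 1)
        * (2 ^ X.card * cosAvg p a ^ finrank ℚ U)) ∧
  ((p : ℝ) - 1) * (badSet z U).ncard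
      ≤ ((p : ℝ) ^ finrank ℚ ↥(U ⊓ invF ℚ (stabilizer G s₀)) - 1)
        * (2 ^ X.card * (1 / 2) ^ finrank ℚ U)

/-- Semistability of the family of spaces of functions fixed by the point stabilizers. -/
def StSemi : Prop := ∀ (S G : Type) [Fintype S] [Group G] [Finite G] [MulAction G S]
  [IsPretransitive G S] (s₀ : S) (U : Submodule ℚ (S → ℚ)), IsIrr G U →
  ∀ Y : Submodule ℚ (S → ℚ), Y ≤ U →
  finrank ℚ U * ∑ s : S, finrank ℚ ↥(Y ⊓ invF ℚ (stabilizer G s))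
    ≤ Fintype.card S * finrank ℚ ↥(U ⊓ invF ℚ (stabilizer G s₀)) * finrank ℚ Y

/-- The group acting on an irreducible space is not too large. -/
def StIndex : Prop := ∀ (S G : Type) [Fintype S] [Group G] [Finite G] [MulAction G S]
  [IsPretransitive G S] (s₀ : S) (U : Submodule ℚ (S → ℚ)), IsIrr G U → ∀ r : ℕ,
  (finrank ℚ U : ℝ) * (1 - (finrank ℚ ↥(U ⊓ invF ℚ (stabilizer G s₀)) : ℝ) / finrank ℚ U) ^ r < 1 →
  (kerSub G U).index ≤ Fintype.card S ^ r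

/-- Pairwise non isomorphic irreducible spaces are independent. -/
def StIndep : Prop := ∀ (S G : Type) [Fintype S] [Group G] [MulAction G S] (n : ℕ)
  (U : Fin n → Submodule ℚ (S → ℚ)), (∀ i, IsIrr G (U i)) → (∀ i j, i ≠ j → ¬ IsoF G (U i) (U j)) →
  ∀ f : Fin n → (S → ℚ), (∀ i, f i ∈ U i) → ∑ i, f i = 0 → ∀ i, f i = 0

/-- Representatives of the irreducible odd spaces. -/
def StTypes : Prop := ∀ (S G : Type) [Fintype S] [Group G] [Finite G] [MulAction G S]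
  [IsPretransitive G S] (s₀ : S) (z : G),
  ∃ (n : ℕ) (U : Fin n → Submodule ℚ (S → ℚ)), (∀ i, IsIrr G (U i) ∧ IsOddSp z (U i)) ∧
    (∀ U' : Submodule ℚ (S → ℚ), IsIrr G U' → IsOddSp z U' → ∃ i, IsoF G (U i) U') ∧
    ∑ i, finrank ℚ ↥(U i ⊓ invF ℚ (stabilizer G s₀))
      ≤ Nat.card (orbitRel.Quotient (stabilizer G s₀) S) ∧
    ∀ J : Finset (Fin n), (∀ i ∈ J, U i ≤ invF ℚ (stabilizer G s₀)) →
      ∑ i ∈ J, finrank ℚ (U i)
        ≤ Nat.card (orbitRel.Quotient (Subgroup.normalClosure (stabilizer G s₀ : Set G)) S)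

/-- A relation vector gives an irreducible space orthogonal to the sign function. -/
def StIrrEx : Prop := ∀ (S G : Type) [Fintype S] [Group G] [Finite G] [MulAction G S]
  (z : G) (_ : ∀ γ : G, γ * z = z * γ) (e v : S → ℤ), v ≠ 0 → (∀ s, v (z • s) = - v s) →
  (∀ γ : G, ∑ s, v s * e (γ • s) = 0) →
  ∃ U : Submodule ℚ (S → ℚ), IsIrr G U ∧ IsOddSp z U ∧ Perp e U

/-- A large prime does not divide the order of the group acting. -/
def StTame : Prop := ∀ (S G : Type) [Fintype S] [Group G] [Finite G] [MulAction G S]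
  (U : Submodule ℚ (S → ℚ)), IsStab G U → ∀ p : ℕ, p.Prime → finrank ℚ U + 1 < p →
  ¬ p ∣ (kerSub G U).index

/-- Primes not dividing a given number. -/
def StPrime : Prop := ∃ P₀ : ℝ, ∀ P : ℝ, P₀ ≤ P → ∀ N : ℕ, 0 < N → 4 * Real.log N ≤ P →
  ∃ p : ℕ, p.Prime ∧ P / 8 < p ∧ (p : ℝ) ≤ P ∧ ¬ p ∣ N ∧ p ≠ 2

/-- The numerical bound for one type. -/
def StNum : Prop := ∀ δ : ℝ, 0 < δ → δ < 1 / 2 → ∃ C : ℝ, 0 < C ∧ ∀ (g D h N : ℕ) (x : ℝ),
  1 ≤ h → h ≤ D → D ≤ g → 0 < N → (h : ℝ) ≤ (g : ℝ) ^ (1 - δ) → 0 ≤ x → x ≤ 1 →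
  (∀ r : ℕ, (D : ℝ) * (1 - (h : ℝ) / D) ^ r < 1 → (N : ℝ) ≤ (2 * g : ℝ) ^ r) →
  (∀ p : ℕ, p.Prime → D + 1 < p → ¬ p ∣ N) →
  (∀ (p : ℕ) [Fact p.Prime], p ≠ 2 → ¬ p ∣ N → ∀ a : ℝ, 0 ≤ a → a * D ≤ g →
    ((p : ℝ) - 1) * x ≤ ((p : ℝ) ^ h - 1) * cosAvg p a ^ D) →
  (∀ (p : ℕ) [Fact p.Prime], p ≠ 2 → ¬ p ∣ N →
    ((p : ℝ) - 1) * x ≤ ((p : ℝ) ^ h - 1) * (1 / 2) ^ D) →
  (h = D → x ≤ C * D * (g : ℝ) ^ (δ - 1 / 2)) ∧ (h < D → x ≤ C * h * (g : ℝ) ^ (δ - 1))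

/-- The degree of the largest subfield which is Galois over `ℚ`. -/
def StField : Prop := ∀ (E : Type) [Field E] [NumberField E] [IsCMField E] (d : ℕ)
  (_ : ∀ F : IntermediateField ℚ E, IsGalois ℚ F → (∃ x ∈ F, IsCMField.complexConj E x ≠ x) →
    finrank ℚ F ≤ d) (φ₀ : Emb E)
  (_ : conjEmb φ₀ ∉ orbit (Subgroup.normalClosure
    ((stabilizer (galGroup E) φ₀ : Subgroup (galGroup E)) : Set (galGroup E))) φ₀),
  Nat.card (orbitRel.Quotient (Subgroup.normalClosure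
    ((stabilizer (galGroup E) φ₀ : Subgroup (galGroup E)) : Set (galGroup E))) (Emb E)) ≤ d

/-- Orbits of a point stabilizer and orbits on pairs. -/
def StPairs : Prop := ∀ (S G : Type) [Finite S] [Group G] [MulAction G S]
  [IsPretransitive G S] (s₀ : S),
  Nat.card (orbitRel.Quotient (stabilizer G s₀) S) ≤ Nat.card (orbitRel.Quotient G (S × S))

end Pool.Agent.Lib.MP_640417_ag.Far
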